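import Pool.Agent.Lib.MP_f017c9_lc.DefsG

/-!
# Positivity of cubes (iterated Cauchy-Schwarz)
-/

namespace Pool.Agent.KS

open Finset

/-- Cauchy-Schwarz for a relation between `α` and `γ` -/
theorem Box_cs {α γ : Type*} [Fintype α] [Fintype γ] (G : α → γ → Prop) :
    open Classical in
    (#{x : α × γ | G x.1 x.2}) ^ 2 ≤
      Fintype.card γ * #{x : (α × α) × γ | G x.1.1 x.2 ∧ G x.1.2 x.2} := by
  classical
  have h1 : (#{x : α × γ | G x.1 x.2}) = ∑ c : γ, #{a : α | G a c} := by
    rw [card_filter, Fintype.sum_prod_type_right]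
    refine sum_congr rfl fun c _ => ?_
    rw [card_filter]
  have h2 : (#{x : (α × α) × γ | G x.1.1 x.2 ∧ G x.1.2 x.2}) =
      ∑ c : γ, (#{a : α | G a c}) ^ 2 := by
    rw [card_filter, Fintype.sum_prod_type_right]
    refine sum_congr rfl fun c _ => ?_
    rw [← card_filter, sq, ← card_product]
    congr 1
    ext x
    simp
  rw [h1, h2]
  have := sq_sum_le_card_mul_sum_sq (s := (univ : Finset γ)) (f := fun c => #{a : α | G a c})
  simpa using this

/-- Cauchy-Schwarz, transported -/
theorem Box_cs2 {X α γ : Type*} [Fintype X] [Fintype α] [Fintype γ] (E : (α × α) × γ ≃ X)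
    (Q Q' : X → Prop) (G : α → γ → Prop) (h : ∀ x, Q (E x) ↔ G x.1.1 x.2)
    (h' : ∀ x, Q' (E x) ↔ G x.1.1 x.2 ∧ G x.1.2 x.2) :
    open Classical in
    (#{z | Q z}) ^ 2 ≤ Fintype.card X * #{z | Q' z} := by
  classical
  have c1 : (#{z | Q z}) = #{x : (α × α) × γ | G x.1.1 x.2} := by
    symm
    apply card_equiv E
    intro x
    simp only [mem_filter, mem_univ, true_and, h x]
  have c2 : (#{z | Q' z}) = #{x : (α × α) × γ | G x.1.1 x.2 ∧ G x.1.2 x.2} := by
    symm
    apply card_equiv E
    intro x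
    simp only [mem_filter, mem_univ, true_and, h' x]
  have c3 : (#{x : (α × α) × γ | G x.1.1 x.2}) = Fintype.card α * #{x : α × γ | G x.1 x.2} := by
    rw [← card_univ, ← card_product]
    symm
    let E' : α × (α × γ) ≃ (α × α) × γ :=
      ⟨fun x => ((x.2.1, x.1), x.2.2), fun x => (x.1.2, (x.1.1, x.2)), fun x => rfl, fun x => rfl⟩
    apply card_equiv E'
    intro x
    simp [E']
  have c4 : Fintype.card X = Fintype.card α * Fintype.card α * Fintype.card γ := by
    rw [← Fintype.card_prod, ← Fintype.card_prod]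
    exact (Fintype.card_congr E).symm
  have c5 := Box_cs G
  rw [c1, c2, c3, c4, mul_pow]
  calc (Fintype.card α) ^ 2 * (#{x : α × γ | G x.1 x.2}) ^ 2
      ≤ (Fintype.card α) ^ 2 * (Fintype.card γ * #{x : (α × α) × γ | G x.1.1 x.2 ∧ G x.1.2 x.2}) :=
        Nat.mul_le_mul_left _ c5
    _ = _ := by ring

/-- a vertex of the cube spanned by `z` -/
def boxMix {M r : ℕ} {P : Type} (i : Fin M → Fin r) (z : (Fin M → P) × (Fin M → P))
    (T : Finset (Fin r)) : Fin M → P := fun j => if i j ∈ T then z.2 j else z.1 j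

/-- the function with values `u` on the group `a` and `v` outside -/
def boxGlue {M r : ℕ} {P : Type} (i : Fin M → Fin r) (a : Fin r) :
    ({j : Fin M // i j = a} → P) × ({j : Fin M // ¬ i j = a} → P) ≃ (Fin M → P) :=
  (Equiv.piEquivPiSubtypeProd (fun j : Fin M => i j = a) (fun _ => P)).symm

theorem boxGlue_pos {M r : ℕ} {P : Type} (i : Fin M → Fin r) (a : Fin r)
    (x : ({j : Fin M // i j = a} → P) × ({j : Fin M // ¬ i j = a} → P)) (j : Fin M)
    (hj : i j = a) : boxGlue i a x j = x.1 ⟨j, hj⟩ := by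
  simp [boxGlue, Equiv.piEquivPiSubtypeProd, hj]

theorem boxGlue_neg {M r : ℕ} {P : Type} (i : Fin M → Fin r) (a : Fin r)
    (x : ({j : Fin M // i j = a} → P) × ({j : Fin M // ¬ i j = a} → P)) (j : Fin M)
    (hj : ¬ i j = a) : boxGlue i a x j = x.2 ⟨j, hj⟩ := by
  simp [boxGlue, Equiv.piEquivPiSubtypeProd, hj]

/-- the vertex of the cube outside the group `a` -/
def boxMb {M r : ℕ} {P : Type} (i : Fin M → Fin r) (a : Fin r)
    (v : ({j : Fin M // ¬ i j = a} → P) × ({j : Fin M // ¬ i j = a} → P))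
    (T : Finset (Fin r)) : {j : Fin M // ¬ i j = a} → P :=
  fun j => if i j ∈ T then v.2 j else v.1 j

/-- the correspondence of the pairs -/
def boxE {M r : ℕ} {P : Type} (i : Fin M → Fin r) (a : Fin r) :
    (({j : Fin M // i j = a} → P) × ({j : Fin M // i j = a} → P)) ×
      (({j : Fin M // ¬ i j = a} → P) × ({j : Fin M // ¬ i j = a} → P)) ≃
      (Fin M → P) × (Fin M → P) :=
  (Equiv.prodProdProdComm _ _ _ _).trans ((boxGlue i a).prodCongr (boxGlue i a))

theorem Box_key1 {M r : ℕ} {P : Type} (i : Fin M → Fin r) (a : Fin r)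
    (x : (({j : Fin M // i j = a} → P) × ({j : Fin M // i j = a} → P)) ×
      (({j : Fin M // ¬ i j = a} → P) × ({j : Fin M // ¬ i j = a} → P))) (T : Finset (Fin r))
    (hT : a ∉ T) : boxMix i (boxE i a x) T = boxGlue i a (x.1.1, boxMb i a x.2 T) := by
  funext j
  have hE1 : (boxE i a x).1 = boxGlue i a (x.1.1, x.2.1) := rfl
  have hE2 : (boxE i a x).2 = boxGlue i a (x.1.2, x.2.2) := rfl
  simp only [boxMix, hE1, hE2]
  by_cases hj : i j = a
  · have h1 : i j ∉ T := by rw [hj]; exact hT
    rw [if_neg h1, boxGlue_pos i a _ j hj, boxGlue_pos i a _ j hj]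
  · rw [boxGlue_neg i a _ j hj, boxGlue_neg i a _ j hj, boxGlue_neg i a _ j hj]
    rfl

theorem Box_key2 {M r : ℕ} {P : Type} (i : Fin M → Fin r) (a : Fin r)
    (x : (({j : Fin M // i j = a} → P) × ({j : Fin M // i j = a} → P)) ×
      (({j : Fin M // ¬ i j = a} → P) × ({j : Fin M // ¬ i j = a} → P))) (T : Finset (Fin r)) :
    boxMix i (boxE i a x) (insert a T) = boxGlue i a (x.1.2, boxMb i a x.2 T) := by
  funext j
  have hE1 : (boxE i a x).1 = boxGlue i a (x.1.1, x.2.1) := rfl
  have hE2 : (boxE i a x).2 = boxGlue i a (x.1.2, x.2.2) := rfl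
  simp only [boxMix, hE1, hE2]
  by_cases hj : i j = a
  · have h1 : i j ∈ insert a T := by rw [hj]; exact mem_insert_self _ _
    rw [if_pos h1, boxGlue_pos i a _ j hj, boxGlue_pos i a _ j hj]
  · rw [boxGlue_neg i a _ j hj, boxGlue_neg i a _ j hj, boxGlue_neg i a _ j hj]
    have h1 : (i j ∈ insert a T) = (i j ∈ T) := by simp [hj]
    simp only [boxMb, h1]

theorem Box_step {M r : ℕ} {P : Type} [Fintype P]
    (i : Fin M → Fin r) (S : (Fin M → P) → Prop) (A : Finset (Fin r)) (a : Fin r) (ha : a ∉ A) :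
    open Classical in
    (#{z : (Fin M → P) × (Fin M → P) | ∀ T ⊆ A, S (boxMix i z T)}) ^ 2 ≤
      (Fintype.card (Fin M → P)) ^ 2 *
        #{z : (Fin M → P) × (Fin M → P) | ∀ T ⊆ insert a A, S (boxMix i z T)} := by
  classical
  have h := Box_cs2 (boxE (P := P) i a) (fun z => ∀ T ⊆ A, S (boxMix i z T))
    (fun z => ∀ T ⊆ insert a A, S (boxMix i z T))
    (fun u v => ∀ T ⊆ A, S (boxGlue i a (u, boxMb i a v T))) ?_ ?_
  · rw [Fintype.card_prod, ← sq] at h
    convert h
  · intro x
    constructor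
    · intro h T hT
      rw [← Box_key1 i a x T (fun h' => ha (hT h'))]
      exact h T hT
    · intro h T hT
      rw [Box_key1 i a x T (fun h' => ha (hT h'))]
      exact h T hT
  · intro x
    constructor
    · intro h
      refine ⟨fun T hT => ?_, fun T hT => ?_⟩
      · rw [← Box_key1 i a x T (fun h' => ha (hT h'))]
        exact h T (hT.trans (subset_insert _ _))
      · rw [← Box_key2 i a x T]
        exact h (insert a T) (insert_subset_insert _ hT)
    · rintro ⟨h, h'⟩ T hT
      by_cases haT : a ∈ T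
      · have h3 : T.erase a ⊆ A := by
          intro t ht
          rw [mem_erase] at ht
          exact (mem_insert.mp (hT ht.2)).resolve_left ht.1
        have h4 := Box_key2 i a x (T.erase a)
        rw [insert_erase haT] at h4
        rw [h4]
        exact h' _ h3
      · rw [Box_key1 i a x T haT]
        apply h
        intro t ht
        refine (mem_insert.mp (hT ht)).resolve_left ?_
        rintro rfl
        exact haT ht

theorem Box_count {M r : ℕ} {P : Type} [Fintype P] [Nonempty P]
    (i : Fin M → Fin r) (S : (Fin M → P) → Prop) (A : Finset (Fin r)) :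
    open Classical in
    ((#{s : Fin M → P | S s} : ℝ) / Fintype.card (Fin M → P)) ^ (2 ^ A.card) ≤
      (#{z : (Fin M → P) × (Fin M → P) | ∀ T ⊆ A, S (boxMix i z T)} : ℝ) /
        (Fintype.card (Fin M → P) : ℝ) ^ 2 := by
  classical
  have hC : (0 : ℝ) < Fintype.card (Fin M → P) := by exact_mod_cast Fintype.card_pos
  induction A using Finset.induction_on with
  | empty =>
    have h1 : (#{z : (Fin M → P) × (Fin M → P) | ∀ T ⊆ (∅ : Finset (Fin r)),
        S (boxMix i z T)}) = (#{s : Fin M → P | S s}) * Fintype.card (Fin M → P) := by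
      rw [← card_univ, ← card_product]
      congr 1
      ext z
      simp only [mem_filter, mem_univ, true_and, mem_product, subset_empty, forall_eq, and_true]
      have : boxMix i z ∅ = z.1 := by
        funext j
        simp [boxMix]
      rw [this]
    rw [h1]
    simp only [card_empty, pow_zero, pow_one]
    push_cast
    rw [sq, mul_div_mul_right _ _ hC.ne']
  | insert a A ha ih =>
    rw [card_insert_of_notMem ha, pow_succ, pow_mul]
    have h2 := Box_step i S A a ha
    have h3 : (#{z : (Fin M → P) × (Fin M → P) | ∀ T ⊆ A, S (boxMix i z T)} : ℝ) ^ 2 ≤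
      (Fintype.card (Fin M → P) : ℝ) ^ 2 *
        #{z : (Fin M → P) × (Fin M → P) | ∀ T ⊆ insert a A, S (boxMix i z T)} := by
      exact_mod_cast h2
    have h4 : (((#{s : Fin M → P | S s} : ℝ) / Fintype.card (Fin M → P)) ^ (2 ^ A.card)) ^ 2 ≤
        ((#{z : (Fin M → P) × (Fin M → P) | ∀ T ⊆ A, S (boxMix i z T)} : ℝ) /
        (Fintype.card (Fin M → P) : ℝ) ^ 2) ^ 2 := by
      gcongr
    refine h4.trans ?_
    rw [div_pow, div_le_div_iff₀ (by positivity) (by positivity)]
    calc (#{z : (Fin M → P) × (Fin M → P) | ∀ T ⊆ A, S (boxMix i z T)} : ℝ) ^ 2 *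
          (Fintype.card (Fin M → P) : ℝ) ^ 2
        ≤ ((Fintype.card (Fin M → P) : ℝ) ^ 2 *
        #{z : (Fin M → P) × (Fin M → P) | ∀ T ⊆ insert a A, S (boxMix i z T)}) *
          (Fintype.card (Fin M → P) : ℝ) ^ 2 := by gcongr
      _ = _ := by ring

theorem box_pos {M r : ℕ} {P : Type} [Fintype P] [Nonempty P] [DecidableEq P]
    (i : Fin M → Fin r) (S : (Fin M → P) → Prop) [DecidablePred S] :
    ((#{s : Fin M → P | S s} : ℝ) / Fintype.card (Fin M → P)) ^ (2 ^ r) ≤
      (#{z : (Fin M → P) × (Fin M → P) |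
          ∀ T : Finset (Fin r), S (fun j => if i j ∈ T then z.2 j else z.1 j)} : ℝ) /
        (Fintype.card (Fin M → P) : ℝ) ^ 2 := by
  have h := Box_count i S univ
  rw [card_univ, Fintype.card_fin] at h
  convert h using 3
  · congr 1
    refine congrArg card ?_
    ext z
    simp only [mem_filter, mem_univ, true_and]
  · congr 1
    ext z
    simp only [mem_filter, mem_univ, true_and]
    exact ⟨fun h T _ => h T, fun h T => h T (subset_univ _)⟩

end Pool.Agent.KS
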