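import Pool.Agent.Lib.MP_f017c9_lc.Run

/-!
# KSAT module SC: two times of the walk of one clause
-/

namespace Pool.Agent.KS

open Finset

lemma chain_run_update {X Y : Type*} (f : X → Y → X) {K : ℕ} (x : X) (w : Fin K → Y)
    (i : Fin K) (y : Y) (t : ℕ) (ht : t ≤ i.1) :
    run f x (Function.update w i y) t = run f x w t := by
  induction t with
  | zero => rfl
  | succ t ih =>
    have h1 : t < K := lt_of_lt_of_le ht (le_of_lt i.2)
    have h2 : (⟨t, h1⟩ : Fin K) ≠ i := by
      intro h
      have := congrArg Fin.val h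
      simp only at this
      omega
    simp only [run, h1, dif_pos]
    rw [ih (by omega), Function.update_of_ne h2]

/-- Independence of the letter number `i`. -/
lemma chain_indep {X Y : Type*} [Fintype X] [DecidableEq X] [Fintype Y] [DecidableEq Y] {K : ℕ}
    (i : Fin K)
    (Q : X × (Fin K → Y) → Prop) [DecidablePred Q]
    (hQ : ∀ x w y, Q (x, Function.update w i y) ↔ Q (x, w)) (y : Y) :
    (#{z : X × (Fin K → Y) | Q z ∧ z.2 i = y} : ℝ) * Fintype.card Y =
      #{z : X × (Fin K → Y) | Q z} := by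
  have hcard : ∀ y' : Y, #{z : X × (Fin K → Y) | Q z ∧ z.2 i = y'} =
      #{z : X × (Fin K → Y) | Q z ∧ z.2 i = y} := by
    intro y'
    refine Finset.card_bij' (fun z _ => (z.1, Function.update z.2 i y))
      (fun z _ => (z.1, Function.update z.2 i y')) ?_ ?_ ?_ ?_
    · intro z hz
      simp only [mem_filter, mem_univ, true_and] at hz ⊢
      refine ⟨?_, by simp⟩
      exact (hQ z.1 z.2 y).2 hz.1
    · intro z hz
      simp only [mem_filter, mem_univ, true_and] at hz ⊢
      refine ⟨?_, by simp⟩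
      exact (hQ z.1 z.2 y').2 hz.1
    · intro z hz
      simp only [mem_filter, mem_univ, true_and] at hz
      ext
      · rfl
      · simp only [Function.update_idem]
        rw [← hz.2, Function.update_eq_self]
    · intro z hz
      simp only [mem_filter, mem_univ, true_and] at hz
      ext
      · rfl
      · simp only [Function.update_idem]
        rw [← hz.2, Function.update_eq_self]
  have hsum : #{z : X × (Fin K → Y) | Q z} =
      ∑ y' : Y, #{z : X × (Fin K → Y) | Q z ∧ z.2 i = y'} := by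
    rw [Finset.card_eq_sum_card_fiberwise (f := fun z => z.2 i) (t := univ)
      (fun z _ => mem_univ _)]
    refine Finset.sum_congr rfl fun y' _ => ?_
    rw [Finset.filter_filter]
  rw [hsum, Finset.sum_congr rfl (fun y' _ => hcard y')]
  simp only [Finset.sum_const, card_univ, smul_eq_mul, Nat.cast_mul]
  ring

/-- One step of the walk. -/
lemma chain_step (k L K : ℕ) (i : Fin K)
    (Q : Pat k × (Fin K → Fin (L + 1) × Pat k) → Prop) [DecidablePred Q]
    (hQ : ∀ x w y, Q (x, Function.update w i y) ↔ Q (x, w))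
    (r : Pat k × (Fin K → Fin (L + 1) × Pat k) → Pat k)
    (hr : ∀ x w y, r (x, Function.update w i y) = r (x, w)) (b : Pat k) :
    (#{z : Pat k × (Fin K → Fin (L + 1) × Pat k) | Q z ∧ move1 (r z) (z.2 i) = b} : ℝ) =
      (1 / ((L + 1 : ℝ) * 2 ^ k)) * #{z : Pat k × (Fin K → Fin (L + 1) × Pat k) | Q z} +
        ((L : ℝ) / (L + 1)) *
          #{z : Pat k × (Fin K → Fin (L + 1) × Pat k) | Q z ∧ r z = b} := by
  have hY : (Fintype.card (Fin (L + 1) × Pat k) : ℝ) = (L + 1 : ℝ) * 2 ^ k := by
    simp [Fintype.card_prod]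
  have hY0 : ((L + 1 : ℝ) * 2 ^ k) ≠ 0 := by positivity
  have hL0 : (L + 1 : ℝ) ≠ 0 := by positivity
  have hk0 : (2 : ℝ) ^ k ≠ 0 := by positivity
  -- the two parts
  have hsplit : #{z : Pat k × (Fin K → Fin (L + 1) × Pat k) | Q z ∧ move1 (r z) (z.2 i) = b} =
      #{z : Pat k × (Fin K → Fin (L + 1) × Pat k) | Q z ∧ z.2 i = (0, b)} +
      #{z : Pat k × (Fin K → Fin (L + 1) × Pat k) | (Q z ∧ r z = b) ∧ ¬ (z.2 i).1 = 0} := by
    rw [← Finset.card_union_of_disjoint]
    · congr 1
      ext z
      simp only [mem_filter, mem_univ, true_and, mem_union, move1]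
      by_cases h0 : (z.2 i).1 = 0
      · simp only [h0, if_true, not_true, and_false, or_false, Prod.ext_iff, true_and]
      · simp only [h0, if_false, Prod.ext_iff, false_and, and_false, false_or, not_false_iff,
          and_true]
    · rw [Finset.disjoint_left]
      intro z hz1 hz2
      simp only [mem_filter, mem_univ, true_and] at hz1 hz2
      exact hz2.2 (by rw [hz1.2])
  have h1 := chain_indep i Q hQ (0, b)
  have hQ' : ∀ x w y, (Q (x, Function.update w i y) ∧ r (x, Function.update w i y) = b) ↔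
      (Q (x, w) ∧ r (x, w) = b) := by
    intro x w y
    rw [hQ, hr]
  have h2 : ∀ p : Pat k, (#{z : Pat k × (Fin K → Fin (L + 1) × Pat k) |
      (Q z ∧ r z = b) ∧ z.2 i = (0, p)} : ℝ) * Fintype.card (Fin (L + 1) × Pat k) =
      #{z : Pat k × (Fin K → Fin (L + 1) × Pat k) | Q z ∧ r z = b} := by
    intro p
    exact chain_indep i (fun z => Q z ∧ r z = b) hQ' (0, p)
  have h3 : (#{z : Pat k × (Fin K → Fin (L + 1) × Pat k) |
      (Q z ∧ r z = b) ∧ (z.2 i).1 = 0} : ℝ) =
      ∑ p : Pat k, (#{z : Pat k × (Fin K → Fin (L + 1) × Pat k) |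
      (Q z ∧ r z = b) ∧ z.2 i = (0, p)} : ℝ) := by
    rw [← Nat.cast_sum, Nat.cast_inj]
    rw [Finset.card_eq_sum_card_fiberwise (f := fun z => (z.2 i).2) (t := univ)
      (fun z _ => mem_univ _)]
    refine Finset.sum_congr rfl fun p _ => ?_
    congr 1
    ext z
    simp only [mem_filter, mem_univ, true_and, Prod.ext_iff, and_assoc]
  have h4 : (#{z : Pat k × (Fin K → Fin (L + 1) × Pat k) |
      (Q z ∧ r z = b) ∧ (z.2 i).1 = 0} : ℝ) +
      #{z : Pat k × (Fin K → Fin (L + 1) × Pat k) |
      (Q z ∧ r z = b) ∧ ¬ (z.2 i).1 = 0} =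
      #{z : Pat k × (Fin K → Fin (L + 1) × Pat k) | Q z ∧ r z = b} := by
    rw [← Nat.cast_add, Nat.cast_inj]
    have := Finset.card_filter_add_card_filter_not
      (s := ({z : Pat k × (Fin K → Fin (L + 1) × Pat k) | Q z ∧ r z = b} : Finset _))
      (fun z => (z.2 i).1 = 0)
    rw [Finset.filter_filter, Finset.filter_filter] at this
    exact this
  rw [hsplit, Nat.cast_add]
  rw [hY] at h1
  have h5 : (#{z : Pat k × (Fin K → Fin (L + 1) × Pat k) | Q z ∧ z.2 i = (0, b)} : ℝ) =
      (1 / ((L + 1 : ℝ) * 2 ^ k)) * #{z : Pat k × (Fin K → Fin (L + 1) × Pat k) | Q z} := by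
    rw [← h1]
    field_simp
  have h6 : (#{z : Pat k × (Fin K → Fin (L + 1) × Pat k) |
      (Q z ∧ r z = b) ∧ (z.2 i).1 = 0} : ℝ) =
      (1 / (L + 1 : ℝ)) *
        #{z : Pat k × (Fin K → Fin (L + 1) × Pat k) | Q z ∧ r z = b} := by
    rw [h3]
    have : ∀ p : Pat k, (#{z : Pat k × (Fin K → Fin (L + 1) × Pat k) |
      (Q z ∧ r z = b) ∧ z.2 i = (0, p)} : ℝ) =
        #{z : Pat k × (Fin K → Fin (L + 1) × Pat k) | Q z ∧ r z = b} /
          ((L + 1 : ℝ) * 2 ^ k) := by
      intro p
      rw [eq_div_iff hY0, ← hY]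
      exact h2 p
    rw [Finset.sum_congr rfl (fun p _ => this p)]
    simp only [Finset.sum_const, card_univ, nsmul_eq_mul]
    have hc : (Fintype.card (Pat k) : ℝ) = 2 ^ k := by simp
    rw [hc]
    field_simp
  rw [h5]
  have h7 : (#{z : Pat k × (Fin K → Fin (L + 1) × Pat k) |
      (Q z ∧ r z = b) ∧ ¬ (z.2 i).1 = 0} : ℝ) =
      ((L : ℝ) / (L + 1)) *
        #{z : Pat k × (Fin K → Fin (L + 1) × Pat k) | Q z ∧ r z = b} := by
    have e : ((L : ℝ) / (L + 1)) = 1 - 1 / (L + 1) := by
      field_simp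
      ring
    rw [e, sub_mul, ← h6, ← h4]
    ring
  rw [h7]

lemma chain_one (k L K t : ℕ) (h : t ≤ K) (a : Pat k) :
    (#{z : Pat k × (Fin K → Fin (L + 1) × Pat k) | run move1 z.1 z.2 t = a} : ℝ) =
      Fintype.card (Pat k × (Fin K → Fin (L + 1) × Pat k)) * (1 / 2 ^ k) := by
  have hk0 : (2 : ℝ) ^ k ≠ 0 := by positivity
  have hL0 : (L + 1 : ℝ) ≠ 0 := by positivity
  induction t generalizing a with
  | zero =>
    simp only [run]
    have : ({z : Pat k × (Fin K → Fin (L + 1) × Pat k) | z.1 = a} : Finset _) =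
        ({a} : Finset (Pat k)) ×ˢ (univ : Finset (Fin K → Fin (L + 1) × Pat k)) := by
      ext z
      simp only [mem_filter, mem_univ, true_and, mem_product, mem_singleton, and_true]
    rw [this, Finset.card_product, Fintype.card_prod]
    have hc : (Fintype.card (Pat k) : ℝ) = 2 ^ k := by simp
    rw [Nat.cast_mul, Nat.cast_mul, hc, card_univ]
    simp only [card_singleton, Nat.cast_one]
    field_simp
  | succ t ih =>
    have hK : t < K := h
    have hs := chain_step k L K ⟨t, hK⟩ (fun _ => True) (fun _ _ _ => Iff.rfl)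
      (fun z => run move1 z.1 z.2 t)
      (fun x w y => chain_run_update move1 x w ⟨t, hK⟩ y t le_rfl) a
    simp only [true_and] at hs
    have e : ({z : Pat k × (Fin K → Fin (L + 1) × Pat k) | run move1 z.1 z.2 (t + 1) = a} :
        Finset _) = ({z : Pat k × (Fin K → Fin (L + 1) × Pat k) |
          move1 (run move1 z.1 z.2 t) (z.2 ⟨t, hK⟩) = a} : Finset _) := by
      ext z
      simp only [mem_filter, mem_univ, true_and, run, hK, dif_pos]
    rw [e, hs, ih (le_of_lt hK) a]
    have hu : (#{z : Pat k × (Fin K → Fin (L + 1) × Pat k) | True} : ℝ) =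
        Fintype.card (Pat k × (Fin K → Fin (L + 1) × Pat k)) := by
      simp
    rw [hu]
    field_simp
    ring

theorem chain_pair (k L K t t' : ℕ) (h : t ≤ t') (h' : t' ≤ K) (a b : Pat k) :
    (#{z : Pat k × (Fin K → Fin (L + 1) × Pat k) |
        run move1 z.1 z.2 t = a ∧ run move1 z.1 z.2 t' = b} : ℝ) =
      Fintype.card (Pat k × (Fin K → Fin (L + 1) × Pat k)) * (1 / 2 ^ k) *
        (((L : ℝ) / (L + 1)) ^ (t' - t) * (if a = b then 1 else 0) +
          (1 - ((L : ℝ) / (L + 1)) ^ (t' - t)) * (1 / 2 ^ k)) := by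
  have hk0 : (2 : ℝ) ^ k ≠ 0 := by positivity
  have hL0 : (L + 1 : ℝ) ≠ 0 := by positivity
  obtain ⟨m, rfl⟩ := Nat.exists_eq_add_of_le h
  have hm : t + m - t = m := by omega
  rw [hm]
  clear hm h
  induction m generalizing b with
  | zero =>
    simp only [add_zero, pow_zero, one_mul, sub_self, zero_mul]
    by_cases hab : a = b
    · subst hab
      simp only [and_self, if_true, mul_one]
      exact chain_one k L K t h' a
    · simp only [hab, if_false, mul_zero]
      have : ({z : Pat k × (Fin K → Fin (L + 1) × Pat k) |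
        run move1 z.1 z.2 t = a ∧ run move1 z.1 z.2 t = b} : Finset _) = ∅ := by
        rw [Finset.filter_eq_empty_iff]
        rintro z - ⟨h1, h2⟩
        exact hab (h1.symm.trans h2)
      rw [this]
      simp
  | succ m ih =>
    have hK : t + m < K := by omega
    have hs := chain_step k L K ⟨t + m, hK⟩ (fun z => run move1 z.1 z.2 t = a)
      (fun x w y => by
        simp only
        rw [chain_run_update move1 x w ⟨t + m, hK⟩ y t (by simp)])
      (fun z => run move1 z.1 z.2 (t + m))
      (fun x w y => chain_run_update move1 x w ⟨t + m, hK⟩ y (t + m) le_rfl) b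
    have e : ({z : Pat k × (Fin K → Fin (L + 1) × Pat k) |
        run move1 z.1 z.2 t = a ∧ run move1 z.1 z.2 (t + (m + 1)) = b} :
        Finset _) = ({z : Pat k × (Fin K → Fin (L + 1) × Pat k) |
          run move1 z.1 z.2 t = a ∧
          move1 (run move1 z.1 z.2 (t + m)) (z.2 ⟨t + m, hK⟩) = b} : Finset _) := by
      ext z
      simp only [mem_filter, mem_univ, true_and]
      rw [← add_assoc]
      simp only [run, hK, dif_pos]
    rw [e, hs, ih b (by omega), chain_one k L K t (by omega) a]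
    rw [pow_succ]
    field_simp
    ring

end Pool.Agent.KS
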