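import Pool.Agent.Lib.MP_f017c9_lc.DefsG
import Pool.Agent.Lib.MP_f017c9_lc.Chain

/-!
# KALG module UB: two times of the walk of one clause, general labels
-/

namespace Pool.Agent.KS

open Finset

/-- Independence of the letter number `i`, for a set of letters. -/
lemma chainJ_set {X Y : Type*} [Fintype X] [DecidableEq X] [Fintype Y] [DecidableEq Y] {K : ℕ}
    (i : Fin K) (Q : X × (Fin K → Y) → Prop) [DecidablePred Q]
    (hQ : ∀ x w y, Q (x, Function.update w i y) ↔ Q (x, w)) (S : Finset Y) :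
    (#{z : X × (Fin K → Y) | Q z ∧ z.2 i ∈ S} : ℝ) * Fintype.card Y =
      S.card * #{z : X × (Fin K → Y) | Q z} := by
  have h1 : #{z : X × (Fin K → Y) | Q z ∧ z.2 i ∈ S} =
      ∑ y ∈ S, #{z : X × (Fin K → Y) | Q z ∧ z.2 i = y} := by
    rw [Finset.card_eq_sum_card_fiberwise (f := fun z => z.2 i) (t := S)]
    · refine Finset.sum_congr rfl fun y hy => ?_
      congr 1
      ext z
      simp only [mem_filter, mem_univ, true_and]
      constructor
      · rintro ⟨⟨h1, -⟩, h3⟩
        exact ⟨h1, h3⟩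
      · rintro ⟨h1, h3⟩
        exact ⟨⟨h1, h3 ▸ hy⟩, h3⟩
    · intro z hz
      simp only [mem_coe, mem_filter, mem_univ, true_and] at hz
      exact hz.2
  rw [h1, Nat.cast_sum, Finset.sum_mul, Finset.sum_congr rfl (fun y _ => chain_indep i Q hQ y)]
  simp

/-- One step of the walk. -/
lemma chainJ_step (k r K : ℕ) (hr1 : 1 ≤ r) (J₀ : Finset (Fin r)) (i : Fin K)
    (Q : Pat k × (Fin K → Fin r × Pat k) → Prop) [DecidablePred Q]
    (hQ : ∀ x w y, Q (x, Function.update w i y) ↔ Q (x, w))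
    (ρ : Pat k × (Fin K → Fin r × Pat k) → Pat k)
    (hρ : ∀ x w y, ρ (x, Function.update w i y) = ρ (x, w)) (b : Pat k) :
    (#{z : Pat k × (Fin K → Fin r × Pat k) | Q z ∧ moveJ1 J₀ (ρ z) (z.2 i) = b} : ℝ) =
      ((J₀.card : ℝ) / r / 2 ^ k) * #{z : Pat k × (Fin K → Fin r × Pat k) | Q z} +
        (1 - (J₀.card : ℝ) / r) *
          #{z : Pat k × (Fin K → Fin r × Pat k) | Q z ∧ ρ z = b} := by
  classical
  have hY : (Fintype.card (Fin r × Pat k) : ℝ) = (r : ℝ) * 2 ^ k := by
    simp [Fintype.card_prod]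
  have hr0 : (r : ℝ) ≠ 0 := by
    have : (0 : ℝ) < r := by exact_mod_cast hr1
    exact this.ne'
  have hk0 : (2 : ℝ) ^ k ≠ 0 := by positivity
  have hQ' : ∀ x w y, (Q (x, Function.update w i y) ∧ ρ (x, Function.update w i y) = b) ↔
      (Q (x, w) ∧ ρ (x, w) = b) := by
    intro x w y
    rw [hQ, hρ]
  have h1 := chainJ_set i Q hQ (J₀ ×ˢ ({b} : Finset (Pat k)))
  have h2 := chainJ_set i (fun z => Q z ∧ ρ z = b) hQ' (J₀ᶜ ×ˢ (univ : Finset (Pat k)))
  have hsplit : #{z : Pat k × (Fin K → Fin r × Pat k) | Q z ∧ moveJ1 J₀ (ρ z) (z.2 i) = b} =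
      #{z : Pat k × (Fin K → Fin r × Pat k) | Q z ∧ z.2 i ∈ J₀ ×ˢ ({b} : Finset (Pat k))} +
      #{z : Pat k × (Fin K → Fin r × Pat k) | (Q z ∧ ρ z = b) ∧
        z.2 i ∈ J₀ᶜ ×ˢ (univ : Finset (Pat k))} := by
    rw [← Finset.card_union_of_disjoint]
    · congr 1
      ext z
      simp only [mem_filter, mem_univ, true_and, mem_union, moveJ1, mem_product, mem_singleton,
        mem_compl, and_true]
      by_cases h0 : (z.2 i).1 ∈ J₀
      · simp only [h0, if_true, not_true, and_false, or_false, true_and]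
      · simp only [h0, if_false, false_and, and_false, false_or, not_false_iff, and_true]
    · rw [Finset.disjoint_left]
      intro z hz1 hz2
      simp only [mem_filter, mem_univ, true_and, mem_product, mem_singleton, mem_compl,
        and_true] at hz1 hz2
      exact hz2.2 hz1.2.1
  have hle : J₀.card ≤ r := by
    have := Finset.card_le_univ J₀
    simpa using this
  have hc2 : ((J₀ᶜ ×ˢ (univ : Finset (Pat k))).card : ℝ) = ((r : ℝ) - J₀.card) * 2 ^ k := by
    rw [Finset.card_product, Finset.card_compl, Fintype.card_fin, Nat.cast_mul,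
      Nat.cast_sub hle]
    simp
  rw [hc2, hY] at h2
  rw [hY, Finset.card_product, Finset.card_singleton, mul_one] at h1
  rw [hsplit, Nat.cast_add]
  have h3 : (#{z : Pat k × (Fin K → Fin r × Pat k) | Q z ∧
      z.2 i ∈ J₀ ×ˢ ({b} : Finset (Pat k))} : ℝ) =
      ((J₀.card : ℝ) / r / 2 ^ k) * #{z : Pat k × (Fin K → Fin r × Pat k) | Q z} := by
    field_simp
    linarith
  have h4 : (#{z : Pat k × (Fin K → Fin r × Pat k) | (Q z ∧ ρ z = b) ∧
        z.2 i ∈ J₀ᶜ ×ˢ (univ : Finset (Pat k))} : ℝ) =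
      (1 - (J₀.card : ℝ) / r) *
          #{z : Pat k × (Fin K → Fin r × Pat k) | Q z ∧ ρ z = b} := by
    have h5 : ((r : ℝ) * 2 ^ k) ≠ 0 := mul_ne_zero hr0 hk0
    apply mul_right_cancel₀ h5
    rw [h2]
    field_simp
  rw [h3, h4]

lemma chainJ_one (k r K t : ℕ) (hr : 1 ≤ r) (J₀ : Finset (Fin r)) (h : t ≤ K) (a : Pat k) :
    (#{z : Pat k × (Fin K → Fin r × Pat k) | run (moveJ1 J₀) z.1 z.2 t = a} : ℝ) =
      Fintype.card (Pat k × (Fin K → Fin r × Pat k)) * (1 / 2 ^ k) := by
  have hk0 : (2 : ℝ) ^ k ≠ 0 := by positivity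
  have hr0 : (r : ℝ) ≠ 0 := by
    have : (0 : ℝ) < r := by exact_mod_cast hr
    exact this.ne'
  induction t generalizing a with
  | zero =>
    simp only [run]
    have : ({z : Pat k × (Fin K → Fin r × Pat k) | z.1 = a} : Finset _) =
        ({a} : Finset (Pat k)) ×ˢ (univ : Finset (Fin K → Fin r × Pat k)) := by
      ext z
      simp only [mem_filter, mem_univ, true_and, mem_product, mem_singleton, and_true]
    rw [this, Finset.card_product, Fintype.card_prod]
    have hc : (Fintype.card (Pat k) : ℝ) = 2 ^ k := by simp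
    rw [Nat.cast_mul, Nat.cast_mul, hc, card_univ]
    simp only [card_singleton, Nat.cast_one]
    field_simp
  | succ t ih =>
    have hK : t < K := h
    have hs := chainJ_step k r K hr J₀ ⟨t, hK⟩ (fun _ => True) (fun _ _ _ => Iff.rfl)
      (fun z => run (moveJ1 J₀) z.1 z.2 t)
      (fun x w y => chain_run_update (moveJ1 J₀) x w ⟨t, hK⟩ y t le_rfl) a
    simp only [true_and] at hs
    have e : ({z : Pat k × (Fin K → Fin r × Pat k) | run (moveJ1 J₀) z.1 z.2 (t + 1) = a} :
        Finset _) = ({z : Pat k × (Fin K → Fin r × Pat k) |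
          moveJ1 J₀ (run (moveJ1 J₀) z.1 z.2 t) (z.2 ⟨t, hK⟩) = a} : Finset _) := by
      ext z
      simp only [mem_filter, mem_univ, true_and, run, hK, dif_pos]
    rw [e, hs, ih (le_of_lt hK) a]
    have hu : (#{z : Pat k × (Fin K → Fin r × Pat k) | True} : ℝ) =
        Fintype.card (Pat k × (Fin K → Fin r × Pat k)) := by
      simp
    rw [hu]
    field_simp
    ring

theorem chain_pairJ (k r K t t' : ℕ) (hr : 1 ≤ r) (J₀ : Finset (Fin r)) (h : t ≤ t')
    (h' : t' ≤ K) (a b : Pat k) :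
    (#{z : Pat k × (Fin K → Fin r × Pat k) |
        run (moveJ1 J₀) z.1 z.2 t = a ∧ run (moveJ1 J₀) z.1 z.2 t' = b} : ℝ) =
      Fintype.card (Pat k × (Fin K → Fin r × Pat k)) * (1 / 2 ^ k) *
        ((1 - (J₀.card : ℝ) / r) ^ (t' - t) * (if a = b then 1 else 0) +
          (1 - (1 - (J₀.card : ℝ) / r) ^ (t' - t)) * (1 / 2 ^ k)) := by
  have hk0 : (2 : ℝ) ^ k ≠ 0 := by positivity
  have hr0 : (r : ℝ) ≠ 0 := by
    have : (0 : ℝ) < r := by exact_mod_cast hr
    exact this.ne'
  obtain ⟨m, rfl⟩ := Nat.exists_eq_add_of_le h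
  have hm : t + m - t = m := by omega
  rw [hm]
  clear hm h
  induction m generalizing b with
  | zero =>
    simp only [add_zero, pow_zero, one_mul, sub_self, zero_mul]
    by_cases hab : a = b
    · subst hab
      simp only [and_self, if_true, mul_one]
      exact chainJ_one k r K t hr J₀ h' a
    · simp only [hab, if_false, mul_zero]
      have : ({z : Pat k × (Fin K → Fin r × Pat k) |
        run (moveJ1 J₀) z.1 z.2 t = a ∧ run (moveJ1 J₀) z.1 z.2 t = b} : Finset _) = ∅ := by
        rw [Finset.filter_eq_empty_iff]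
        rintro z - ⟨h1, h2⟩
        exact hab (h1.symm.trans h2)
      rw [this]
      simp
  | succ m ih =>
    have hK : t + m < K := by omega
    have hs := chainJ_step k r K hr J₀ ⟨t + m, hK⟩ (fun z => run (moveJ1 J₀) z.1 z.2 t = a)
      (fun x w y => by
        simp only
        rw [chain_run_update (moveJ1 J₀) x w ⟨t + m, hK⟩ y t (by simp)])
      (fun z => run (moveJ1 J₀) z.1 z.2 (t + m))
      (fun x w y => chain_run_update (moveJ1 J₀) x w ⟨t + m, hK⟩ y (t + m) le_rfl) b
    have e : ({z : Pat k × (Fin K → Fin r × Pat k) |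
        run (moveJ1 J₀) z.1 z.2 t = a ∧ run (moveJ1 J₀) z.1 z.2 (t + (m + 1)) = b} :
        Finset _) = ({z : Pat k × (Fin K → Fin r × Pat k) |
          run (moveJ1 J₀) z.1 z.2 t = a ∧
          moveJ1 J₀ (run (moveJ1 J₀) z.1 z.2 (t + m)) (z.2 ⟨t + m, hK⟩) = b} : Finset _) := by
      ext z
      simp only [mem_filter, mem_univ, true_and]
      rw [← add_assoc]
      simp only [run, hK, dif_pos]
    rw [e, hs, ih b (by omega), chainJ_one k r K t hr J₀ (by omega) a]
    rw [pow_succ]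
    field_simp
    ring

end Pool.Agent.KS
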