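import Pool.Agent.Lib.MP_f017c9_lc.Chain

/-!
# KSAT module SE: after many steps no solution is close to the old output
-/

namespace Pool.Agent.KS

open Finset

/-- The walk of a pair (seed, formula) acts clause by clause. -/
lemma chaos_run {n k M L K : ℕ} {R : Type} (x : R × Formula n k M)
    (w : Fin K → Fin M → Fin (L + 1) × Pat k) (t : ℕ) :
    run moveR x w t =
      (x.1, fun j => ((x.2 j).1, run move1 (x.2 j).2 (fun u => w u j) t)) := by
  induction t with
  | zero => rfl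
  | succ t ih =>
    by_cases h : t < K
    · simp only [run, h, dif_pos, ih, moveR]
      rfl
    · simp only [run, h, dif_neg, not_false_iff, ih]

/-- a sum over pairs (formula, walk) is a product over the clauses -/
lemma chaos_prod {C Y : Type*} [Fintype C] [Fintype Y] [DecidableEq C] [DecidableEq Y]
    {M K : ℕ} (g : Fin M → C × (Fin K → Y) → ℝ) :
    ∑ z : (Fin M → C) × (Fin K → Fin M → Y), ∏ j, g j (z.1 j, fun u => z.2 u j) =
      ∏ j, ∑ c : C × (Fin K → Y), g j c := by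
  classical
  rw [Finset.prod_univ_sum]
  symm
  refine Finset.sum_bij' (fun p _ => (fun j => (p j).1, fun u j => (p j).2 u))
    (fun z _ => fun j => (z.1 j, fun u => z.2 u j)) ?_ ?_ ?_ ?_ ?_
  · intro p _; exact mem_univ _
  · intro z _; simp
  · intro p _; rfl
  · intro z _; rfl
  · intro p _; rfl

lemma chaos_gamma (L d : ℕ) (hd : 2 * (L + 1) ≤ d) : ((L : ℝ) / (L + 1)) ^ d ≤ 1 / 4 := by
  have hL : (0:ℝ) < L + 1 := by positivity
  have h0 : 0 ≤ (L : ℝ) / (L + 1) := by positivity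
  have h1 : (L : ℝ) / (L + 1) ≤ 1 := by rw [div_le_one hL]; linarith
  have h2 : (L : ℝ) / (L + 1) ≤ Real.exp (-(1 / (L + 1))) := by
    have := Real.add_one_le_exp (-(1 / ((L : ℝ) + 1)))
    have h3 : (L : ℝ) / (L + 1) = -(1 / ((L : ℝ) + 1)) + 1 := by field_simp; ring
    rw [h3]; exact this
  calc ((L : ℝ) / (L + 1)) ^ d ≤ ((L : ℝ) / (L + 1)) ^ (2 * (L + 1)) :=
        pow_le_pow_of_le_one h0 h1 hd
    _ ≤ (Real.exp (-(1 / (L + 1)))) ^ (2 * (L + 1)) := pow_le_pow_left₀ h0 h2 _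
    _ = Real.exp (-2) := by
        rw [← Real.exp_nat_mul]
        congr 1
        push_cast
        field_simp
    _ ≤ 1 / 4 := by
        rw [Real.exp_neg, inv_eq_one_div]
        apply one_div_le_one_div_of_le (by norm_num)
        have h4 : Real.exp 2 = Real.exp 1 * Real.exp 1 := by rw [← Real.exp_add]; norm_num
        have h5 := Real.add_one_le_exp (1:ℝ)
        rw [h4]
        nlinarith

/-- one clause: the weight of the walks with a given value at time `i` -/
lemma chaos_inner {k L K : ℕ} (i τ : ℕ) (hi : i + 2 * (L + 1) ≤ τ) (hτ : τ ≤ K) (a b : Pat k) :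
    ∑ z : Pat k × (Fin K → Fin (L + 1) × Pat k), (if run move1 z.1 z.2 i = a then
        (if run move1 z.1 z.2 τ = b then (1 / 4 : ℝ) else 1) else 0) ≤
      Fintype.card (Pat k × (Fin K → Fin (L + 1) × Pat k)) * (1 / 2 ^ k) *
        Real.exp (-(9 / 16) * (1 / 2 ^ k)) := by
  have h1 := chain_pair k L K i i le_rfl (by omega) a a
  have h2 := chain_pair k L K i τ (by omega) hτ a b
  set N : ℝ := (Fintype.card (Pat k × (Fin K → Fin (L + 1) × Pat k)) : ℝ) with hN
  have hN0 : 0 ≤ N := by positivity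
  set γ : ℝ := ((L : ℝ) / (L + 1)) ^ (τ - i) with hγ
  have hγ1 : γ ≤ 1 / 4 := chaos_gamma L _ (by omega)
  have hγ0 : 0 ≤ γ := by positivity
  have hsum : ∑ z : Pat k × (Fin K → Fin (L + 1) × Pat k), (if run move1 z.1 z.2 i = a then
        (if run move1 z.1 z.2 τ = b then (1 / 4 : ℝ) else 1) else 0) =
      (#{z : Pat k × (Fin K → Fin (L + 1) × Pat k) |
        run move1 z.1 z.2 i = a ∧ run move1 z.1 z.2 i = a} : ℝ) -
      3 / 4 * (#{z : Pat k × (Fin K → Fin (L + 1) × Pat k) |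
        run move1 z.1 z.2 i = a ∧ run move1 z.1 z.2 τ = b} : ℝ) := by
    rw [Finset.card_filter, Finset.card_filter]
    push_cast
    rw [Finset.mul_sum, ← Finset.sum_sub_distrib]
    apply Finset.sum_congr rfl
    intro z _
    by_cases ha : run move1 z.1 z.2 i = a <;> by_cases hb : run move1 z.1 z.2 τ = b <;>
      simp [ha, hb]
    norm_num
  rw [hsum, h1, h2]
  simp only [Nat.sub_self, pow_zero, if_true, mul_one, sub_self, zero_mul, add_zero]
  have hp : (0:ℝ) < 1 / 2 ^ k := by positivity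
  have h3 : (3 / 4 : ℝ) * (1 / 2 ^ k) ≤ γ * (if a = b then 1 else 0) + (1 - γ) * (1 / 2 ^ k) := by
    have h4 : 0 ≤ γ * (if a = b then (1:ℝ) else 0) := by
      split_ifs <;> simp [hγ0]
    nlinarith
  have h5 : 1 - (9 / 16 : ℝ) * (1 / 2 ^ k) ≤ Real.exp (-(9 / 16) * (1 / 2 ^ k)) := by
    have := Real.add_one_le_exp (-(9 / 16 : ℝ) * (1 / 2 ^ k))
    linarith
  have h6 : 0 ≤ N * (1 / 2 ^ k) := by positivity
  calc N * (1 / 2 ^ k) - 3 / 4 * (N * (1 / 2 ^ k) *
        (γ * (if a = b then 1 else 0) + (1 - γ) * (1 / 2 ^ k)))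
      ≤ N * (1 / 2 ^ k) - 3 / 4 * (N * (1 / 2 ^ k) * (3 / 4 * (1 / 2 ^ k))) := by gcongr
    _ = N * (1 / 2 ^ k) * (1 - 9 / 16 * (1 / 2 ^ k)) := by ring
    _ ≤ N * (1 / 2 ^ k) * Real.exp (-(9 / 16) * (1 / 2 ^ k)) := by gcongr

lemma chaos_violated {n k : ℕ} (σ : Asg n) (c : Clause n k) :
    Violated σ c ↔ c.2 = fun u => !σ (c.1 u) := by
  unfold Violated
  constructor
  · intro h
    funext u
    have := h u
    cases h1 : σ (c.1 u) <;> cases h2 : c.2 u <;> simp_all
  · intro h u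
    rw [h]
    cases h1 : σ (c.1 u) <;> simp [h1]

/-- the same for clauses -/
lemma chaos_clause {n k L K : ℕ} (i τ : ℕ) (hi : i + 2 * (L + 1) ≤ τ) (hτ : τ ≤ K)
    (σ : Asg n) (q : Clause n k) :
    ∑ c : Clause n k × (Fin K → Fin (L + 1) × Pat k),
      (if c.1.1 = q.1 ∧ run move1 c.1.2 c.2 i = q.2 then
        (if Violated σ (c.1.1, run move1 c.1.2 c.2 τ) then (1 / 4 : ℝ) else 1) else 0) ≤
      Fintype.card (Pat k × (Fin K → Fin (L + 1) × Pat k)) * (1 / 2 ^ k) *
        Real.exp (-(9 / 16) * (1 / 2 ^ k)) := by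
  refine le_trans (le_of_eq ?_) (chaos_inner i τ hi hτ q.2 (fun u => !σ (q.1 u)))
  rw [Fintype.sum_prod_type, Fintype.sum_prod_type, Fintype.sum_prod_type,
    Finset.sum_eq_single q.1]
  · apply Finset.sum_congr rfl
    intro s _
    apply Finset.sum_congr rfl
    intro w _
    simp only [chaos_violated, true_and]
  · intro e _ he
    apply Finset.sum_eq_zero
    intro s _
    apply Finset.sum_eq_zero
    intro w _
    simp [he]
  · intro h
    exact absurd (mem_univ _) h

/-- the weight of the walks with the value `ξ` at time `i` -/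
lemma chaos_weight {n k M L K : ℕ} {R : Type} [Fintype R] [DecidableEq R] (i τ : ℕ)
    (hi : i + 2 * (L + 1) ≤ τ) (hτ : τ ≤ K) (σ : Asg n) (ξ : R × Formula n k M) :
    (#{z : (R × Formula n k M) × (Fin K → Fin M → Fin (L + 1) × Pat k) |
        run moveR z.1 z.2 i = ξ ∧
          (numViolated σ (run moveR z.1 z.2 τ).2 : ℝ) ≤ M / 2 ^ k / 20} : ℝ) ≤
      (Fintype.card (Pat k × (Fin K → Fin (L + 1) × Pat k)) * (1 / 2 ^ k)) ^ M *
        Real.exp (-(49 / 100) * (M / 2 ^ k)) := by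
  set N : ℝ := (Fintype.card (Pat k × (Fin K → Fin (L + 1) × Pat k)) : ℝ) with hN
  set E : ℝ := M / 2 ^ k with hE
  have hE0 : 0 ≤ E := by positivity
  set g : Fin M → Clause n k × (Fin K → Fin (L + 1) × Pat k) → ℝ := fun j c =>
    if c.1.1 = (ξ.2 j).1 ∧ run move1 c.1.2 c.2 i = (ξ.2 j).2 then
        (if Violated σ (c.1.1, run move1 c.1.2 c.2 τ) then (1 / 4 : ℝ) else 1) else 0 with hg
  have hg0 : ∀ j c, 0 ≤ g j c := by
    intro j c
    simp only [hg]
    split_ifs <;> norm_num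
  -- pointwise
  have hpt : ∀ z : (R × Formula n k M) × (Fin K → Fin M → Fin (L + 1) × Pat k),
      (if run moveR z.1 z.2 i = ξ ∧
          (numViolated σ (run moveR z.1 z.2 τ).2 : ℝ) ≤ E / 20 then (1:ℝ) else 0) ≤
        if z.1.1 = ξ.1 then
          (4:ℝ) ^ (E / 20) * ∏ j, g j (z.1.2 j, fun u => z.2 u j) else 0 := by
    intro z
    by_cases h : run moveR z.1 z.2 i = ξ ∧
          (numViolated σ (run moveR z.1 z.2 τ).2 : ℝ) ≤ E / 20
    · rw [if_pos h]
      obtain ⟨h1, h2⟩ := h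
      rw [chaos_run] at h1 h2
      have h3 : z.1.1 = ξ.1 := by rw [← h1]
      rw [if_pos h3]
      have h4 : ∀ j, g j (z.1.2 j, fun u => z.2 u j) =
          if Violated σ ((z.1.2 j).1, run move1 (z.1.2 j).2 (fun u => z.2 u j) τ) then
            (1 / 4 : ℝ) else 1 := by
        intro j
        simp only [hg]
        rw [if_pos]
        rw [← h1]
        exact ⟨rfl, rfl⟩
      rw [Finset.prod_congr rfl (fun j _ => h4 j), Finset.prod_ite, Finset.prod_const,
        Finset.prod_const_one, mul_one]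
      have h5 : (#{j | Violated σ ((z.1.2 j).1,
          run move1 (z.1.2 j).2 (fun u => z.2 u j) τ)} : ℝ) ≤ E / 20 := h2
      set v : ℕ := #{j | Violated σ ((z.1.2 j).1,
          run move1 (z.1.2 j).2 (fun u => z.2 u j) τ)} with hv
      have h6 : (1 / 4 : ℝ) ^ v = (4:ℝ) ^ (-(v:ℝ)) := by
        rw [Real.rpow_neg (by norm_num), Real.rpow_natCast, one_div, inv_pow]
      rw [h6, ← Real.rpow_add (by norm_num)]
      apply Real.one_le_rpow (by norm_num)
      linarith
    · rw [if_neg h]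
      split_ifs
      · have : 0 ≤ ∏ j, g j (z.1.2 j, fun u => z.2 u j) :=
          Finset.prod_nonneg fun j _ => hg0 j _
        positivity
      · exact le_rfl
  have hsum : (#{z : (R × Formula n k M) × (Fin K → Fin M → Fin (L + 1) × Pat k) |
        run moveR z.1 z.2 i = ξ ∧
          (numViolated σ (run moveR z.1 z.2 τ).2 : ℝ) ≤ E / 20} : ℝ) ≤
      (4:ℝ) ^ (E / 20) * ∏ j, ∑ c : Clause n k × (Fin K → Fin (L + 1) × Pat k), g j c := by
    rw [← chaos_prod, Finset.card_filter]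
    push_cast
    refine (Finset.sum_le_sum fun z _ => hpt z).trans (le_of_eq ?_)
    rw [Fintype.sum_prod_type, Fintype.sum_prod_type, Finset.sum_eq_single ξ.1]
    · rw [Finset.mul_sum, Fintype.sum_prod_type]
      apply Finset.sum_congr rfl
      intro F _
      apply Finset.sum_congr rfl
      intro w _
      simp
    · intro r' _ hr'
      apply Finset.sum_eq_zero
      intro F _
      apply Finset.sum_eq_zero
      intro w _
      simp [hr']
    · intro h
      exact absurd (mem_univ _) h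
  refine hsum.trans ?_
  have hprod : ∏ j, ∑ c : Clause n k × (Fin K → Fin (L + 1) × Pat k), g j c ≤
      (N * (1 / 2 ^ k) * Real.exp (-(9 / 16) * (1 / 2 ^ k))) ^ M := by
    refine (Finset.prod_le_prod (fun j _ => Finset.sum_nonneg fun c _ => hg0 j c)
      (fun j _ => chaos_clause i τ hi hτ σ (ξ.2 j))).trans (le_of_eq ?_)
    rw [Finset.prod_const, Finset.card_univ, Fintype.card_fin]
  have h4le : (4:ℝ) ^ (E / 20) ≤ Real.exp (7 / 100 * E) := by
    rw [Real.rpow_def_of_pos (by norm_num)]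
    apply Real.exp_le_exp.2
    have hl : Real.log 4 ≤ 1.4 := by
      have : Real.log 4 = 2 * Real.log 2 := by
        rw [show (4:ℝ) = 2 ^ 2 by norm_num, Real.log_pow]; norm_num
      rw [this]
      have := Real.log_two_lt_d9
      linarith
    have : Real.log 4 * (E / 20) ≤ 1.4 * (E / 20) := by gcongr
    linarith
  calc (4:ℝ) ^ (E / 20) * ∏ j, ∑ c : Clause n k × (Fin K → Fin (L + 1) × Pat k), g j c
      ≤ Real.exp (7 / 100 * E) * (N * (1 / 2 ^ k) * Real.exp (-(9 / 16) * (1 / 2 ^ k))) ^ M := by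
        gcongr
    _ = (N * (1 / 2 ^ k)) ^ M * (Real.exp (7 / 100 * E) * Real.exp (-(9 / 16) * E)) := by
        rw [mul_pow, ← Real.exp_nat_mul]
        have : (M:ℝ) * (-(9 / 16) * (1 / 2 ^ k)) = -(9 / 16) * E := by rw [hE]; ring
        rw [this]
        ring
    _ ≤ (N * (1 / 2 ^ k)) ^ M * Real.exp (-(49 / 100) * E) := by
        rw [← Real.exp_add]
        gcongr
        linarith

theorem chaos {n k M L K : ℕ} (hk : k ≤ n) {R : Type} [Fintype R] [Nonempty R]
    (A : R → Formula n k M → Asg n) (i τ : ℕ) (hi : i + 2 * (L + 1) ≤ τ) (hτ : τ ≤ K)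
    (D B : ℝ) (hB : ∀ σ : Asg n, (#{σ' : Asg n | (hammingDist σ σ' : ℝ) ≤ D} : ℝ) ≤ B) :
    (#{z : (R × Formula n k M) × (Fin K → Fin M → Fin (L + 1) × Pat k) | ∃ σ' : Asg n,
        (hammingDist (A (run moveR z.1 z.2 i).1 (run moveR z.1 z.2 i).2) σ' : ℝ) ≤ D ∧
          (numViolated σ' (run moveR z.1 z.2 τ).2 : ℝ) ≤ M / 2 ^ k / 20} : ℝ) ≤
      Fintype.card ((R × Formula n k M) × (Fin K → Fin M → Fin (L + 1) × Pat k)) *
        (B * Real.exp (-(49 / 100) * (M / 2 ^ k))) := by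
  classical
  set N : ℝ := (Fintype.card (Pat k × (Fin K → Fin (L + 1) × Pat k)) : ℝ) with hN
  set c : ℝ := (N * (1 / 2 ^ k)) ^ M * Real.exp (-(49 / 100) * (M / 2 ^ k)) with hc
  have hc0 : 0 ≤ c := by positivity
  have hunion : (#{z : (R × Formula n k M) × (Fin K → Fin M → Fin (L + 1) × Pat k) |
        ∃ σ' : Asg n,
        (hammingDist (A (run moveR z.1 z.2 i).1 (run moveR z.1 z.2 i).2) σ' : ℝ) ≤ D ∧
          (numViolated σ' (run moveR z.1 z.2 τ).2 : ℝ) ≤ M / 2 ^ k / 20} : ℝ) ≤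
      ∑ ξ : R × Formula n k M,
        ∑ σ' ∈ ({σ' : Asg n | (hammingDist (A ξ.1 ξ.2) σ' : ℝ) ≤ D} : Finset (Asg n)),
          (#{z : (R × Formula n k M) × (Fin K → Fin M → Fin (L + 1) × Pat k) |
            run moveR z.1 z.2 i = ξ ∧
              (numViolated σ' (run moveR z.1 z.2 τ).2 : ℝ) ≤ M / 2 ^ k / 20} : ℝ) := by
    have hsub : ({z : (R × Formula n k M) × (Fin K → Fin M → Fin (L + 1) × Pat k) |
        ∃ σ' : Asg n,
        (hammingDist (A (run moveR z.1 z.2 i).1 (run moveR z.1 z.2 i).2) σ' : ℝ) ≤ D ∧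
          (numViolated σ' (run moveR z.1 z.2 τ).2 : ℝ) ≤ M / 2 ^ k / 20} : Finset _) ⊆
      (univ : Finset (R × Formula n k M)).biUnion fun ξ =>
        ({σ' : Asg n | (hammingDist (A ξ.1 ξ.2) σ' : ℝ) ≤ D} : Finset (Asg n)).biUnion fun σ' =>
          ({z : (R × Formula n k M) × (Fin K → Fin M → Fin (L + 1) × Pat k) |
            run moveR z.1 z.2 i = ξ ∧
              (numViolated σ' (run moveR z.1 z.2 τ).2 : ℝ) ≤ M / 2 ^ k / 20} : Finset _) := by
      intro z hz
      simp only [mem_filter, mem_univ, true_and] at hz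
      obtain ⟨σ', h1, h2⟩ := hz
      simp only [mem_biUnion, mem_filter, mem_univ, true_and]
      exact ⟨run moveR z.1 z.2 i, σ', h1, rfl, h2⟩
    have h1 := Finset.card_le_card hsub
    have h2 := h1.trans (Finset.card_biUnion_le.trans (Finset.sum_le_sum fun ξ _ =>
      Finset.card_biUnion_le))
    exact_mod_cast h2
  refine hunion.trans ?_
  calc ∑ ξ : R × Formula n k M,
        ∑ σ' ∈ ({σ' : Asg n | (hammingDist (A ξ.1 ξ.2) σ' : ℝ) ≤ D} : Finset (Asg n)),
          (#{z : (R × Formula n k M) × (Fin K → Fin M → Fin (L + 1) × Pat k) |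
            run moveR z.1 z.2 i = ξ ∧
              (numViolated σ' (run moveR z.1 z.2 τ).2 : ℝ) ≤ M / 2 ^ k / 20} : ℝ)
      ≤ ∑ ξ : R × Formula n k M,
        ∑ σ' ∈ ({σ' : Asg n | (hammingDist (A ξ.1 ξ.2) σ' : ℝ) ≤ D} : Finset (Asg n)), c := by
        apply Finset.sum_le_sum
        intro ξ _
        apply Finset.sum_le_sum
        intro σ' _
        exact chaos_weight i τ hi hτ σ' ξ
    _ ≤ ∑ ξ : R × Formula n k M, B * c := by
        apply Finset.sum_le_sum
        intro ξ _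
        rw [Finset.sum_const, nsmul_eq_mul]
        exact mul_le_mul_of_nonneg_right (hB _) hc0
    _ = Fintype.card ((R × Formula n k M) × (Fin K → Fin M → Fin (L + 1) × Pat k)) *
        (B * Real.exp (-(49 / 100) * (M / 2 ^ k))) := by
        rw [Finset.sum_const, Finset.card_univ, nsmul_eq_mul, hc, hN]
        simp only [Fintype.card_prod, Fintype.card_fun, Fintype.card_fin, Fintype.card_bool]
        push_cast
        have h2k : (2:ℝ) ^ k ≠ 0 := by positivity
        have e1 : ((2:ℝ) ^ k * (((L:ℝ) + 1) * 2 ^ k) ^ K * (1 / 2 ^ k)) =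
            (((L:ℝ) + 1) * 2 ^ k) ^ K := by
          field_simp
        rw [e1, ← pow_mul, ← pow_mul, mul_comm K M]
        ring

end Pool.Agent.KS
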