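import Pool.Agent.Lib.MP_f017c9_lc.ChainJ

/-!
# After many steps no solution is close to the old output (general label sets)
-/

namespace Pool.Agent.KS

open Finset

/-- componentwise form of the walk -/
theorem ChaosJ_run {n k M r K : ℕ} {R : Type} (J₀ : Finset (Fin r)) (x : R × Formula n k M)
    (w : Fin K → Fin M → Fin r × Pat k) (t : ℕ) :
    run (moveJR J₀) x w t =
      (x.1, fun j => ((x.2 j).1, run (moveJ1 J₀) (x.2 j).2 (fun s => w s j) t)) := by
  induction t with
  | zero => rfl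
  | succ t ih =>
    simp only [run]
    by_cases h : t < K
    · simp only [h, dif_pos]
      rw [ih]
      rfl
    · simp only [h, dif_neg, not_false_eq_true]
      exact ih

theorem ChaosJ_viol {n k : ℕ} (σ : Asg n) (e : Fin k ↪ Fin n) (b : Pat k) :
    Violated σ (e, b) ↔ b = fun i => !(σ (e i)) := by
  unfold Violated
  constructor
  · intro h
    funext i
    have := h i
    simp only at this
    cases h1 : σ (e i) <;> cases h2 : b i <;> simp_all
  · rintro rfl i
    simp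

theorem ChaosJ_gamma {r : ℕ} (J₀ : Finset (Fin r)) (hJ : J₀.Nonempty) (m : ℕ) (hm : 2 * r ≤ m) :
    (1 - (J₀.card : ℝ) / r) ^ m ≤ 1 / 4 := by
  have hr : 0 < r := by
    obtain ⟨i, _⟩ := hJ
    exact i.pos
  have hr' : (0 : ℝ) < r := by exact_mod_cast hr
  have h1 : (1 : ℝ) ≤ J₀.card := by exact_mod_cast hJ.card_pos
  have h2 : (J₀.card : ℝ) ≤ r := by
    have := Finset.card_le_univ J₀
    rw [Fintype.card_fin] at this
    exact_mod_cast this
  have h3 : 0 ≤ 1 - (J₀.card : ℝ) / r := by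
    have : (J₀.card : ℝ) / r ≤ 1 := (div_le_one hr').mpr h2
    linarith
  have h4 : 1 - (J₀.card : ℝ) / r ≤ Real.exp (-(1 / r)) := by
    have h5 : 1 / (r : ℝ) ≤ (J₀.card : ℝ) / r := by gcongr
    have h6 := Real.add_one_le_exp (-(1 / (r : ℝ)))
    linarith
  calc (1 - (J₀.card : ℝ) / r) ^ m ≤ (Real.exp (-(1 / r))) ^ m := pow_le_pow_left₀ h3 h4 m
    _ = Real.exp (m * (-(1 / r))) := by rw [Real.exp_nat_mul]
    _ ≤ Real.exp (-2) := by
        apply Real.exp_le_exp.mpr
        have h7 : (2 : ℝ) * r ≤ m := by exact_mod_cast hm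
        have h8 : (2 : ℝ) ≤ m * (1 / r) := by
          rw [mul_one_div, le_div_iff₀ hr']
          exact h7
        linarith
    _ ≤ 1 / 4 := by
        have h9 := Real.add_one_le_exp (1 : ℝ)
        have h10 : Real.exp 2 = Real.exp 1 * Real.exp 1 := by rw [← Real.exp_add]; norm_num
        have h11 : (4 : ℝ) ≤ Real.exp 2 := by rw [h10]; nlinarith
        rw [Real.exp_neg, one_div]
        exact inv_anti₀ (by norm_num) h11

theorem ChaosJ_one {k r K : ℕ} (J₀ : Finset (Fin r)) (hJ : J₀.Nonempty) (i τ : ℕ)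
    (hi : i + 2 * r ≤ τ) (hτ : τ ≤ K) (a b : Pat k) :
    ∑ z : Pat k × (Fin K → Fin r × Pat k),
      (if run (moveJ1 J₀) z.1 z.2 i = a then
        (if run (moveJ1 J₀) z.1 z.2 τ = b then (1 / 4 : ℝ) else 1) else 0) ≤
      Fintype.card (Pat k × (Fin K → Fin r × Pat k)) * (1 / 2 ^ k) *
        Real.exp (-(9 / 16) * (1 / 2 ^ k)) := by
  have hr : 1 ≤ r := by
    obtain ⟨i, _⟩ := hJ
    exact i.pos
  set N : ℝ := ((Fintype.card (Pat k × (Fin K → Fin r × Pat k)) : ℕ) : ℝ) with hN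
  have hN0 : 0 ≤ N := by positivity
  have e1 := chain_pairJ k r K i i hr J₀ le_rfl (by omega) a a
  have e2 := chain_pairJ k r K i τ hr J₀ (by omega) hτ a b
  have e1' : (#{z : Pat k × (Fin K → Fin r × Pat k) |
        run (moveJ1 J₀) z.1 z.2 i = a ∧ run (moveJ1 J₀) z.1 z.2 i = a} : ℝ) =
      N * (1 / 2 ^ k) := by
    rw [e1, ← hN, Nat.sub_self, pow_zero, if_pos rfl]
    ring
  have hγ := ChaosJ_gamma J₀ hJ (τ - i) (by omega)
  have hγ0 : 0 ≤ (1 - (J₀.card : ℝ) / r) ^ (τ - i) := by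
    apply pow_nonneg
    have hr' : (0 : ℝ) < r := by exact_mod_cast hr
    have h2 : (J₀.card : ℝ) ≤ r := by
      have := Finset.card_le_univ J₀
      rw [Fintype.card_fin] at this
      exact_mod_cast this
    have : (J₀.card : ℝ) / r ≤ 1 := (div_le_one hr').mpr h2
    linarith
  set γ : ℝ := (1 - (J₀.card : ℝ) / r) ^ (τ - i) with hγdef
  have hp : (0 : ℝ) < 1 / 2 ^ k := by positivity
  set p : ℝ := 1 / 2 ^ k with hpdef
  have e2' : N * p * ((3 / 4) * p) ≤ (#{z : Pat k × (Fin K → Fin r × Pat k) |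
        run (moveJ1 J₀) z.1 z.2 i = a ∧ run (moveJ1 J₀) z.1 z.2 τ = b} : ℝ) := by
    rw [e2]
    apply mul_le_mul_of_nonneg_left _ (by positivity)
    have h1 : 0 ≤ γ * (if a = b then (1 : ℝ) else 0) := by
      apply mul_nonneg hγ0
      split_ifs <;> norm_num
    have h2 : 3 / 4 * p ≤ (1 - γ) * p := mul_le_mul_of_nonneg_right (by linarith) hp.le
    linarith
  have hsum : ∑ z : Pat k × (Fin K → Fin r × Pat k),
      (if run (moveJ1 J₀) z.1 z.2 i = a then
        (if run (moveJ1 J₀) z.1 z.2 τ = b then (1 / 4 : ℝ) else 1) else 0) =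
      (#{z : Pat k × (Fin K → Fin r × Pat k) |
        run (moveJ1 J₀) z.1 z.2 i = a ∧ run (moveJ1 J₀) z.1 z.2 i = a} : ℝ) -
      3 / 4 * (#{z : Pat k × (Fin K → Fin r × Pat k) |
        run (moveJ1 J₀) z.1 z.2 i = a ∧ run (moveJ1 J₀) z.1 z.2 τ = b} : ℝ) := by
    rw [Finset.natCast_card_filter, Finset.natCast_card_filter, Finset.mul_sum,
      ← Finset.sum_sub_distrib]
    refine Finset.sum_congr rfl fun z _ => ?_
    by_cases h1 : run (moveJ1 J₀) z.1 z.2 i = a <;>
      by_cases h2 : run (moveJ1 J₀) z.1 z.2 τ = b <;> simp [h1, h2]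
    norm_num
  rw [hsum, e1']
  have hexp : 1 - 9 / 16 * p ≤ Real.exp (-(9 / 16) * p) := by
    have := Real.add_one_le_exp (-(9 / 16) * p)
    linarith
  calc N * p - 3 / 4 * _ ≤ N * p - 3 / 4 * (N * p * (3 / 4 * p)) := by linarith
    _ = N * p * (1 - 9 / 16 * p) := by ring
    _ ≤ N * p * Real.exp (-(9 / 16) * p) := mul_le_mul_of_nonneg_left hexp (by positivity)

/-- regrouping: (seed, formula), walk of the formula = (seed, variables), walks of the clauses -/
def ChaosJ_equiv (R : Type) (n k M r K : ℕ) :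
    ((R × Formula n k M) × (Fin K → Fin M → Fin r × Pat k)) ≃
      ((R × (Fin M → (Fin k ↪ Fin n))) × (Fin M → Pat k × (Fin K → Fin r × Pat k))) where
  toFun z := ((z.1.1, fun j => (z.1.2 j).1), fun j => ((z.1.2 j).2, fun t => z.2 t j))
  invFun y := ((y.1.1, fun j => (y.1.2 j, (y.2 j).1)), fun t j => (y.2 j).2 t)
  left_inv _ := rfl
  right_inv _ := rfl

theorem ChaosJ_fix {n k M r K : ℕ} (J₀ : Finset (Fin r)) (hJ : J₀.Nonempty)
    (e : Fin M → (Fin k ↪ Fin n)) (f : (Fin M → Pat k) → Asg n) (i τ : ℕ)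
    (hi : i + 2 * r ≤ τ) (hτ : τ ≤ K)
    (D B : ℝ) (hB : ∀ σ : Asg n, (#{σ' : Asg n | (hammingDist σ σ' : ℝ) ≤ D} : ℝ) ≤ B) :
    (#{y : Fin M → Pat k × (Fin K → Fin r × Pat k) | ∃ σ' : Asg n,
        (hammingDist (f (fun j => run (moveJ1 J₀) (y j).1 (y j).2 i)) σ' : ℝ) ≤ D ∧
          (#{j | Violated σ' (e j, run (moveJ1 J₀) (y j).1 (y j).2 τ)} : ℝ) ≤
            M / 2 ^ k / 20} : ℝ) ≤
      Fintype.card (Fin M → Pat k × (Fin K → Fin r × Pat k)) *
        (B * Real.exp (-(49 / 100) * (M / 2 ^ k))) := by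
  classical
  set N : ℝ := ((Fintype.card (Pat k × (Fin K → Fin r × Pat k)) : ℕ) : ℝ) with hN
  have hN0 : 0 ≤ N := by positivity
  have hB0 : 0 ≤ B := le_trans (by positivity) (hB (fun _ => true))
  set E : ℝ := M / 2 ^ k with hE
  have hE0 : 0 ≤ E := by positivity
  set c : ℝ := Real.exp (Real.log 4 * (E / 20)) with hc
  set g : Asg n → Fin M → Pat k → ℝ := fun σ' j b =>
    if b = (fun x => !(σ' (e j x))) then 1 / 4 else 1 with hg
  have hg0 : ∀ σ' j b, 0 ≤ g σ' j b := by
    intro σ' j b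
    simp only [hg]
    split_ifs <;> norm_num
  -- the weight is at least one for a solution
  have hweight : ∀ (σ' : Asg n) (b : Fin M → Pat k),
      (#{j | Violated σ' (e j, b j)} : ℝ) ≤ E / 20 → 1 ≤ c * ∏ j, g σ' j (b j) := by
    intro σ' b h
    have h1 : ∏ j, g σ' j (b j) = (1 / 4 : ℝ) ^ (#{j | Violated σ' (e j, b j)}) := by
      rw [← Finset.prod_const, Finset.prod_filter]
      refine Finset.prod_congr rfl fun j _ => ?_
      simp only [hg]
      by_cases hv : Violated σ' (e j, b j)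
      · rw [if_pos hv, if_pos ((ChaosJ_viol σ' (e j) (b j)).mp hv)]
      · rw [if_neg hv, if_neg (fun h => hv ((ChaosJ_viol σ' (e j) (b j)).mpr h))]
    rw [h1]
    have h2 : (1 / 4 : ℝ) ^ (#{j | Violated σ' (e j, b j)}) =
        Real.exp (-(Real.log 4 * (#{j | Violated σ' (e j, b j)} : ℝ))) := by
      have h4 : (1 / 4 : ℝ) = Real.exp (-Real.log 4) := by
        rw [Real.exp_neg, Real.exp_log (by norm_num)]
        norm_num
      rw [h4, ← Real.exp_nat_mul]
      congr 1
      ring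
    rw [h2, hc, ← Real.exp_add]
    have h3 : 0 ≤ Real.log 4 := Real.log_nonneg (by norm_num)
    have h5 : Real.log 4 * (#{j | Violated σ' (e j, b j)} : ℝ) ≤ Real.log 4 * (E / 20) :=
      mul_le_mul_of_nonneg_left h h3
    have := Real.add_one_le_exp
      (Real.log 4 * (E / 20) + -(Real.log 4 * (#{j | Violated σ' (e j, b j)} : ℝ)))
    linarith
  -- pointwise bound of the indicator
  have hpt : ∀ y : Fin M → Pat k × (Fin K → Fin r × Pat k),
      (if ∃ σ' : Asg n,
        (hammingDist (f (fun j => run (moveJ1 J₀) (y j).1 (y j).2 i)) σ' : ℝ) ≤ D ∧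
          (#{j | Violated σ' (e j, run (moveJ1 J₀) (y j).1 (y j).2 τ)} : ℝ) ≤
            E / 20 then (1 : ℝ) else 0) ≤
      ∑ a : Fin M → Pat k, ∑ σ' : Asg n,
        (if (hammingDist (f a) σ' : ℝ) ≤ D then (1 : ℝ) else 0) *
          (c * ∏ j, (if run (moveJ1 J₀) (y j).1 (y j).2 i = a j then
            g σ' j (run (moveJ1 J₀) (y j).1 (y j).2 τ) else 0)) := by
    intro y
    have hterm : ∀ (a : Fin M → Pat k) (σ' : Asg n), 0 ≤
        (if (hammingDist (f a) σ' : ℝ) ≤ D then (1 : ℝ) else 0) *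
          (c * ∏ j, (if run (moveJ1 J₀) (y j).1 (y j).2 i = a j then
            g σ' j (run (moveJ1 J₀) (y j).1 (y j).2 τ) else 0)) := by
      intro a σ'
      apply mul_nonneg
      · split_ifs <;> norm_num
      · apply mul_nonneg (Real.exp_nonneg _)
        apply Finset.prod_nonneg
        intro j _
        split_ifs
        · exact hg0 _ _ _
        · exact le_rfl
    split_ifs with h
    · obtain ⟨σ', h1, h2⟩ := h
      refine le_trans ?_ (Finset.single_le_sum
        (f := fun a : Fin M → Pat k => ∑ σ' : Asg n,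
          (if (hammingDist (f a) σ' : ℝ) ≤ D then (1 : ℝ) else 0) *
          (c * ∏ j, (if run (moveJ1 J₀) (y j).1 (y j).2 i = a j then
            g σ' j (run (moveJ1 J₀) (y j).1 (y j).2 τ) else 0)))
        (fun a _ => Finset.sum_nonneg fun σ' _ => hterm a σ')
        (Finset.mem_univ (fun j => run (moveJ1 J₀) (y j).1 (y j).2 i)))
      refine le_trans ?_ (Finset.single_le_sum
        (f := fun σ' : Asg n =>
          (if (hammingDist (f (fun j => run (moveJ1 J₀) (y j).1 (y j).2 i)) σ' : ℝ) ≤ D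
            then (1 : ℝ) else 0) *
          (c * ∏ j, (if run (moveJ1 J₀) (y j).1 (y j).2 i =
            (fun j => run (moveJ1 J₀) (y j).1 (y j).2 i) j then
            g σ' j (run (moveJ1 J₀) (y j).1 (y j).2 τ) else 0)))
        (fun σ' _ => hterm _ σ') (Finset.mem_univ σ'))
      simp only [if_pos h1, one_mul, if_true]
      exact hweight σ' _ h2
    · exact Finset.sum_nonneg fun a _ => Finset.sum_nonneg fun σ' _ => hterm a σ'
  rw [Finset.natCast_card_filter]
  refine (Finset.sum_le_sum fun y _ => hpt y).trans ?_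
  rw [Finset.sum_comm]
  -- bound for fixed `a`
  set q : ℝ := N * (1 / 2 ^ k) * Real.exp (-(9 / 16) * (1 / 2 ^ k)) with hq
  have hq0 : 0 ≤ q := by positivity
  have hinner : ∀ (a : Fin M → Pat k) (σ' : Asg n),
      ∑ y : Fin M → Pat k × (Fin K → Fin r × Pat k),
        (if (hammingDist (f a) σ' : ℝ) ≤ D then (1 : ℝ) else 0) *
          (c * ∏ j, (if run (moveJ1 J₀) (y j).1 (y j).2 i = a j then
            g σ' j (run (moveJ1 J₀) (y j).1 (y j).2 τ) else 0)) ≤
      (if (hammingDist (f a) σ' : ℝ) ≤ D then (1 : ℝ) else 0) * (c * q ^ M) := by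
    intro a σ'
    rw [← Finset.mul_sum, ← Finset.mul_sum]
    apply mul_le_mul_of_nonneg_left _ (by split_ifs <;> norm_num)
    apply mul_le_mul_of_nonneg_left _ (Real.exp_nonneg _)
    have h1 := Finset.prod_univ_sum (fun _ : Fin M => (Finset.univ : Finset
      (Pat k × (Fin K → Fin r × Pat k)))) (fun j z =>
        (if run (moveJ1 J₀) z.1 z.2 i = a j then
            g σ' j (run (moveJ1 J₀) z.1 z.2 τ) else (0 : ℝ)))
    rw [Fintype.piFinset_univ] at h1
    rw [← h1]
    calc _ ≤ ∏ _j : Fin M, q := by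
          apply Finset.prod_le_prod
          · intro j _
            apply Finset.sum_nonneg
            intro z _
            split_ifs
            · exact hg0 _ _ _
            · exact le_rfl
          · intro j _
            exact ChaosJ_one J₀ hJ i τ hi hτ (a j) (fun x => !(σ' (e j x)))
      _ = q ^ M := by rw [Finset.prod_const, Finset.card_univ, Fintype.card_fin]
  have hball : ∀ a : Fin M → Pat k,
      ∑ y : Fin M → Pat k × (Fin K → Fin r × Pat k), ∑ σ' : Asg n,
        (if (hammingDist (f a) σ' : ℝ) ≤ D then (1 : ℝ) else 0) *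
          (c * ∏ j, (if run (moveJ1 J₀) (y j).1 (y j).2 i = a j then
            g σ' j (run (moveJ1 J₀) (y j).1 (y j).2 τ) else 0)) ≤ B * (c * q ^ M) := by
    intro a
    rw [Finset.sum_comm]
    refine (Finset.sum_le_sum fun σ' _ => hinner a σ').trans ?_
    rw [← Finset.sum_mul, ← Finset.natCast_card_filter]
    exact mul_le_mul_of_nonneg_right (hB (f a)) (by positivity)
  refine (Finset.sum_le_sum fun a _ => hball a).trans ?_
  rw [Finset.sum_const, Finset.card_univ, nsmul_eq_mul]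
  have hcard1 : ((Fintype.card (Fin M → Pat k) : ℕ) : ℝ) = ((2 : ℝ) ^ k) ^ M := by
    simp
  have hcard2 : ((Fintype.card (Fin M → Pat k × (Fin K → Fin r × Pat k)) : ℕ) : ℝ) = N ^ M := by
    rw [Fintype.card_fun, Fintype.card_fin, hN]
    push_cast
    rfl
  rw [hcard1, hcard2]
  have h2k : (0 : ℝ) < 2 ^ k := by positivity
  have hqM : ((2 : ℝ) ^ k) ^ M * q ^ M = N ^ M * Real.exp (-(9 / 16) * E) := by
    rw [← mul_pow, hq]
    have : (2 : ℝ) ^ k * (N * (1 / 2 ^ k) * Real.exp (-(9 / 16) * (1 / 2 ^ k))) =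
        N * Real.exp (-(9 / 16) * (1 / 2 ^ k)) := by
      field_simp
    rw [this, mul_pow, ← Real.exp_nat_mul]
    congr 2
    rw [hE]
    ring
  have hexp : c * Real.exp (-(9 / 16) * E) ≤ Real.exp (-(49 / 100) * E) := by
    rw [hc, ← Real.exp_add]
    apply Real.exp_le_exp.mpr
    have hl : Real.log 4 = 2 * Real.log 2 := by
      rw [show (4 : ℝ) = 2 ^ 2 by norm_num, Real.log_pow]
      norm_num
    have hl2 := Real.log_two_lt_d9
    rw [hl]
    nlinarith
  calc ((2 : ℝ) ^ k) ^ M * (B * (c * q ^ M)) = B * c * (((2 : ℝ) ^ k) ^ M * q ^ M) := by ring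
    _ = N ^ M * (B * (c * Real.exp (-(9 / 16) * E))) := by rw [hqM]; ring
    _ ≤ N ^ M * (B * Real.exp (-(49 / 100) * E)) := by gcongr

theorem chaosJ {n k M r K : ℕ} (hk : k ≤ n) (J₀ : Finset (Fin r)) (hJ : J₀.Nonempty)
    {R : Type} [Fintype R] [Nonempty R]
    (A : R → Formula n k M → Asg n) (i τ : ℕ) (hi : i + 2 * r ≤ τ) (hτ : τ ≤ K)
    (D B : ℝ) (hB : ∀ σ : Asg n, (#{σ' : Asg n | (hammingDist σ σ' : ℝ) ≤ D} : ℝ) ≤ B) :
    (#{z : (R × Formula n k M) × (Fin K → Fin M → Fin r × Pat k) | ∃ σ' : Asg n,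
        (hammingDist (A (run (moveJR J₀) z.1 z.2 i).1 (run (moveJR J₀) z.1 z.2 i).2) σ' : ℝ) ≤
            D ∧
          (numViolated σ' (run (moveJR J₀) z.1 z.2 τ).2 : ℝ) ≤ M / 2 ^ k / 20} : ℝ) ≤
      Fintype.card ((R × Formula n k M) × (Fin K → Fin M → Fin r × Pat k)) *
        (B * Real.exp (-(49 / 100) * (M / 2 ^ k))) := by
  classical
  have hcard : #{z : (R × Formula n k M) × (Fin K → Fin M → Fin r × Pat k) | ∃ σ' : Asg n,
        (hammingDist (A (run (moveJR J₀) z.1 z.2 i).1 (run (moveJR J₀) z.1 z.2 i).2) σ' : ℝ) ≤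
            D ∧
          (numViolated σ' (run (moveJR J₀) z.1 z.2 τ).2 : ℝ) ≤ M / 2 ^ k / 20} =
      #{y : (R × (Fin M → (Fin k ↪ Fin n))) × (Fin M → Pat k × (Fin K → Fin r × Pat k)) |
        ∃ σ' : Asg n, (hammingDist (A y.1.1 (fun j => (y.1.2 j,
          run (moveJ1 J₀) (y.2 j).1 (y.2 j).2 i))) σ' : ℝ) ≤ D ∧
          (#{j | Violated σ' (y.1.2 j, run (moveJ1 J₀) (y.2 j).1 (y.2 j).2 τ)} : ℝ) ≤
            M / 2 ^ k / 20} := by
    refine Finset.card_equiv (ChaosJ_equiv R n k M r K) fun z => ?_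
    simp only [Finset.mem_filter, Finset.mem_univ, true_and, ChaosJ_run]
    rfl
  rw [hcard, Finset.natCast_card_filter, Fintype.sum_prod_type]
  have hfix : ∀ x : R × (Fin M → (Fin k ↪ Fin n)),
      ∑ y : Fin M → Pat k × (Fin K → Fin r × Pat k),
        (if ∃ σ' : Asg n, (hammingDist (A x.1 (fun j => (x.2 j,
          run (moveJ1 J₀) (y j).1 (y j).2 i))) σ' : ℝ) ≤ D ∧
          (#{j | Violated σ' (x.2 j, run (moveJ1 J₀) (y j).1 (y j).2 τ)} : ℝ) ≤
            M / 2 ^ k / 20 then (1 : ℝ) else 0) ≤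
      Fintype.card (Fin M → Pat k × (Fin K → Fin r × Pat k)) *
        (B * Real.exp (-(49 / 100) * (M / 2 ^ k))) := by
    intro x
    have := ChaosJ_fix (K := K) J₀ hJ x.2 (fun a => A x.1 (fun j => (x.2 j, a j))) i τ hi hτ D B hB
    rw [Finset.natCast_card_filter] at this
    exact this
  refine (Finset.sum_le_sum fun x _ => hfix x).trans ?_
  rw [Finset.sum_const, Finset.card_univ, nsmul_eq_mul]
  have hc : Fintype.card ((R × Formula n k M) × (Fin K → Fin M → Fin r × Pat k)) =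
      Fintype.card (R × (Fin M → (Fin k ↪ Fin n))) *
        Fintype.card (Fin M → Pat k × (Fin K → Fin r × Pat k)) := by
    rw [Fintype.card_congr (ChaosJ_equiv R n k M r K), Fintype.card_prod]
  rw [hc]
  push_cast
  rw [mul_assoc]

end Pool.Agent.KS
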