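import Pool.Agent.Lib.MP_f017c9_lc.Run

/-!
# Hamming balls and chains of close points
-/

namespace Pool.Agent.KS

open Finset

theorem Count.pow_dist {n : ℕ} (σ σ' : Asg n) (lam : ℝ) :
    (∏ i, if σ i ≠ σ' i then lam else 1) = lam ^ hammingDist σ σ' := by
  rw [Finset.prod_ite]
  simp [hammingDist]

theorem Count.sum_pow_dist {n : ℕ} (σ : Asg n) (lam : ℝ) :
    ∑ σ' : Asg n, lam ^ hammingDist σ σ' = (1 + lam) ^ n := by
  have h := Finset.prod_univ_sum (fun _ : Fin n => (Finset.univ : Finset Bool))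
    (fun i b => if σ i ≠ b then lam else (1 : ℝ))
  rw [Fintype.piFinset_univ] at h
  rw [Finset.sum_congr rfl (fun σ' _ => (Count.pow_dist σ σ' lam).symm), ← h]
  have h2 : ∀ i : Fin n, ∑ b : Bool, (if σ i ≠ b then lam else (1 : ℝ)) = 1 + lam := by
    intro i
    cases hb : σ i <;> simp [add_comm]
  rw [Finset.prod_congr rfl (fun i _ => h2 i)]
  simp

theorem ball_bound {n : ℕ} (σ : Asg n) (r lam : ℝ) (hr : 0 ≤ r) (hl : 0 < lam) (hl1 : lam ≤ 1) :
    (#{σ' : Asg n | (hammingDist σ σ' : ℝ) ≤ r} : ℝ) ≤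
      Real.exp (r * Real.log (1 / lam) + lam * n) := by
  have hlog : Real.log lam ≤ 0 := Real.log_nonpos hl.le hl1
  have h1 : ∀ σ' ∈ ({σ' : Asg n | (hammingDist σ σ' : ℝ) ≤ r} : Finset (Asg n)),
      Real.exp (r * Real.log lam) ≤ lam ^ hammingDist σ σ' := by
    intro σ' hσ'
    rw [Finset.mem_filter] at hσ'
    have : lam ^ hammingDist σ σ' = Real.exp (hammingDist σ σ' * Real.log lam) := by
      rw [Real.exp_nat_mul, Real.exp_log hl]
    rw [this]
    apply Real.exp_le_exp.mpr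
    nlinarith [hσ'.2]
  have h2 : (#{σ' : Asg n | (hammingDist σ σ' : ℝ) ≤ r} : ℝ) * Real.exp (r * Real.log lam)
      ≤ (1 + lam) ^ n := by
    calc (#{σ' : Asg n | (hammingDist σ σ' : ℝ) ≤ r} : ℝ) * Real.exp (r * Real.log lam)
        = ∑ σ' ∈ ({σ' : Asg n | (hammingDist σ σ' : ℝ) ≤ r} : Finset (Asg n)),
            Real.exp (r * Real.log lam) := by
          rw [Finset.sum_const, nsmul_eq_mul]
      _ ≤ ∑ σ' ∈ ({σ' : Asg n | (hammingDist σ σ' : ℝ) ≤ r} : Finset (Asg n)),
            lam ^ hammingDist σ σ' := Finset.sum_le_sum h1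
      _ ≤ ∑ σ' : Asg n, lam ^ hammingDist σ σ' :=
          Finset.sum_le_sum_of_subset_of_nonneg (Finset.subset_univ _)
            (fun _ _ _ => pow_nonneg hl.le _)
      _ = (1 + lam) ^ n := Count.sum_pow_dist σ lam
  have h3 : (1 + lam) ^ n ≤ Real.exp (lam * n) := by
    have : 1 + lam ≤ Real.exp lam := by linarith [Real.add_one_le_exp lam]
    calc (1 + lam) ^ n ≤ (Real.exp lam) ^ n := pow_le_pow_left₀ (by linarith) this n
      _ = Real.exp (lam * n) := by rw [← Real.exp_nat_mul, mul_comm]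
  have h4 : Real.exp (r * Real.log (1 / lam) + lam * n) =
      Real.exp (lam * n) / Real.exp (r * Real.log lam) := by
    rw [← Real.exp_sub, one_div, Real.log_inv]
    congr 1; ring
  rw [h4, le_div_iff₀ (Real.exp_pos _)]
  exact h2.trans h3

theorem Count.step {n : ℕ} (m : ℕ) (r B : ℝ)
    (hB : ∀ σ : Asg n, (#{σ' : Asg n | (hammingDist σ σ' : ℝ) ≤ r} : ℝ) ≤ B) :
    (#{σ : Fin (m + 1 + 1) → Asg n |
        ∀ l, l ≠ 0 → ∃ i < l, (hammingDist (σ i) (σ l) : ℝ) ≤ r} : ℝ) ≤
    (#{σ : Fin (m + 1) → Asg n |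
        ∀ l, l ≠ 0 → ∃ i < l, (hammingDist (σ i) (σ l) : ℝ) ≤ r} : ℝ) * ((m + 1) * B) := by
  classical
  set S : Finset (Fin (m + 1 + 1) → Asg n) := {σ : Fin (m + 1 + 1) → Asg n |
        ∀ l, l ≠ 0 → ∃ i < l, (hammingDist (σ i) (σ l) : ℝ) ≤ r} with hS
  set T : Finset (Fin (m + 1) → Asg n) := {σ : Fin (m + 1) → Asg n |
        ∀ l, l ≠ 0 → ∃ i < l, (hammingDist (σ i) (σ l) : ℝ) ≤ r} with hT
  have hmap : ∀ σ ∈ S, Fin.init σ ∈ T := by
    intro σ hσ
    rw [hS, Finset.mem_filter] at hσ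
    rw [hT, Finset.mem_filter]
    refine ⟨Finset.mem_univ _, fun l hl => ?_⟩
    have hl' : Fin.castSucc l ≠ 0 := by
      intro h
      apply hl
      apply Fin.ext
      have := congrArg Fin.val h
      simpa using this
    obtain ⟨i, hi, hd⟩ := hσ.2 (Fin.castSucc l) hl'
    have hil : i.val < l.val := by
      have := Fin.lt_def.mp hi
      simpa using this
    refine ⟨⟨i.val, by omega⟩, Fin.lt_def.mpr hil, ?_⟩
    have : Fin.castSucc (⟨i.val, by omega⟩ : Fin (m + 1)) = i := by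
      apply Fin.ext; rfl
    simp only [Fin.init]
    rw [this]
    exact hd
  have hcard := Finset.card_eq_sum_card_fiberwise hmap
  have hfib : ∀ τ ∈ T, (#{a ∈ S | Fin.init a = τ} : ℝ) ≤ (m + 1) * B := by
    intro τ _
    have h1 : #{a ∈ S | Fin.init a = τ} ≤
        #((Finset.univ : Finset (Fin (m + 1))).biUnion
          (fun i => ({σ' : Asg n | (hammingDist (τ i) σ' : ℝ) ≤ r} : Finset (Asg n)))) := by
      apply Finset.card_le_card_of_injOn (fun a => a (Fin.last (m + 1)))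
      · intro a ha
        have ha' : a ∈ S ∧ Fin.init a = τ := by simpa using ha
        obtain ⟨haS, hinit⟩ := ha'
        rw [hS, Finset.mem_filter] at haS
        obtain ⟨i, hi, hd⟩ := haS.2 (Fin.last (m + 1)) (by
          intro h
          have := congrArg Fin.val h
          simp at this)
        have hil : i.val < m + 1 := by
          have := Fin.lt_def.mp hi
          simpa using this
        rw [Finset.mem_coe, Finset.mem_biUnion]
        refine ⟨⟨i.val, hil⟩, Finset.mem_univ _, ?_⟩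
        rw [Finset.mem_filter]
        refine ⟨Finset.mem_univ _, ?_⟩
        have : τ ⟨i.val, hil⟩ = a i := by
          rw [← hinit]
          simp only [Fin.init]
          congr 1
        rw [this]
        exact hd
      · intro a ha b hb hab
        have ha' : Fin.init a = τ := by
          have : a ∈ S ∧ Fin.init a = τ := by simpa using ha
          exact this.2
        have hb' : Fin.init b = τ := by
          have : b ∈ S ∧ Fin.init b = τ := by simpa using hb
          exact this.2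
        have hab' : a (Fin.last (m + 1)) = b (Fin.last (m + 1)) := hab
        rw [← Fin.snoc_init_self a, ← Fin.snoc_init_self b, ha', hb', hab']
    have h2 := h1.trans Finset.card_biUnion_le
    have h3 : ((∑ i : Fin (m + 1), #({σ' : Asg n | (hammingDist (τ i) σ' : ℝ) ≤ r} :
        Finset (Asg n)) : ℕ) : ℝ) ≤ (m + 1) * B := by
      push_cast
      calc (∑ i : Fin (m + 1), (#({σ' : Asg n | (hammingDist (τ i) σ' : ℝ) ≤ r} :
            Finset (Asg n)) : ℝ)) ≤ ∑ _i : Fin (m + 1), B := Finset.sum_le_sum (fun i _ => hB (τ i))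
        _ = (m + 1) * B := by simp
    calc (#{a ∈ S | Fin.init a = τ} : ℝ) ≤ ((∑ i : Fin (m + 1),
          #({σ' : Asg n | (hammingDist (τ i) σ' : ℝ) ≤ r} : Finset (Asg n)) : ℕ) : ℝ) := by
          exact_mod_cast h2
      _ ≤ (m + 1) * B := h3
  rw [hcard]
  push_cast
  calc ∑ τ ∈ T, (#{a ∈ S | Fin.init a = τ} : ℝ) ≤ ∑ _τ ∈ T, ((m + 1) * B) :=
        Finset.sum_le_sum hfib
    _ = (#T : ℝ) * ((m + 1) * B) := by rw [Finset.sum_const, nsmul_eq_mul]

theorem tuple_count {n : ℕ} (m : ℕ) (r B : ℝ)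
    (hB : ∀ σ : Asg n, (#{σ' : Asg n | (hammingDist σ σ' : ℝ) ≤ r} : ℝ) ≤ B) :
    (#{σ : Fin (m + 1) → Asg n |
        ∀ l, l ≠ 0 → ∃ i < l, (hammingDist (σ i) (σ l) : ℝ) ≤ r} : ℝ) ≤ 2 ^ n * (m * B) ^ m := by
  have hB0 : 0 ≤ B := le_trans (Nat.cast_nonneg _) (hB (fun _ => false))
  have key : ∀ m : ℕ, (#{σ : Fin (m + 1) → Asg n |
        ∀ l, l ≠ 0 → ∃ i < l, (hammingDist (σ i) (σ l) : ℝ) ≤ r} : ℝ) ≤
        2 ^ n * ((m.factorial : ℝ) * B ^ m) := by
    intro m
    induction m with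
    | zero =>
      simp only [zero_add, Nat.factorial_zero, Nat.cast_one, pow_zero, mul_one]
      have h1 : (#{σ : Fin 1 → Asg n |
        ∀ l, l ≠ 0 → ∃ i < l, (hammingDist (σ i) (σ l) : ℝ) ≤ r}) ≤
          Fintype.card (Fin 1 → Asg n) := Finset.card_le_univ _
      have h2 : Fintype.card (Fin 1 → Asg n) = 2 ^ n := by simp [Asg]
      rw [h2] at h1
      exact_mod_cast h1
    | succ m ih =>
      refine (Count.step m r B hB).trans ?_
      calc _ ≤ (2 ^ n * ((m.factorial : ℝ) * B ^ m)) * ((m + 1) * B) :=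
            mul_le_mul_of_nonneg_right ih (by positivity)
        _ = 2 ^ n * (((m + 1).factorial : ℝ) * B ^ (m + 1)) := by
            rw [Nat.factorial_succ]; push_cast; ring
  refine (key m).trans ?_
  apply mul_le_mul_of_nonneg_left _ (by positivity)
  rw [mul_pow]
  apply mul_le_mul_of_nonneg_right _ (by positivity)
  exact_mod_cast Nat.factorial_le_pow m

end Pool.Agent.KS
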