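import Mathlib

/-!
# Random k-SAT: formulas, violated clauses, sensitivity of an algorithm to the signs
-/

namespace Pool.Agent.KS

open Finset

/-- An assignment of the variables `0, ..., n-1`. -/
abbrev Asg (n : ℕ) := Fin n → Bool

/-- The signs of the `k` literals of a clause. -/
abbrev Pat (k : ℕ) := Fin k → Bool

/-- A clause with `k` literals on `k` distinct variables: the `i`-th literal is on the variable
`c.1 i`, it is positive if `c.2 i = true` and negative if `c.2 i = false`. -/
abbrev Clause (n k : ℕ) := (Fin k ↪ Fin n) × Pat k

/-- A formula with `M` clauses. -/
abbrev Formula (n k M : ℕ) := Fin M → Clause n k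

variable {n k M : ℕ}

/-- The assignment makes all literals of the clause false. -/
def Violated (σ : Asg n) (c : Clause n k) : Prop := ∀ i, σ (c.1 i) ≠ c.2 i

instance (σ : Asg n) (c : Clause n k) : Decidable (Violated σ c) := by
  unfold Violated; infer_instance

/-- The number of violated clauses of a formula. -/
def numViolated (σ : Asg n) (F : Formula n k M) : ℕ := #{j | Violated σ (F j)}

/-- The formula `F` with the signs of its clause `j` replaced by `p`. -/
def resign (F : Formula n k M) (j : Fin M) (p : Pat k) : Formula n k M :=
  Function.update F j ((F j).1, p)

/-- The probability (uniform random seed `r` and uniform random formula `F`) that the output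
`A r F` violates at most `2^(-k) M / 20` clauses of `F` (a fixed assignment violates `2^(-k) M`
clauses on average). -/
noncomputable def successProb {R : Type} [Fintype R] (A : R → Formula n k M → Asg n) : ℝ :=
  (#{x : R × Formula n k M | (numViolated (A x.1 x.2) x.2 : ℝ) ≤ M / 2 ^ k / 20} : ℝ) /
    Fintype.card (R × Formula n k M)

/-- The sum over the clauses `j` of the expected number of output bits which change when the
signs of the clause `j` are drawn again. -/
noncomputable def sensitivity {R : Type} [Fintype R] (A : R → Formula n k M → Asg n) : ℝ :=
  (∑ j : Fin M, ∑ r : R, ∑ F : Formula n k M, ∑ p : Pat k,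
    (hammingDist (A r F) (A r (resign F j p)) : ℝ)) /
      (Fintype.card (R × Formula n k M) * 2 ^ k)

end Pool.Agent.KS
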