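import Pool.Agent.Lib.MP_f017c9_lc.Run

/-!
# Algorithms whose output bits are functions of sums in a finite abelian group
-/

namespace Pool.Agent.KS

open Finset

variable {n k M r : ℕ}

/-- For each seed, each choice `e` of the variables of the clauses and each output bit `v`, this
bit is an arbitrary function `φ` of a sum, in the group `G`, of terms `h J`, each depending only
on the signs of the clauses in a set `J` of at most `D` clauses. -/
def GroupSum {R : Type} (G : Type) [AddCommGroup G] (D : ℕ) (A : R → Formula n k M → Asg n) :
    Prop :=
  ∀ (r : R) (e : Fin M → (Fin k ↪ Fin n)) (v : Fin n),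
    ∃ (φ : G → Bool) (h : Finset (Fin M) → (Fin M → Pat k) → G),
      (∀ J s s', (∀ j ∈ J, s j = s' j) → h J s = h J s') ∧
        ∀ s : Fin M → Pat k, A r (fun j => (e j, s j)) v = φ (∑ J with J.card ≤ D, h J s)

/-- one step for the signs of one clause: new signs are drawn if the label lies in `J₀` -/
def moveJ1 (J₀ : Finset (Fin r)) (s : Pat k) (a : Fin r × Pat k) : Pat k :=
  if a.1 ∈ J₀ then a.2 else s

/-- one step for a formula: all clauses with labels in `J₀` get new signs -/
def moveJ (J₀ : Finset (Fin r)) (F : Formula n k M) (a : Fin M → Fin r × Pat k) :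
    Formula n k M :=
  fun j => ((F j).1, moveJ1 J₀ (F j).2 (a j))

/-- one step for a pair (seed, formula) -/
def moveJR {R : Type} (J₀ : Finset (Fin r)) (x : R × Formula n k M)
    (a : Fin M → Fin r × Pat k) : R × Formula n k M := (x.1, moveJ J₀ x.2 a)

/-- a vertex of the cube of formulas: clauses in the groups of `T` take their second signs -/
def cubeF (e : Fin M → (Fin k ↪ Fin n)) (i : Fin M → Fin r) (s s' : Fin M → Pat k)
    (T : Finset (Fin r)) : Formula n k M :=
  fun j => (e j, if i j ∈ T then s' j else s j)

end Pool.Agent.KS
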