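import Pool.Agent.Lib.MP_f017c9_lc.Run
import Pool.Agent.Lib.MP_f017c9_lc.Chain

/-!
# Random k-SAT: first moment of tuples along the walk
-/

namespace Pool.Agent.KS

open Finset

/-- the state of the clause `j` at time `t` -/
theorem Tuple_run {n k M L K : ℕ} (F : Formula n k M) (w : Fin K → Fin M → Fin (L + 1) × Pat k)
    (t : ℕ) (j : Fin M) :
    run move F w t j = ((F j).1, run move1 (F j).2 (fun u => w u j) t) := by
  induction t with
  | zero => rfl
  | succ t ih =>
    unfold run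
    by_cases h : t < K
    · rw [dif_pos h, dif_pos h]
      have h1 : move (run move F w t) (w ⟨t, h⟩) j =
          ((run move F w t j).1, move1 (run move F w t j).2 (w ⟨t, h⟩ j)) := rfl
      rw [h1, ih]
    · rw [dif_neg h, dif_neg h]
      exact ih

/-- the clause `y` is violated by `σ` at time `t` -/
def TupleV {n k L K : ℕ} (σ : Asg n) (t : ℕ)
    (y : Clause n k × (Fin K → Fin (L + 1) × Pat k)) : Prop :=
  Violated σ (y.1.1, run move1 y.1.2 y.2 t)

instance TupleV_dec {n k L K : ℕ} (σ : Asg n) (t : ℕ)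
    (y : Clause n k × (Fin K → Fin (L + 1) × Pat k)) : Decidable (TupleV σ t y) := by
  unfold TupleV; infer_instance

theorem TupleV_iff {n k L K : ℕ} (σ : Asg n) (t : ℕ) (e : Fin k ↪ Fin n) (s : Pat k)
    (w : Fin K → Fin (L + 1) × Pat k) :
    TupleV σ t ((e, s), w) ↔ run move1 s w t = fun i => !σ (e i) := by
  unfold TupleV Violated
  constructor
  · intro h
    funext i
    have := h i
    simp only at this
    revert this
    cases σ (e i) <;> cases run move1 s w t i <;> simp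
  · intro h i
    simp only
    rw [h]
    simp

/-- counting over a product -/
theorem Tuple_fibre {A B C : Type*} [Fintype A] [Fintype B] [Fintype C]
    (P : (A × B) × C → Prop) [DecidablePred P] :
    (#{y : (A × B) × C | P y} : ℝ) = ∑ a : A, (#{z : B × C | P ((a, z.1), z.2)} : ℝ) := by
  simp only [card_filter, Nat.cast_sum, Nat.cast_ite, Nat.cast_one, Nat.cast_zero]
  rw [Fintype.sum_prod_type, Fintype.sum_prod_type]
  apply Finset.sum_congr rfl
  intro a _
  rw [Fintype.sum_prod_type]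

theorem Tuple_single {n k L K : ℕ} (σ : Asg n) (t : ℕ) (ht : t ≤ K) :
    (#{y : Clause n k × (Fin K → Fin (L + 1) × Pat k) | TupleV σ t y} : ℝ) =
      Fintype.card (Clause n k × (Fin K → Fin (L + 1) × Pat k)) * (1 / 2 ^ k) := by
  rw [Tuple_fibre]
  have h : ∀ e : Fin k ↪ Fin n,
      (#{z : Pat k × (Fin K → Fin (L + 1) × Pat k) | TupleV σ t ((e, z.1), z.2)} : ℝ) =
        Fintype.card (Pat k × (Fin K → Fin (L + 1) × Pat k)) * (1 / 2 ^ k) := by
    intro e
    have h1 := chain_pair k L K t t le_rfl ht (fun i => !σ (e i)) (fun i => !σ (e i))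
    simp only [and_self, Nat.sub_self, pow_zero, if_true, mul_one, sub_self, zero_mul, add_zero]
      at h1
    rw [← h1]
    congr 2
    apply filter_congr
    intro z _
    exact TupleV_iff σ t e z.1 z.2
  rw [sum_congr rfl fun e _ => h e, sum_const, card_univ, nsmul_eq_mul]
  simp only [Fintype.card_prod, Nat.cast_mul]
  ring

/-- embeddings into the agreement set of two assignments -/
theorem Tuple_agree {n k : ℕ} (hk : k ≤ n) (δ : ℝ) (hδ0 : 0 ≤ δ) (hδ1 : δ ≤ 1 / 2) (σ σ' : Asg n)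
    (h : δ * n < (hammingDist σ σ' : ℝ)) :
    (#{e : Fin k ↪ Fin n | (fun i => !σ (e i)) = fun i => !σ' (e i)} : ℝ) ≤
      (1 - δ) ^ k * Fintype.card (Fin k ↪ Fin n) := by
  classical
  obtain ⟨T, hT⟩ : ∃ T : Finset (Fin n), T = univ.filter fun x => σ x = σ' x := ⟨_, rfl⟩
  have hTc : (#T : ℝ) ≤ (1 - δ) * n := by
    have h1 : #T + hammingDist σ σ' = n := by
      rw [hT]
      unfold hammingDist
      rw [card_filter_add_card_filter_not]
      simp
    have h2 : (#T : ℝ) + (hammingDist σ σ' : ℝ) = n := by exact_mod_cast h1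
    linarith
  -- the count is at most the number of embeddings into T
  have hcount : #{e : Fin k ↪ Fin n | (fun i => !σ (e i)) = fun i => !σ' (e i)} ≤
      (#T).descFactorial k := by
    have hcard : Fintype.card (Fin k ↪ T) = (#T).descFactorial k := by
      rw [Fintype.card_embedding_eq]; simp
    rw [← hcard]
    have hinj : ∀ e : {e : Fin k ↪ Fin n // (fun i => !σ (e i)) = fun i => !σ' (e i)},
        ∀ i, e.1 i ∈ T := by
      intro e i
      rw [hT, mem_filter]
      refine ⟨mem_univ _, ?_⟩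
      have := congrFun e.2 i
      revert this
      cases σ (e.1 i) <;> cases σ' (e.1 i) <;> simp
    have : Fintype.card {e : Fin k ↪ Fin n // (fun i => !σ (e i)) = fun i => !σ' (e i)} ≤
        Fintype.card (Fin k ↪ T) := by
      apply Fintype.card_le_of_injective
        (fun e => (⟨fun i => ⟨e.1 i, hinj e i⟩, fun i i' hii => by
          have := congrArg Subtype.val hii
          exact e.1.injective this⟩ : Fin k ↪ T))
      intro e e' hee
      apply Subtype.ext
      ext i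
      have h3 : ((⟨e.1 i, hinj e i⟩ : T) : Fin n) = ((⟨e'.1 i, hinj e' i⟩ : T) : Fin n) :=
        congrArg (fun g : Fin k ↪ T => (g i).1) hee
      exact congrArg Fin.val h3
    rw [Fintype.card_subtype] at this
    exact this
  have hdesc : (((#T).descFactorial k : ℕ) : ℝ) ≤ (1 - δ) ^ k * (n.descFactorial k : ℕ) := by
    rw [Nat.descFactorial_eq_prod_range, Nat.descFactorial_eq_prod_range]
    push_cast
    have : (1 - δ) ^ k = ∏ _i ∈ range k, (1 - δ) := by simp
    rw [this, ← prod_mul_distrib]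
    apply prod_le_prod
    · intro i _; positivity
    · intro i hi
      have hin : i ≤ n := (mem_range.1 hi).le.trans hk
      rw [Nat.cast_sub hin]
      rcases le_total i (#T) with hiT | hiT
      · rw [Nat.cast_sub hiT]
        have : (0 : ℝ) ≤ (i : ℝ) := Nat.cast_nonneg _
        nlinarith
      · rw [Nat.sub_eq_zero_of_le hiT]
        have : (i : ℝ) ≤ n := by exact_mod_cast hin
        have h2 : (0 : ℝ) ≤ (n : ℝ) - i := by linarith
        have h3 : (0 : ℝ) ≤ 1 - δ := by linarith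
        simpa using mul_nonneg h3 h2
  calc (#{e : Fin k ↪ Fin n | (fun i => !σ (e i)) = fun i => !σ' (e i)} : ℝ)
      ≤ (((#T).descFactorial k : ℕ) : ℝ) := by exact_mod_cast hcount
    _ ≤ (1 - δ) ^ k * (n.descFactorial k : ℕ) := hdesc
    _ = (1 - δ) ^ k * Fintype.card (Fin k ↪ Fin n) := by
        rw [Fintype.card_embedding_eq]; simp

theorem Tuple_pair_aux {n k L K : ℕ} (hk : k ≤ n) (δ : ℝ) (hδ0 : 0 ≤ δ) (hδ : δ ≤ 1 / 2)
    (σ σ' : Asg n) (t t' : ℕ) (htt : t ≤ t') (ht' : t' ≤ K)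
    (h : δ * n < (hammingDist σ σ' : ℝ)) :
    (#{y : Clause n k × (Fin K → Fin (L + 1) × Pat k) | TupleV σ t y ∧ TupleV σ' t' y} : ℝ) ≤
      Fintype.card (Clause n k × (Fin K → Fin (L + 1) × Pat k)) * (1 / 2 ^ k) * (1 - δ) ^ k := by
  rw [Tuple_fibre]
  obtain ⟨γ, hγ⟩ : ∃ γ : ℝ, γ = ((L : ℝ) / (L + 1)) ^ (t' - t) := ⟨_, rfl⟩
  have hL : (0 : ℝ) ≤ (L : ℝ) / (L + 1) := by positivity
  have hL1 : (L : ℝ) / (L + 1) ≤ 1 := by
    rw [div_le_one (by positivity)]; linarith
  have hγ0 : 0 ≤ γ := by rw [hγ]; positivity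
  have hγ1 : γ ≤ 1 := by rw [hγ]; exact pow_le_one₀ hL hL1
  have h1 : ∀ e : Fin k ↪ Fin n,
      (#{z : Pat k × (Fin K → Fin (L + 1) × Pat k) |
        TupleV σ t ((e, z.1), z.2) ∧ TupleV σ' t' ((e, z.1), z.2)} : ℝ) =
        Fintype.card (Pat k × (Fin K → Fin (L + 1) × Pat k)) * (1 / 2 ^ k) *
          (γ * (if (fun i => !σ (e i)) = (fun i => !σ' (e i)) then 1 else 0) +
            (1 - γ) * (1 / 2 ^ k)) := by
    intro e
    rw [hγ, ← chain_pair k L K t t' htt ht' (fun i => !σ (e i)) (fun i => !σ' (e i))]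
    congr 2
    apply filter_congr
    intro z _
    rw [TupleV_iff, TupleV_iff]
  rw [sum_congr rfl fun e _ => h1 e, ← mul_sum, sum_add_distrib, ← mul_sum, sum_const, card_univ,
    nsmul_eq_mul]
  have h2 : (∑ e : Fin k ↪ Fin n, (if (fun i => !σ (e i)) = (fun i => !σ' (e i)) then (1 : ℝ)
      else 0)) ≤ (1 - δ) ^ k * Fintype.card (Fin k ↪ Fin n) := by
    have := Tuple_agree hk δ hδ0 hδ σ σ' h
    rw [card_filter] at this
    push_cast at this
    exact this
  have h3 : (1 / 2 : ℝ) ^ k ≤ (1 - δ) ^ k := pow_le_pow_left₀ (by norm_num) (by linarith) k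
  have h4 : (1 / 2 ^ k : ℝ) ≤ (1 - δ) ^ k := by
    rw [one_div_pow] at h3
    exact h3
  have h5 : (0 : ℝ) ≤ Fintype.card (Fin k ↪ Fin n) := Nat.cast_nonneg _
  have h6 : γ * (∑ e : Fin k ↪ Fin n, (if (fun i => !σ (e i)) = (fun i => !σ' (e i)) then (1 : ℝ)
      else 0)) + Fintype.card (Fin k ↪ Fin n) * ((1 - γ) * (1 / 2 ^ k)) ≤
      (1 - δ) ^ k * Fintype.card (Fin k ↪ Fin n) := by
    have h7 := mul_le_mul_of_nonneg_left h2 hγ0
    have h8 := mul_le_mul_of_nonneg_left h4 (mul_nonneg h5 (by linarith : (0 : ℝ) ≤ 1 - γ))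
    nlinarith
  have h9 : (0 : ℝ) ≤ Fintype.card (Pat k × (Fin K → Fin (L + 1) × Pat k)) * (1 / 2 ^ k) := by
    positivity
  calc _ ≤ (Fintype.card (Pat k × (Fin K → Fin (L + 1) × Pat k)) * (1 / 2 ^ k) : ℝ) *
        ((1 - δ) ^ k * Fintype.card (Fin k ↪ Fin n)) := mul_le_mul_of_nonneg_left h6 h9
    _ = _ := by
        simp only [Fintype.card_prod, Nat.cast_mul]
        ring

theorem Tuple_pair {n k L K : ℕ} (hk : k ≤ n) (δ : ℝ) (hδ0 : 0 ≤ δ) (hδ : δ ≤ 1 / 2)
    (σ σ' : Asg n) (t t' : ℕ) (ht : t ≤ K) (ht' : t' ≤ K)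
    (h : δ * n < (hammingDist σ σ' : ℝ)) :
    (#{y : Clause n k × (Fin K → Fin (L + 1) × Pat k) | TupleV σ t y ∧ TupleV σ' t' y} : ℝ) ≤
      Fintype.card (Clause n k × (Fin K → Fin (L + 1) × Pat k)) * (1 / 2 ^ k) * (1 - δ) ^ k := by
  rcases le_total t t' with htt | htt
  · exact Tuple_pair_aux hk δ hδ0 hδ σ σ' t t' htt ht' h
  · rw [hammingDist_comm] at h
    have := Tuple_pair_aux (L := L) (K := K) hk δ hδ0 hδ σ' σ t' t htt ht h
    refine le_trans (le_of_eq ?_) this
    congr 2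
    apply filter_congr
    intro y _
    exact and_comm

/-- the number of indices `l` which violate the clause -/
theorem Tuple_phi (X : ℕ) : ((1 : ℝ) / 4) ^ X ≤ 1 - (3 / 4) * (X - X * (X - 1) / 2) := by
  rcases Nat.eq_zero_or_pos X with h | h
  · subst h; norm_num
  · have h1 : ((1 : ℝ) / 4) ^ X ≤ (1 / 4) ^ 1 :=
      pow_le_pow_of_le_one (by norm_num) (by norm_num) h
    have h2 : (1 : ℝ) ≤ X := by exact_mod_cast h
    have h3 : (X : ℝ) - X * (X - 1) / 2 ≤ 1 := by
      rcases Nat.lt_or_ge X 2 with h4 | h4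
      · have : X = 1 := by omega
        subst this; norm_num
      · have h5 : (2 : ℝ) ≤ X := by exact_mod_cast h4
        nlinarith
    have h4 : ((1 : ℝ) / 4) ^ 1 = 1 / 4 := by norm_num
    rw [h4] at h1
    linarith

theorem Tuple_sum {n k L K m : ℕ} (hk : k ≤ n) (δ : ℝ) (hδ0 : 0 ≤ δ) (hδ : δ ≤ 1 / 2)
    (hm : (m : ℝ) * (1 - δ) ^ k ≤ 1 / 2) (τ : Fin (m + 1) → ℕ) (hτ : ∀ l, τ l ≤ K)
    (σ : Fin (m + 1) → Asg n)
    (hσ : ∀ l l', l ≠ l' → δ * n < (hammingDist (σ l) (σ l') : ℝ)) :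
    ∑ y : Clause n k × (Fin K → Fin (L + 1) × Pat k),
      ((1 : ℝ) / 4) ^ #{l : Fin (m + 1) | TupleV (σ l) (τ l) y} ≤
      Fintype.card (Clause n k × (Fin K → Fin (L + 1) × Pat k)) *
        Real.exp (-(9 / 16) * (m + 1) * (1 / 2 ^ k)) := by
  obtain ⟨N, hN⟩ : ∃ N : ℝ, N = Fintype.card (Clause n k × (Fin K → Fin (L + 1) × Pat k)) :=
    ⟨_, rfl⟩
  have hN0 : 0 ≤ N := by rw [hN]; positivity
  rw [← hN]
  -- first moment
  have hfirst : ∑ y : Clause n k × (Fin K → Fin (L + 1) × Pat k),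
      ((#{l : Fin (m + 1) | TupleV (σ l) (τ l) y} : ℕ) : ℝ) = (m + 1) * (N * (1 / 2 ^ k)) := by
    simp only [card_filter, Nat.cast_sum, Nat.cast_ite, Nat.cast_one, Nat.cast_zero]
    rw [sum_comm]
    have : ∀ l : Fin (m + 1), ∑ y : Clause n k × (Fin K → Fin (L + 1) × Pat k),
        (if TupleV (σ l) (τ l) y then (1 : ℝ) else 0) = N * (1 / 2 ^ k) := by
      intro l
      have h1 := Tuple_single (k := k) (L := L) (σ l) (τ l) (hτ l)
      rw [card_filter] at h1
      push_cast at h1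
      rw [hN]
      convert h1 using 2
    rw [sum_congr rfl fun l _ => this l, sum_const, card_univ, Fintype.card_fin, nsmul_eq_mul]
    push_cast
    ring
  -- second moment
  have hsecond : ∑ y : Clause n k × (Fin K → Fin (L + 1) × Pat k),
      (((#{l : Fin (m + 1) | TupleV (σ l) (τ l) y} : ℕ) : ℝ) *
        (((#{l : Fin (m + 1) | TupleV (σ l) (τ l) y} : ℕ) : ℝ) - 1)) ≤
        (m + 1) * m * (N * (1 / 2 ^ k) * (1 - δ) ^ k) := by
    have hid : ∀ y : Clause n k × (Fin K → Fin (L + 1) × Pat k),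
        (((#{l : Fin (m + 1) | TupleV (σ l) (τ l) y} : ℕ) : ℝ) *
        (((#{l : Fin (m + 1) | TupleV (σ l) (τ l) y} : ℕ) : ℝ) - 1)) =
        ∑ l : Fin (m + 1), ∑ l' ∈ univ.erase l,
          (if TupleV (σ l) (τ l) y ∧ TupleV (σ l') (τ l') y then (1 : ℝ) else 0) := by
      intro y
      have h1 : ∀ l : Fin (m + 1), ∑ l' ∈ univ.erase l,
          (if TupleV (σ l) (τ l) y ∧ TupleV (σ l') (τ l') y then (1 : ℝ) else 0) =
          (if TupleV (σ l) (τ l) y then (1 : ℝ) else 0) *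
            (((#{l : Fin (m + 1) | TupleV (σ l) (τ l) y} : ℕ) : ℝ) - 1) := by
        intro l
        by_cases hl : TupleV (σ l) (τ l) y
        · simp only [hl, true_and, if_true, one_mul]
          rw [card_filter]
          push_cast
          rw [← add_sum_erase univ _ (mem_univ l)]
          simp [hl]
        · simp [hl]
      rw [sum_congr rfl fun l _ => h1 l, ← sum_mul]
      rw [card_filter]
      push_cast
      rfl
    rw [sum_congr rfl fun y _ => hid y, sum_comm]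
    have h2 : ∀ l : Fin (m + 1), ∑ y : Clause n k × (Fin K → Fin (L + 1) × Pat k),
        ∑ l' ∈ univ.erase l,
          (if TupleV (σ l) (τ l) y ∧ TupleV (σ l') (τ l') y then (1 : ℝ) else 0) ≤
        m * (N * (1 / 2 ^ k) * (1 - δ) ^ k) := by
      intro l
      rw [sum_comm]
      have h3 : ∀ l' ∈ univ.erase l, ∑ y : Clause n k × (Fin K → Fin (L + 1) × Pat k),
          (if TupleV (σ l) (τ l) y ∧ TupleV (σ l') (τ l') y then (1 : ℝ) else 0) ≤
          N * (1 / 2 ^ k) * (1 - δ) ^ k := by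
        intro l' hl'
        have hne : l ≠ l' := (ne_of_mem_erase hl').symm
        have h4 := Tuple_pair (k := k) (L := L) hk δ hδ0 hδ (σ l) (σ l') (τ l) (τ l') (hτ l)
          (hτ l') (hσ l l' hne)
        rw [card_filter] at h4
        push_cast at h4
        rw [hN]
        refine h4.trans (le_of_eq ?_)
        ring
      refine (sum_le_sum h3).trans (le_of_eq ?_)
      rw [sum_const, card_erase_of_mem (mem_univ l), card_univ, Fintype.card_fin, nsmul_eq_mul]
      simp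
    refine (sum_le_sum fun l _ => h2 l).trans (le_of_eq ?_)
    rw [sum_const, card_univ, Fintype.card_fin, nsmul_eq_mul]
    push_cast
    ring
  have hpt : ∑ y : Clause n k × (Fin K → Fin (L + 1) × Pat k),
      ((1 : ℝ) / 4) ^ #{l : Fin (m + 1) | TupleV (σ l) (τ l) y} ≤
      ∑ y : Clause n k × (Fin K → Fin (L + 1) × Pat k),
        (1 - (3 / 4) * (((#{l : Fin (m + 1) | TupleV (σ l) (τ l) y} : ℕ) : ℝ) -
          ((#{l : Fin (m + 1) | TupleV (σ l) (τ l) y} : ℕ) : ℝ) *
          (((#{l : Fin (m + 1) | TupleV (σ l) (τ l) y} : ℕ) : ℝ) - 1) / 2)) :=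
    sum_le_sum fun y _ => Tuple_phi _
  refine hpt.trans ?_
  have hsplit : ∑ y : Clause n k × (Fin K → Fin (L + 1) × Pat k),
        (1 - (3 / 4) * (((#{l : Fin (m + 1) | TupleV (σ l) (τ l) y} : ℕ) : ℝ) -
          ((#{l : Fin (m + 1) | TupleV (σ l) (τ l) y} : ℕ) : ℝ) *
          (((#{l : Fin (m + 1) | TupleV (σ l) (τ l) y} : ℕ) : ℝ) - 1) / 2)) =
      N - (3 / 4) * ((m + 1) * (N * (1 / 2 ^ k))) +
        (3 / 8) * ∑ y : Clause n k × (Fin K → Fin (L + 1) × Pat k),
      (((#{l : Fin (m + 1) | TupleV (σ l) (τ l) y} : ℕ) : ℝ) *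
        (((#{l : Fin (m + 1) | TupleV (σ l) (τ l) y} : ℕ) : ℝ) - 1)) := by
    rw [← hfirst, hN]
    have hc : (Fintype.card (Clause n k × (Fin K → Fin (L + 1) × Pat k)) : ℝ) =
        ∑ _y : Clause n k × (Fin K → Fin (L + 1) × Pat k), (1 : ℝ) := by
      rw [sum_const, card_univ, nsmul_eq_mul, mul_one]
    rw [hc, mul_sum, mul_sum, ← sum_sub_distrib, ← sum_add_distrib]
    apply sum_congr rfl
    intro y _
    ring
  rw [hsplit]
  have hq : (0 : ℝ) ≤ N * (1 / 2 ^ k) := by positivity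
  have hm1 : (0 : ℝ) ≤ (m : ℝ) + 1 := by positivity
  have hbound : (m + 1 : ℝ) * m * (N * (1 / 2 ^ k) * (1 - δ) ^ k) ≤
      (m + 1) * (N * (1 / 2 ^ k)) * (1 / 2) := by
    have := mul_le_mul_of_nonneg_left hm (mul_nonneg hm1 hq)
    linarith
  have hexp : 1 - (9 / 16) * (m + 1) * (1 / 2 ^ k : ℝ) ≤
      Real.exp (-(9 / 16) * (m + 1) * (1 / 2 ^ k)) := by
    have := Real.add_one_le_exp (-(9 / 16) * (m + 1) * (1 / 2 ^ k : ℝ))
    linarith
  have hfin := mul_le_mul_of_nonneg_left hexp hN0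
  linarith

theorem tuple_moment {n k M L K m : ℕ} (hk : k ≤ n) (δ : ℝ) (hδ0 : 0 ≤ δ) (hδ : δ ≤ 1 / 2)
    (hm : (m : ℝ) * (1 - δ) ^ k ≤ 1 / 2) (τ : Fin (m + 1) → ℕ) (hτ : ∀ l, τ l ≤ K)
    (σ : Fin (m + 1) → Asg n)
    (hσ : ∀ l l', l ≠ l' → δ * n < (hammingDist (σ l) (σ l') : ℝ)) :
    (#{z : Formula n k M × (Fin K → Fin M → Fin (L + 1) × Pat k) |
        ∀ l, (numViolated (σ l) (run move z.1 z.2 (τ l)) : ℝ) ≤ M / 2 ^ k / 20} : ℝ) ≤
      Fintype.card (Formula n k M × (Fin K → Fin M → Fin (L + 1) × Pat k)) *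
        Real.exp (-(49 / 100) * (m + 1) * (M / 2 ^ k)) := by
  obtain ⟨E, hE⟩ : ∃ E : ℝ, E = M / 2 ^ k := ⟨_, rfl⟩
  have hE0 : 0 ≤ E := by rw [hE]; positivity
  rw [← hE]
  -- the equivalence with the functions of the clause
  let eq : (Formula n k M × (Fin K → Fin M → Fin (L + 1) × Pat k)) ≃
      (Fin M → Clause n k × (Fin K → Fin (L + 1) × Pat k)) :=
    { toFun := fun z j => (z.1 j, fun u => z.2 u j)
      invFun := fun y => (fun j => (y j).1, fun u j => (y j).2 u)
      left_inv := fun z => rfl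
      right_inv := fun y => rfl }
  have hnum : ∀ (z : Formula n k M × (Fin K → Fin M → Fin (L + 1) × Pat k)) (l : Fin (m + 1)),
      numViolated (σ l) (run move z.1 z.2 (τ l)) =
        ∑ j : Fin M, if TupleV (σ l) (τ l) (eq z j) then 1 else 0 := by
    intro z l
    unfold numViolated
    rw [card_filter]
    apply sum_congr rfl
    intro j _
    rw [Tuple_run]
    rfl
  have hpoint : ∀ z : Formula n k M × (Fin K → Fin M → Fin (L + 1) × Pat k),
      (if ∀ l, (numViolated (σ l) (run move z.1 z.2 (τ l)) : ℝ) ≤ E / 20 then (1 : ℝ) else 0) ≤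
      Real.exp (Real.log 4 * ((m + 1) * (E / 20))) *
        ∏ j : Fin M, ((1 : ℝ) / 4) ^ #{l : Fin (m + 1) | TupleV (σ l) (τ l) (eq z j)} := by
    intro z
    split_ifs with h
    · rw [prod_pow_eq_pow_sum]
      have hs : ((∑ j : Fin M, #{l : Fin (m + 1) | TupleV (σ l) (τ l) (eq z j)} : ℕ) : ℝ) ≤
          (m + 1) * (E / 20) := by
        have h1 : (∑ j : Fin M, #{l : Fin (m + 1) | TupleV (σ l) (τ l) (eq z j)}) =
            ∑ l : Fin (m + 1), numViolated (σ l) (run move z.1 z.2 (τ l)) := by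
          simp only [hnum, card_filter]
          rw [sum_comm]
        rw [h1]
        push_cast
        calc ∑ l : Fin (m + 1), (numViolated (σ l) (run move z.1 z.2 (τ l)) : ℝ)
            ≤ ∑ _l : Fin (m + 1), E / 20 := sum_le_sum fun l _ => h l
          _ = (m + 1) * (E / 20) := by
              rw [sum_const, card_univ, Fintype.card_fin, nsmul_eq_mul]; push_cast; ring
      have hlog : (0 : ℝ) ≤ Real.log 4 := Real.log_nonneg (by norm_num)
      have h2 : ((1 : ℝ) / 4) ^ (∑ j : Fin M, #{l : Fin (m + 1) | TupleV (σ l) (τ l) (eq z j)}) =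
          Real.exp (-(Real.log 4 *
            ((∑ j : Fin M, #{l : Fin (m + 1) | TupleV (σ l) (τ l) (eq z j)} : ℕ) : ℝ))) := by
        rw [Real.exp_neg, mul_comm (Real.log 4), Real.exp_nat_mul, Real.exp_log (by norm_num),
          one_div, inv_pow]
      rw [h2, ← Real.exp_add]
      apply Real.one_le_exp
      have := mul_le_mul_of_nonneg_left hs hlog
      linarith
    · positivity
  have hcard : (Fintype.card (Formula n k M × (Fin K → Fin M → Fin (L + 1) × Pat k)) : ℝ) =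
      (Fintype.card (Clause n k × (Fin K → Fin (L + 1) × Pat k)) : ℝ) ^ M := by
    rw [Fintype.card_congr eq, Fintype.card_fun, Fintype.card_fin]
    exact Nat.cast_pow _ _
  have hsum : ∑ z : Formula n k M × (Fin K → Fin M → Fin (L + 1) × Pat k),
      ∏ j : Fin M, ((1 : ℝ) / 4) ^ #{l : Fin (m + 1) | TupleV (σ l) (τ l) (eq z j)} =
      (∑ y : Clause n k × (Fin K → Fin (L + 1) × Pat k),
        ((1 : ℝ) / 4) ^ #{l : Fin (m + 1) | TupleV (σ l) (τ l) y}) ^ M := by
    rw [Fintype.sum_pow]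
    exact Fintype.sum_equiv eq _ _ fun z => rfl
  have hmain := Tuple_sum (L := L) hk δ hδ0 hδ hm τ hτ σ hσ
  have hnn : (0 : ℝ) ≤ ∑ y : Clause n k × (Fin K → Fin (L + 1) × Pat k),
        ((1 : ℝ) / 4) ^ #{l : Fin (m + 1) | TupleV (σ l) (τ l) y} := by
    apply sum_nonneg; intro y _; positivity
  have hpow := pow_le_pow_left₀ hnn hmain M
  have hexpM : Real.exp (-(9 / 16) * (m + 1) * (1 / 2 ^ k)) ^ M =
      Real.exp (-(9 / 16) * (m + 1) * E) := by
    rw [← Real.exp_nat_mul, hE]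
    congr 1
    ring
  rw [mul_pow, hexpM, ← hcard] at hpow
  have hnum2 : (#{z : Formula n k M × (Fin K → Fin M → Fin (L + 1) × Pat k) |
        ∀ l, (numViolated (σ l) (run move z.1 z.2 (τ l)) : ℝ) ≤ E / 20} : ℝ) =
      ∑ z : Formula n k M × (Fin K → Fin M → Fin (L + 1) × Pat k),
        (if ∀ l, (numViolated (σ l) (run move z.1 z.2 (τ l)) : ℝ) ≤ E / 20 then (1 : ℝ) else 0) := by
    rw [card_filter]
    push_cast
    rfl
  rw [hnum2]
  refine (sum_le_sum fun z _ => hpoint z).trans ?_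
  rw [← mul_sum, hsum]
  have hcn : (0 : ℝ) ≤ Fintype.card (Formula n k M × (Fin K → Fin M → Fin (L + 1) × Pat k)) :=
    Nat.cast_nonneg _
  refine (mul_le_mul_of_nonneg_left hpow (Real.exp_pos _).le).trans ?_
  rw [mul_left_comm]
  apply mul_le_mul_of_nonneg_left _ hcn
  rw [← Real.exp_add]
  apply Real.exp_le_exp.2
  have hlog4 : Real.log 4 ≤ 1.3863 := by
    have h4 : (4 : ℝ) = 2 ^ 2 := by norm_num
    rw [h4, Real.log_pow]
    have := Real.log_two_lt_d9
    push_cast
    linarith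
  have hmE : (0 : ℝ) ≤ (m + 1) * E := by positivity
  have h1 := mul_le_mul_of_nonneg_right hlog4 hmE
  nlinarith

end Pool.Agent.KS
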