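import Pool.Agent.Lib.MP_f017c9_lc.DefsG
import Pool.Agent.Lib.MP_f017c9_lc.Tuple

/-!
# Random k-SAT: first moment of tuples, abstract form
-/

namespace Pool.Agent.KS

open Finset

theorem Moment_iff {n k : ℕ} (σ : Asg n) (e : Fin k ↪ Fin n) (p : Pat k) :
    Violated σ (e, p) ↔ p = fun i => !σ (e i) := by
  unfold Violated
  constructor
  · intro h
    funext i
    have := h i
    simp only at this
    revert this
    cases σ (e i) <;> cases p i <;> simp
  · intro h i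
    simp only
    rw [h]
    simp

/-- counting over a product -/
theorem Moment_fibre {A B : Type*} [Fintype A] [Fintype B]
    (P : A × B → Prop) [DecidablePred P] :
    (#{y : A × B | P y} : ℝ) = ∑ a : A, (#{b : B | P (a, b)} : ℝ) := by
  simp only [card_filter, Nat.cast_sum, Nat.cast_ite, Nat.cast_one, Nat.cast_zero]
  rw [Fintype.sum_prod_type]

theorem Moment_single {n k : ℕ} {W : Type} [Fintype W] (pat : W → Pat k)
    (h1 : ∀ a, (#{w : W | pat w = a} : ℝ) = Fintype.card W * (1 / 2 ^ k)) (σ : Asg n) :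
    (#{y : (Fin k ↪ Fin n) × W | Violated σ (y.1, pat y.2)} : ℝ) =
      Fintype.card ((Fin k ↪ Fin n) × W) * (1 / 2 ^ k) := by
  rw [Moment_fibre]
  have h : ∀ e : Fin k ↪ Fin n,
      (#{w : W | Violated σ (e, pat w)} : ℝ) = Fintype.card W * (1 / 2 ^ k) := by
    intro e
    rw [← h1 (fun i => !σ (e i))]
    congr 2
    apply filter_congr
    intro w _
    exact Moment_iff σ e (pat w)
  rw [sum_congr rfl fun e _ => h e, sum_const, card_univ, nsmul_eq_mul]
  simp only [Fintype.card_prod, Nat.cast_mul]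
  ring

theorem Moment_pair {n k : ℕ} (hk : k ≤ n) {W : Type} [Fintype W] (pat pat' : W → Pat k)
    (γ : ℝ) (hγ0 : 0 ≤ γ) (hγ1 : γ ≤ 1)
    (h2 : ∀ a b, (#{w : W | pat w = a ∧ pat' w = b} : ℝ) ≤
      Fintype.card W * (1 / 2 ^ k) * (γ * (if a = b then 1 else 0) + (1 - γ) * (1 / 2 ^ k)))
    (δ : ℝ) (hδ0 : 0 ≤ δ) (hδ : δ ≤ 1 / 2) (σ σ' : Asg n)
    (h : δ * n < (hammingDist σ σ' : ℝ)) :
    (#{y : (Fin k ↪ Fin n) × W | Violated σ (y.1, pat y.2) ∧ Violated σ' (y.1, pat' y.2)} : ℝ) ≤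
      Fintype.card ((Fin k ↪ Fin n) × W) * (1 / 2 ^ k) * (1 - δ) ^ k := by
  rw [Moment_fibre]
  have h1 : ∀ e : Fin k ↪ Fin n,
      (#{w : W | Violated σ (e, pat w) ∧ Violated σ' (e, pat' w)} : ℝ) ≤
        Fintype.card W * (1 / 2 ^ k) *
          (γ * (if (fun i => !σ (e i)) = (fun i => !σ' (e i)) then 1 else 0) +
            (1 - γ) * (1 / 2 ^ k)) := by
    intro e
    refine le_trans (le_of_eq ?_) (h2 (fun i => !σ (e i)) (fun i => !σ' (e i)))
    congr 2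
    apply filter_congr
    intro w _
    rw [Moment_iff, Moment_iff]
  refine (sum_le_sum fun e _ => h1 e).trans ?_
  rw [← mul_sum, sum_add_distrib, ← mul_sum, sum_const, card_univ, nsmul_eq_mul]
  have h2 : (∑ e : Fin k ↪ Fin n, (if (fun i => !σ (e i)) = (fun i => !σ' (e i)) then (1 : ℝ)
      else 0)) ≤ (1 - δ) ^ k * Fintype.card (Fin k ↪ Fin n) := by
    have := Tuple_agree hk δ hδ0 hδ σ σ' h
    rw [card_filter] at this
    push_cast at this
    exact this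
  have h3 : (1 / 2 : ℝ) ^ k ≤ (1 - δ) ^ k := pow_le_pow_left₀ (by norm_num) (by linarith) k
  have h4 : (1 / 2 ^ k : ℝ) ≤ (1 - δ) ^ k := by
    rw [one_div_pow] at h3
    exact h3
  have h5 : (0 : ℝ) ≤ Fintype.card (Fin k ↪ Fin n) := Nat.cast_nonneg _
  have h6 : γ * (∑ e : Fin k ↪ Fin n, (if (fun i => !σ (e i)) = (fun i => !σ' (e i)) then (1 : ℝ)
      else 0)) + Fintype.card (Fin k ↪ Fin n) * ((1 - γ) * (1 / 2 ^ k)) ≤
      (1 - δ) ^ k * Fintype.card (Fin k ↪ Fin n) := by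
    have h7 := mul_le_mul_of_nonneg_left h2 hγ0
    have h8 := mul_le_mul_of_nonneg_left h4 (mul_nonneg h5 (by linarith : (0 : ℝ) ≤ 1 - γ))
    nlinarith
  have h9 : (0 : ℝ) ≤ Fintype.card W * (1 / 2 ^ k) := by positivity
  calc _ ≤ (Fintype.card W * (1 / 2 ^ k) : ℝ) *
        ((1 - δ) ^ k * Fintype.card (Fin k ↪ Fin n)) := mul_le_mul_of_nonneg_left h6 h9
    _ = _ := by
        simp only [Fintype.card_prod, Nat.cast_mul]
        ring

theorem Moment_sum {n k : ℕ} (hk : k ≤ n) {W Λ : Type} [Fintype W] [Fintype Λ]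
    [DecidableEq Λ] (pat : Λ → W → Pat k)
    (h1 : ∀ l a, (#{w : W | pat l w = a} : ℝ) = Fintype.card W * (1 / 2 ^ k))
    (γ : Λ → Λ → ℝ) (hγ : ∀ l l', 0 ≤ γ l l' ∧ γ l l' ≤ 1)
    (h2 : ∀ l l', l ≠ l' → ∀ a b, (#{w : W | pat l w = a ∧ pat l' w = b} : ℝ) ≤
      Fintype.card W * (1 / 2 ^ k) *
        (γ l l' * (if a = b then 1 else 0) + (1 - γ l l') * (1 / 2 ^ k)))
    (δ : ℝ) (hδ0 : 0 ≤ δ) (hδ : δ ≤ 1 / 2)
    (hm : ((Fintype.card Λ : ℝ) - 1) * (1 - δ) ^ k ≤ 1 / 2) (σ : Λ → Asg n)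
    (hσ : ∀ l l', l ≠ l' → δ * n < (hammingDist (σ l) (σ l') : ℝ)) :
    ∑ y : (Fin k ↪ Fin n) × W,
      ((1 : ℝ) / 4) ^ #{l : Λ | Violated (σ l) (y.1, pat l y.2)} ≤
      Fintype.card ((Fin k ↪ Fin n) × W) *
        Real.exp (-(9 / 16) * Fintype.card Λ * (1 / 2 ^ k)) := by
  obtain ⟨N, hN⟩ : ∃ N : ℝ, N = Fintype.card ((Fin k ↪ Fin n) × W) := ⟨_, rfl⟩
  have hN0 : 0 ≤ N := by rw [hN]; positivity
  obtain ⟨m, hmdef⟩ : ∃ m : ℝ, m = Fintype.card Λ := ⟨_, rfl⟩
  have hm0 : 0 ≤ m := by rw [hmdef]; positivity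
  rw [← hN, ← hmdef]
  rw [← hmdef] at hm
  -- first moment
  have hfirst : ∑ y : (Fin k ↪ Fin n) × W,
      ((#{l : Λ | Violated (σ l) (y.1, pat l y.2)} : ℕ) : ℝ) = m * (N * (1 / 2 ^ k)) := by
    simp only [card_filter, Nat.cast_sum, Nat.cast_ite, Nat.cast_one, Nat.cast_zero]
    rw [sum_comm]
    have : ∀ l : Λ, ∑ y : (Fin k ↪ Fin n) × W,
        (if Violated (σ l) (y.1, pat l y.2) then (1 : ℝ) else 0) = N * (1 / 2 ^ k) := by
      intro l
      have h3 := Moment_single (pat l) (h1 l) (σ l)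
      rw [card_filter] at h3
      push_cast at h3
      rw [hN]
      convert h3 using 2
    rw [sum_congr rfl fun l _ => this l, sum_const, card_univ, nsmul_eq_mul, hmdef]
  -- second moment
  have hsecond : ∑ y : (Fin k ↪ Fin n) × W,
      (((#{l : Λ | Violated (σ l) (y.1, pat l y.2)} : ℕ) : ℝ) *
        (((#{l : Λ | Violated (σ l) (y.1, pat l y.2)} : ℕ) : ℝ) - 1)) ≤
        m * ((m - 1) * (N * (1 / 2 ^ k) * (1 - δ) ^ k)) := by
    have hid : ∀ y : (Fin k ↪ Fin n) × W,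
        (((#{l : Λ | Violated (σ l) (y.1, pat l y.2)} : ℕ) : ℝ) *
        (((#{l : Λ | Violated (σ l) (y.1, pat l y.2)} : ℕ) : ℝ) - 1)) =
        ∑ l : Λ, ∑ l' ∈ univ.erase l,
          (if Violated (σ l) (y.1, pat l y.2) ∧ Violated (σ l') (y.1, pat l' y.2) then (1 : ℝ)
            else 0) := by
      intro y
      have h3 : ∀ l : Λ, ∑ l' ∈ univ.erase l,
          (if Violated (σ l) (y.1, pat l y.2) ∧ Violated (σ l') (y.1, pat l' y.2) then (1 : ℝ)
            else 0) =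
          (if Violated (σ l) (y.1, pat l y.2) then (1 : ℝ) else 0) *
            (((#{l : Λ | Violated (σ l) (y.1, pat l y.2)} : ℕ) : ℝ) - 1) := by
        intro l
        by_cases hl : Violated (σ l) (y.1, pat l y.2)
        · simp only [hl, true_and, if_true, one_mul]
          rw [card_filter]
          push_cast
          rw [← add_sum_erase univ _ (mem_univ l)]
          simp [hl]
        · simp [hl]
      rw [sum_congr rfl fun l _ => h3 l, ← sum_mul]
      rw [card_filter]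
      push_cast
      rfl
    rw [sum_congr rfl fun y _ => hid y, sum_comm]
    have h4 : ∀ l : Λ, ∑ y : (Fin k ↪ Fin n) × W,
        ∑ l' ∈ univ.erase l,
          (if Violated (σ l) (y.1, pat l y.2) ∧ Violated (σ l') (y.1, pat l' y.2) then (1 : ℝ)
            else 0) ≤
        (m - 1) * (N * (1 / 2 ^ k) * (1 - δ) ^ k) := by
      intro l
      rw [sum_comm]
      have h5 : ∀ l' ∈ univ.erase l, ∑ y : (Fin k ↪ Fin n) × W,
          (if Violated (σ l) (y.1, pat l y.2) ∧ Violated (σ l') (y.1, pat l' y.2) then (1 : ℝ)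
            else 0) ≤
          N * (1 / 2 ^ k) * (1 - δ) ^ k := by
        intro l' hl'
        have hne : l ≠ l' := (ne_of_mem_erase hl').symm
        have h6 := Moment_pair hk (pat l) (pat l') (γ l l') (hγ l l').1 (hγ l l').2
          (h2 l l' hne) δ hδ0 hδ (σ l) (σ l') (hσ l l' hne)
        rw [card_filter] at h6
        push_cast at h6
        rw [hN]
        refine h6.trans (le_of_eq ?_)
        ring
      refine (sum_le_sum h5).trans (le_of_eq ?_)
      rw [sum_const, card_erase_of_mem (mem_univ l), card_univ, nsmul_eq_mul, hmdef]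
      have h7 : 1 ≤ Fintype.card Λ := Fintype.card_pos_iff.2 ⟨l⟩
      rw [Nat.cast_sub h7, Nat.cast_one]
    refine (sum_le_sum fun l _ => h4 l).trans (le_of_eq ?_)
    rw [sum_const, card_univ, nsmul_eq_mul, hmdef]
  have hpt : ∑ y : (Fin k ↪ Fin n) × W,
      ((1 : ℝ) / 4) ^ #{l : Λ | Violated (σ l) (y.1, pat l y.2)} ≤
      ∑ y : (Fin k ↪ Fin n) × W,
        (1 - (3 / 4) * (((#{l : Λ | Violated (σ l) (y.1, pat l y.2)} : ℕ) : ℝ) -
          ((#{l : Λ | Violated (σ l) (y.1, pat l y.2)} : ℕ) : ℝ) *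
          (((#{l : Λ | Violated (σ l) (y.1, pat l y.2)} : ℕ) : ℝ) - 1) / 2)) :=
    sum_le_sum fun y _ => Tuple_phi _
  refine hpt.trans ?_
  have hsplit : ∑ y : (Fin k ↪ Fin n) × W,
        (1 - (3 / 4) * (((#{l : Λ | Violated (σ l) (y.1, pat l y.2)} : ℕ) : ℝ) -
          ((#{l : Λ | Violated (σ l) (y.1, pat l y.2)} : ℕ) : ℝ) *
          (((#{l : Λ | Violated (σ l) (y.1, pat l y.2)} : ℕ) : ℝ) - 1) / 2)) =
      N - (3 / 4) * (m * (N * (1 / 2 ^ k))) +
        (3 / 8) * ∑ y : (Fin k ↪ Fin n) × W,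
      (((#{l : Λ | Violated (σ l) (y.1, pat l y.2)} : ℕ) : ℝ) *
        (((#{l : Λ | Violated (σ l) (y.1, pat l y.2)} : ℕ) : ℝ) - 1)) := by
    rw [← hfirst, hN]
    have hc : (Fintype.card ((Fin k ↪ Fin n) × W) : ℝ) =
        ∑ _y : (Fin k ↪ Fin n) × W, (1 : ℝ) := by
      rw [sum_const, card_univ, nsmul_eq_mul, mul_one]
    rw [hc, mul_sum, mul_sum, ← sum_sub_distrib, ← sum_add_distrib]
    apply sum_congr rfl
    intro y _
    ring
  rw [hsplit]
  have hq : (0 : ℝ) ≤ N * (1 / 2 ^ k) := by positivity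
  have hbound : m * ((m - 1) * (N * (1 / 2 ^ k) * (1 - δ) ^ k)) ≤
      m * (N * (1 / 2 ^ k)) * (1 / 2) := by
    have := mul_le_mul_of_nonneg_left hm (mul_nonneg hm0 hq)
    linarith
  have hexp : 1 - (9 / 16) * m * (1 / 2 ^ k : ℝ) ≤
      Real.exp (-(9 / 16) * m * (1 / 2 ^ k)) := by
    have := Real.add_one_le_exp (-(9 / 16) * m * (1 / 2 ^ k : ℝ))
    linarith
  have hfin := mul_le_mul_of_nonneg_left hexp hN0
  linarith

theorem moment {n k M : ℕ} (hk : k ≤ n) {W Λ : Type} [Fintype W] [Nonempty W] [Fintype Λ]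
    [Nonempty Λ] [DecidableEq Λ] (pat : Λ → W → Pat k)
    (h1 : ∀ l a, (#{w : W | pat l w = a} : ℝ) = Fintype.card W * (1 / 2 ^ k))
    (γ : Λ → Λ → ℝ) (hγ : ∀ l l', 0 ≤ γ l l' ∧ γ l l' ≤ 1)
    (h2 : ∀ l l', l ≠ l' → ∀ a b, (#{w : W | pat l w = a ∧ pat l' w = b} : ℝ) ≤
      Fintype.card W * (1 / 2 ^ k) *
        (γ l l' * (if a = b then 1 else 0) + (1 - γ l l') * (1 / 2 ^ k)))
    (δ : ℝ) (hδ0 : 0 ≤ δ) (hδ : δ ≤ 1 / 2)
    (hm : ((Fintype.card Λ : ℝ) - 1) * (1 - δ) ^ k ≤ 1 / 2) (σ : Λ → Asg n)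
    (hσ : ∀ l l', l ≠ l' → δ * n < (hammingDist (σ l) (σ l') : ℝ)) :
    (#{z : Fin M → (Fin k ↪ Fin n) × W |
        ∀ l, (#{j : Fin M | Violated (σ l) ((z j).1, pat l (z j).2)} : ℝ) ≤ M / 2 ^ k / 20} : ℝ) ≤
      Fintype.card (Fin M → (Fin k ↪ Fin n) × W) *
        Real.exp (-(49 / 100) * Fintype.card Λ * (M / 2 ^ k)) := by
  obtain ⟨E, hE⟩ : ∃ E : ℝ, E = M / 2 ^ k := ⟨_, rfl⟩
  have hE0 : 0 ≤ E := by rw [hE]; positivity
  obtain ⟨m, hmdef⟩ : ∃ m : ℝ, m = Fintype.card Λ := ⟨_, rfl⟩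
  have hm0 : 0 ≤ m := by rw [hmdef]; positivity
  rw [← hE, ← hmdef]
  have hpoint : ∀ z : Fin M → (Fin k ↪ Fin n) × W,
      (if ∀ l, (#{j : Fin M | Violated (σ l) ((z j).1, pat l (z j).2)} : ℝ) ≤ E / 20 then (1 : ℝ)
        else 0) ≤
      Real.exp (Real.log 4 * (m * (E / 20))) *
        ∏ j : Fin M, ((1 : ℝ) / 4) ^ #{l : Λ | Violated (σ l) ((z j).1, pat l (z j).2)} := by
    intro z
    split_ifs with h
    · rw [prod_pow_eq_pow_sum]
      have hs : ((∑ j : Fin M, #{l : Λ | Violated (σ l) ((z j).1, pat l (z j).2)} : ℕ) : ℝ) ≤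
          m * (E / 20) := by
        have h3 : (∑ j : Fin M, #{l : Λ | Violated (σ l) ((z j).1, pat l (z j).2)}) =
            ∑ l : Λ, #{j : Fin M | Violated (σ l) ((z j).1, pat l (z j).2)} := by
          simp only [card_filter]
          rw [sum_comm]
        rw [h3]
        push_cast
        calc ∑ l : Λ, (#{j : Fin M | Violated (σ l) ((z j).1, pat l (z j).2)} : ℝ)
            ≤ ∑ _l : Λ, E / 20 := sum_le_sum fun l _ => h l
          _ = m * (E / 20) := by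
              rw [sum_const, card_univ, nsmul_eq_mul, hmdef]
      have hlog : (0 : ℝ) ≤ Real.log 4 := Real.log_nonneg (by norm_num)
      have h2 : ((1 : ℝ) / 4) ^
          (∑ j : Fin M, #{l : Λ | Violated (σ l) ((z j).1, pat l (z j).2)}) =
          Real.exp (-(Real.log 4 *
            ((∑ j : Fin M, #{l : Λ | Violated (σ l) ((z j).1, pat l (z j).2)} : ℕ) : ℝ))) := by
        rw [Real.exp_neg, mul_comm (Real.log 4), Real.exp_nat_mul, Real.exp_log (by norm_num),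
          one_div, inv_pow]
      rw [h2, ← Real.exp_add]
      apply Real.one_le_exp
      have := mul_le_mul_of_nonneg_left hs hlog
      linarith
    · positivity
  have hcard : (Fintype.card (Fin M → (Fin k ↪ Fin n) × W) : ℝ) =
      (Fintype.card ((Fin k ↪ Fin n) × W) : ℝ) ^ M := by
    rw [Fintype.card_fun, Fintype.card_fin]
    exact Nat.cast_pow _ _
  have hsum : ∑ z : Fin M → (Fin k ↪ Fin n) × W,
      ∏ j : Fin M, ((1 : ℝ) / 4) ^ #{l : Λ | Violated (σ l) ((z j).1, pat l (z j).2)} =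
      (∑ y : (Fin k ↪ Fin n) × W,
        ((1 : ℝ) / 4) ^ #{l : Λ | Violated (σ l) (y.1, pat l y.2)}) ^ M := by
    rw [Fintype.sum_pow]
  have hmain := Moment_sum hk pat h1 γ hγ h2 δ hδ0 hδ hm σ hσ
  have hnn : (0 : ℝ) ≤ ∑ y : (Fin k ↪ Fin n) × W,
        ((1 : ℝ) / 4) ^ #{l : Λ | Violated (σ l) (y.1, pat l y.2)} := by
    apply sum_nonneg; intro y _; positivity
  have hpow := pow_le_pow_left₀ hnn hmain M
  have hexpM : Real.exp (-(9 / 16) * m * (1 / 2 ^ k)) ^ M =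
      Real.exp (-(9 / 16) * m * E) := by
    rw [← Real.exp_nat_mul, hE]
    congr 1
    ring
  rw [← hmdef, mul_pow, hexpM, ← hcard] at hpow
  have hnum2 : (#{z : Fin M → (Fin k ↪ Fin n) × W |
        ∀ l, (#{j : Fin M | Violated (σ l) ((z j).1, pat l (z j).2)} : ℝ) ≤ E / 20} : ℝ) =
      ∑ z : Fin M → (Fin k ↪ Fin n) × W,
        (if ∀ l, (#{j : Fin M | Violated (σ l) ((z j).1, pat l (z j).2)} : ℝ) ≤ E / 20 then (1 : ℝ)
          else 0) := by
    rw [card_filter]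
    push_cast
    rfl
  rw [hnum2]
  refine (sum_le_sum fun z _ => hpoint z).trans ?_
  rw [← mul_sum, hsum]
  have hcn : (0 : ℝ) ≤ Fintype.card (Fin M → (Fin k ↪ Fin n) × W) := Nat.cast_nonneg _
  refine (mul_le_mul_of_nonneg_left hpow (Real.exp_pos _).le).trans ?_
  rw [mul_left_comm]
  apply mul_le_mul_of_nonneg_left _ hcn
  rw [← Real.exp_add]
  apply Real.exp_le_exp.2
  have hlog4 : Real.log 4 ≤ 1.3863 := by
    have h4 : (4 : ℝ) = 2 ^ 2 := by norm_num
    rw [h4, Real.log_pow]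
    have := Real.log_two_lt_d9
    push_cast
    linarith
  have hmE : (0 : ℝ) ≤ m * E := by positivity
  have h3 := mul_le_mul_of_nonneg_right hlog4 hmE
  nlinarith

end Pool.Agent.KS
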