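import Pool.Agent.Lib.MP_f017c9_lc.DefsG
import Pool.Agent.Lib.MP_f017c9_lc.Moment
import Pool.Agent.Lib.MP_f017c9_lc.Box

/-!
# Module UF (Extract): one good step from a good cube
-/

namespace Pool.Agent.KS

open Finset

section Extract

variable {n k M r : ℕ}

/-- the base space -/
abbrev ExtZ (R : Type) (n k M r : ℕ) : Type :=
  R × (Fin M → (Fin k ↪ Fin n) × (Fin r × (Pat k × Pat k)))

/-- the cube of formulas of a point of the base space -/
def extF {R : Type} (z : ExtZ R n k M r) (T : Finset (Fin r)) : Formula n k M :=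
  cubeF (fun j => (z.2 j).1) (fun j => (z.2 j).2.1) (fun j => (z.2 j).2.2.1)
    (fun j => (z.2 j).2.2.2) T

theorem ext_card_prod {α β : Type*} [Fintype α] [Fintype β] (p : α → β → Prop)
    [∀ a, DecidablePred (p a)] :
    #{y : α × β | p y.1 y.2} = ∑ a, #{b : β | p a b} := by
  simp only [Finset.card_filter, Fintype.sum_prod_type]

/-- separation of the coordinates of the base space -/
def extEq1 (R : Type) (n k M r : ℕ) : ExtZ R n k M r ≃
    ((R × (Fin M → (Fin k ↪ Fin n))) × (Fin M → Fin r)) × ((Fin M → Pat k) × (Fin M → Pat k)) where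
  toFun z := (((z.1, fun j => (z.2 j).1), fun j => (z.2 j).2.1),
    (fun j => (z.2 j).2.2.1, fun j => (z.2 j).2.2.2))
  invFun y := (y.1.1.1, fun j => (y.1.1.2 j, (y.1.2 j, (y.2.1 j, y.2.2 j))))
  left_inv _ := rfl
  right_inv _ := rfl

/-- the formula at the vertex `T` and the data of the step -/
def extEq2 (R : Type) (n k M : ℕ) {r : ℕ} (T : Finset (Fin r)) : ExtZ R n k M r ≃
    (R × Formula n k M) × (Fin M → Fin r × Pat k) where
  toFun z := ((z.1, fun j => ((z.2 j).1,
      if (z.2 j).2.1 ∈ T then (z.2 j).2.2.2 else (z.2 j).2.2.1)),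
    fun j => ((z.2 j).2.1, if (z.2 j).2.1 ∈ T then (z.2 j).2.2.1 else (z.2 j).2.2.2))
  invFun y := (y.1.1, fun j => ((y.1.2 j).1, ((y.2 j).1,
    (if (y.2 j).1 ∈ T then (y.2 j).2 else (y.1.2 j).2,
      if (y.2 j).1 ∈ T then (y.1.2 j).2 else (y.2 j).2))))
  left_inv z := by
    refine Prod.ext rfl (funext fun j => ?_)
    refine Prod.ext rfl (Prod.ext rfl ?_)
    by_cases h : (z.2 j).2.1 ∈ T
    · simp [h]
    · simp [h]
  right_inv y := by
    refine Prod.ext (Prod.ext rfl (funext fun j => ?_)) (funext fun j => ?_)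
    · refine Prod.ext rfl ?_
      by_cases h : (y.2 j).1 ∈ T
      · simp [h]
      · simp [h]
    · refine Prod.ext rfl ?_
      by_cases h : (y.2 j).1 ∈ T
      · simp [h]
      · simp [h]

theorem ext_move {R : Type} (z : ExtZ R n k M r) (T T' : Finset (Fin r)) :
    moveJR (symmDiff T T') (extEq2 R n k M T z).1 (extEq2 R n k M T z).2 = (z.1, extF z T') := by
  refine Prod.ext rfl (funext fun j => ?_)
  refine Prod.ext rfl ?_
  show moveJ1 _ _ _ = _
  simp only [moveJ1, extEq2, Equiv.coe_fn_mk, extF, cubeF, Finset.mem_symmDiff]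
  by_cases h : (z.2 j).2.1 ∈ T <;> by_cases h' : (z.2 j).2.1 ∈ T' <;> simp [h, h']

theorem ext_card (R : Type) [Fintype R] (n k M r : ℕ) :
    (Fintype.card (ExtZ R n k M r) : ℝ) =
      Fintype.card (R × Formula n k M) * Fintype.card (Fin M → Fin r × Pat k) := by
  rw [Fintype.card_congr (extEq2 R n k M (∅ : Finset (Fin r))), Fintype.card_prod]
  push_cast
  rfl

theorem ext_pair {R : Type} [Fintype R] (A : R → Formula n k M → Asg n) (δ : ℝ)
    (T T' : Finset (Fin r)) :
    #{z : ExtZ R n k M r | (numViolated (A z.1 (extF z T)) (extF z T) : ℝ) ≤ M / 2 ^ k / 20 ∧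
      (numViolated (A z.1 (extF z T')) (extF z T') : ℝ) ≤ M / 2 ^ k / 20 ∧
      (hammingDist (A z.1 (extF z T)) (A z.1 (extF z T')) : ℝ) ≤ δ * n} =
    #{z : (R × Formula n k M) × (Fin M → Fin r × Pat k) |
          (numViolated (A z.1.1 z.1.2) z.1.2 : ℝ) ≤ M / 2 ^ k / 20 ∧
          (numViolated (A (moveJR (symmDiff T T') z.1 z.2).1 (moveJR (symmDiff T T') z.1 z.2).2)
            (moveJR (symmDiff T T') z.1 z.2).2 : ℝ) ≤ M / 2 ^ k / 20 ∧
          (hammingDist (A z.1.1 z.1.2) (A (moveJR (symmDiff T T') z.1 z.2).1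
            (moveJR (symmDiff T T') z.1 z.2).2) : ℝ) ≤ δ * n} := by
  refine Finset.card_equiv (extEq2 R n k M T) fun z => ?_
  simp only [Finset.mem_filter, Finset.mem_univ, true_and]
  rw [ext_move z T T']
  rfl

/-- the pattern of a clause at the vertex `T` -/
def extPat {k r : ℕ} (T : Finset (Fin r)) (w : Fin r × (Pat k × Pat k)) : Pat k :=
  if w.1 ∈ T then w.2.2 else w.2.1

theorem ext_h1 {k r : ℕ} (l : Finset (Fin r)) (a : Pat k) :
    (#{w : Fin r × (Pat k × Pat k) | extPat l w = a} : ℝ) =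
      Fintype.card (Fin r × (Pat k × Pat k)) * (1 / 2 ^ k) := by
  have h1 : ∀ i : Fin r, #{w : Pat k × Pat k | extPat l (i, w) = a} = 2 ^ k := by
    intro i
    by_cases hi : i ∈ l
    · have h2 : ({w : Pat k × Pat k | extPat l (i, w) = a} : Finset (Pat k × Pat k)) =
          Finset.univ ×ˢ {a} := by
        ext w
        simp only [extPat, hi, if_true, Finset.mem_filter, Finset.mem_univ, true_and,
          Finset.mem_product, Finset.mem_singleton]
      rw [h2, Finset.card_product]
      simp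
    · have h2 : ({w : Pat k × Pat k | extPat l (i, w) = a} : Finset (Pat k × Pat k)) =
          {a} ×ˢ Finset.univ := by
        ext w
        simp only [extPat, hi, if_false, Finset.mem_filter, Finset.mem_univ, true_and, and_true,
          Finset.mem_product, Finset.mem_singleton]
      rw [h2, Finset.card_product]
      simp
  have h2 : #{w : Fin r × (Pat k × Pat k) | extPat l w = a} = ∑ i : Fin r, 2 ^ k := by
    rw [← Finset.sum_congr rfl fun i _ => h1 i]
    exact ext_card_prod fun i (w : Pat k × Pat k) => extPat l (i, w) = a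
  rw [h2]
  simp only [Finset.sum_const, Finset.card_univ, Fintype.card_fin, smul_eq_mul, Fintype.card_prod,
    Fintype.card_fun, Fintype.card_bool]
  push_cast
  field_simp

theorem ext_h2 {k r : ℕ} (hr : 1 ≤ r) (l l' : Finset (Fin r)) (a b : Pat k) :
    (#{w : Fin r × (Pat k × Pat k) | extPat l w = a ∧ extPat l' w = b} : ℝ) =
      Fintype.card (Fin r × (Pat k × Pat k)) * (1 / 2 ^ k) *
        ((1 - ((symmDiff l l').card : ℝ) / r) * (if a = b then 1 else 0) +
          (1 - (1 - ((symmDiff l l').card : ℝ) / r)) * (1 / 2 ^ k)) := by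
  have h1 : ∀ i : Fin r, #{w : Pat k × Pat k | extPat l (i, w) = a ∧ extPat l' (i, w) = b} =
      if i ∈ symmDiff l l' then 1 else (if a = b then 2 ^ k else 0) := by
    intro i
    by_cases hi : i ∈ l <;> by_cases hi' : i ∈ l'
    · have h3 : i ∉ symmDiff l l' := by simp [Finset.mem_symmDiff, hi, hi']
      rw [if_neg h3]
      by_cases hab : a = b
      · subst hab
        have h2 : ({w : Pat k × Pat k | extPat l (i, w) = a ∧ extPat l' (i, w) = a} :
            Finset (Pat k × Pat k)) = Finset.univ ×ˢ {a} := by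
          ext w
          simp only [extPat, hi, hi', if_true, Finset.mem_filter, Finset.mem_univ, true_and,
            and_self, Finset.mem_product, Finset.mem_singleton]
        rw [h2, Finset.card_product]
        simp
      · rw [if_neg hab, Finset.card_eq_zero, Finset.filter_eq_empty_iff]
        rintro w - ⟨h4, h5⟩
        simp only [extPat, hi, hi', if_true] at h4 h5
        exact hab (h4.symm.trans h5)
    · have h3 : i ∈ symmDiff l l' := by simp [Finset.mem_symmDiff, hi, hi']
      rw [if_pos h3]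
      have h2 : ({w : Pat k × Pat k | extPat l (i, w) = a ∧ extPat l' (i, w) = b} :
          Finset (Pat k × Pat k)) = {(b, a)} := by
        ext w
        simp only [extPat, hi, hi', if_true, if_false, Finset.mem_filter, Finset.mem_univ,
          true_and, Finset.mem_singleton, Prod.ext_iff]
        exact and_comm
      rw [h2]
      simp
    · have h3 : i ∈ symmDiff l l' := by simp [Finset.mem_symmDiff, hi, hi']
      rw [if_pos h3]
      have h2 : ({w : Pat k × Pat k | extPat l (i, w) = a ∧ extPat l' (i, w) = b} :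
          Finset (Pat k × Pat k)) = {(a, b)} := by
        ext w
        simp only [extPat, hi, hi', if_true, if_false, Finset.mem_filter, Finset.mem_univ,
          true_and, Finset.mem_singleton, Prod.ext_iff]
      rw [h2]
      simp
    · have h3 : i ∉ symmDiff l l' := by simp [Finset.mem_symmDiff, hi, hi']
      rw [if_neg h3]
      by_cases hab : a = b
      · subst hab
        have h2 : ({w : Pat k × Pat k | extPat l (i, w) = a ∧ extPat l' (i, w) = a} :
            Finset (Pat k × Pat k)) = {a} ×ˢ Finset.univ := by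
          ext w
          simp only [extPat, hi, hi', if_false, Finset.mem_filter, Finset.mem_univ, true_and,
            and_self, and_true, Finset.mem_product, Finset.mem_singleton]
        rw [h2, Finset.card_product]
        simp
      · rw [if_neg hab, Finset.card_eq_zero, Finset.filter_eq_empty_iff]
        rintro w - ⟨h4, h5⟩
        simp only [extPat, hi, hi', if_false] at h4 h5
        exact hab (h4.symm.trans h5)
  have h2 : #{w : Fin r × (Pat k × Pat k) | extPat l w = a ∧ extPat l' w = b} =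
      ∑ i : Fin r, if i ∈ symmDiff l l' then 1 else (if a = b then 2 ^ k else 0) := by
    rw [← Finset.sum_congr rfl fun i _ => h1 i]
    exact ext_card_prod fun i (w : Pat k × Pat k) => extPat l (i, w) = a ∧ extPat l' (i, w) = b
  have hc : (symmDiff l l').card ≤ r := by
    have := Finset.card_le_univ (symmDiff l l')
    rwa [Fintype.card_fin] at this
  have h3 : (∑ i : Fin r, if i ∈ symmDiff l l' then 1 else (if a = b then 2 ^ k else 0)) =
      (symmDiff l l').card + (r - (symmDiff l l').card) * (if a = b then 2 ^ k else 0) := by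
    rw [Finset.sum_ite, Finset.sum_const, Finset.sum_const]
    have h4 : (Finset.univ.filter fun i => i ∈ symmDiff l l') = symmDiff l l' := by
      ext i; simp
    have h5 : (Finset.univ.filter fun i => i ∉ symmDiff l l') = (symmDiff l l')ᶜ := by
      ext i
      simp only [Finset.mem_filter, Finset.mem_univ, true_and, Finset.mem_compl]
    rw [h4, h5, Finset.card_compl, Fintype.card_fin]
    simp
  rw [h2, h3]
  have hr0 : (r : ℝ) ≠ 0 := by
    have : 0 < r := hr
    positivity
  push_cast [Nat.cast_sub hc]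
  simp only [Fintype.card_prod, Fintype.card_fin, Fintype.card_fun, Fintype.card_bool]
  push_cast
  split_ifs
  · field_simp
    ring
  · field_simp
    ring

theorem ext_sep (hk : k ≤ n) (hr : 1 ≤ r) {R : Type} [Fintype R] (A : R → Formula n k M → Asg n)
    (𝒢 : Finset (Finset (Fin r) → Bool))
    (hA : ∀ (u : R) (e : Fin M → (Fin k ↪ Fin n)) (i : Fin M → Fin r) (s s' : Fin M → Pat k)
      (v : Fin n), (fun T => A u (cubeF e i s s' T) v) ∈ 𝒢)
    (δ : ℝ) (hδ0 : 0 ≤ δ) (hδ : δ ≤ 1 / 2) (hm : ((2 : ℝ) ^ r - 1) * (1 - δ) ^ k ≤ 1 / 2) :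
    (#{z : ExtZ R n k M r |
        (∀ T, (numViolated (A z.1 (extF z T)) (extF z T) : ℝ) ≤ M / 2 ^ k / 20) ∧
        ∀ T T', T ≠ T' → δ * n < (hammingDist (A z.1 (extF z T)) (A z.1 (extF z T')) : ℝ)} : ℝ) ≤
      (𝒢.card : ℝ) ^ n * Real.exp (-(49 / 100) * 2 ^ r * (M / 2 ^ k)) *
        Fintype.card (ExtZ R n k M r) := by
  classical
  have : Nonempty (Fin r) := ⟨⟨0, hr⟩⟩
  have hr0 : (0 : ℝ) < r := by exact_mod_cast hr
  -- one family
  have key : ∀ g : Fin n → {x // x ∈ 𝒢},
      (∀ T T' : Finset (Fin r), T ≠ T' →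
        δ * n < (hammingDist (fun v => (g v).1 T) (fun v => (g v).1 T') : ℝ)) →
      (#{z : ExtZ R n k M r | ∀ T, (numViolated (fun v => (g v).1 T) (extF z T) : ℝ) ≤
        M / 2 ^ k / 20} : ℝ) ≤
      Real.exp (-(49 / 100) * 2 ^ r * (M / 2 ^ k)) * Fintype.card (ExtZ R n k M r) := by
    intro g hg
    have h1 := moment (M := M) hk (Λ := Finset (Fin r)) (W := Fin r × (Pat k × Pat k))
      (fun l w => extPat l w) (fun l a => ext_h1 l a)
      (fun l l' => 1 - ((symmDiff l l').card : ℝ) / r)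
      (fun l l' => by
        have hc : ((symmDiff l l').card : ℝ) ≤ r := by
          have := Finset.card_le_univ (symmDiff l l')
          rw [Fintype.card_fin] at this
          exact_mod_cast this
        have h2 : ((symmDiff l l').card : ℝ) / r ≤ 1 := (div_le_one hr0).mpr hc
        have h3 : 0 ≤ ((symmDiff l l').card : ℝ) / r := by positivity
        exact ⟨by linarith, by linarith⟩)
      (fun l l' _ a b => le_of_eq (ext_h2 hr l l' a b)) δ hδ0 hδ
      (by
        rw [Fintype.card_finset, Fintype.card_fin]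
        push_cast
        exact hm)
      (fun T v => (g v).1 T) hg
    have h2 : #{z : ExtZ R n k M r | ∀ T, (numViolated (fun v => (g v).1 T) (extF z T) : ℝ) ≤
        M / 2 ^ k / 20} = Fintype.card R * #{z : Fin M → (Fin k ↪ Fin n) ×
          (Fin r × (Pat k × Pat k)) | ∀ l, (#{j : Fin M | Violated (fun v => (g v).1 l)
            ((z j).1, extPat l (z j).2)} : ℝ) ≤ M / 2 ^ k / 20} := by
      have h3 := ext_card_prod (α := R) (β := Fin M → (Fin k ↪ Fin n) × (Fin r × (Pat k × Pat k)))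
        (fun _ z => ∀ l, (#{j : Fin M | Violated (fun v => (g v).1 l)
            ((z j).1, extPat l (z j).2)} : ℝ) ≤ M / 2 ^ k / 20)
      rw [Finset.sum_const, smul_eq_mul, Finset.card_univ] at h3
      exact h3
    rw [h2]
    push_cast
    have h4 := mul_le_mul_of_nonneg_left h1 (Nat.cast_nonneg (α := ℝ) (Fintype.card R))
    refine h4.trans (le_of_eq ?_)
    have h5 : (Fintype.card (ExtZ R n k M r) : ℝ) = Fintype.card R *
        Fintype.card (Fin M → (Fin k ↪ Fin n) × (Fin r × (Pat k × Pat k))) := by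
      rw [← Nat.cast_mul, ← Fintype.card_prod]
    rw [h5, Fintype.card_finset, Fintype.card_fin]
    push_cast
    ring
  -- the union
  set S := (Finset.univ : Finset (Fin n → {x // x ∈ 𝒢})).filter fun g =>
    ∀ T T' : Finset (Fin r), T ≠ T' →
      δ * n < (hammingDist (fun v => (g v).1 T) (fun v => (g v).1 T') : ℝ) with hS
  have h6 : (Finset.univ.filter fun z : ExtZ R n k M r =>
      (∀ T, (numViolated (A z.1 (extF z T)) (extF z T) : ℝ) ≤ M / 2 ^ k / 20) ∧
      ∀ T T', T ≠ T' → δ * n < (hammingDist (A z.1 (extF z T)) (A z.1 (extF z T')) : ℝ)) ⊆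
      S.biUnion fun g => Finset.univ.filter fun z : ExtZ R n k M r =>
        ∀ T, (numViolated (fun v => (g v).1 T) (extF z T) : ℝ) ≤ M / 2 ^ k / 20 := by
    intro z hz
    obtain ⟨h7, h8⟩ := (Finset.mem_filter.mp hz).2
    refine Finset.mem_biUnion.mpr
      ⟨fun v => ⟨fun T => A z.1 (extF z T) v, hA _ _ _ _ _ v⟩, ?_, ?_⟩
    · exact Finset.mem_filter.mpr ⟨Finset.mem_univ _, h8⟩
    · exact Finset.mem_filter.mpr ⟨Finset.mem_univ _, h7⟩
  have h9 := (Finset.card_le_card h6).trans Finset.card_biUnion_le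
  have h10 : (#{z : ExtZ R n k M r |
        (∀ T, (numViolated (A z.1 (extF z T)) (extF z T) : ℝ) ≤ M / 2 ^ k / 20) ∧
        ∀ T T', T ≠ T' → δ * n < (hammingDist (A z.1 (extF z T)) (A z.1 (extF z T')) : ℝ)} : ℝ) ≤
      ∑ g ∈ S, (#{z : ExtZ R n k M r | ∀ T, (numViolated (fun v => (g v).1 T) (extF z T) : ℝ) ≤
        M / 2 ^ k / 20} : ℝ) := by
    exact_mod_cast h9
  refine h10.trans ((Finset.sum_le_card_nsmul _ _ _ fun g hg =>
    key g (Finset.mem_filter.mp hg).2).trans ?_)
  rw [nsmul_eq_mul, ← mul_assoc]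
  apply mul_le_mul_of_nonneg_right _ (by positivity)
  apply mul_le_mul_of_nonneg_right _ (Real.exp_pos _).le
  have h11 : S.card ≤ 𝒢.card ^ n := by
    refine (Finset.card_le_univ S).trans (le_of_eq ?_)
    rw [Fintype.card_fun, Fintype.card_fin, Fintype.card_coe]
  exact_mod_cast h11

theorem ext_pos (hk : k ≤ n) (hr : 1 ≤ r) {R : Type} [Fintype R] [Nonempty R]
    (A : R → Formula n k M → Asg n) :
    (successProb A) ^ (2 ^ r) * Fintype.card (ExtZ R n k M r) ≤
      (#{z : ExtZ R n k M r |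
        ∀ T, (numViolated (A z.1 (extF z T)) (extF z T) : ℝ) ≤ M / 2 ^ k / 20} : ℝ) := by
  classical
  have : Nonempty (Fin r) := ⟨⟨0, hr⟩⟩
  have : Nonempty (Fin k ↪ Fin n) := ⟨Fin.castLEEmb hk⟩
  set C : ℝ := (Fintype.card (Fin M → Pat k) : ℝ) with hC
  have hCpos : 0 < C := by
    rw [hC]
    exact_mod_cast Fintype.card_pos
  -- the density for fixed seed and fixed variables
  set d : (R × (Fin M → (Fin k ↪ Fin n))) → ℝ := fun x =>
    (#{s : Fin M → Pat k | (numViolated (A x.1 fun j => (x.2 j, s j)) (fun j => (x.2 j, s j)) : ℝ) ≤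
      M / 2 ^ k / 20} : ℝ) / C with hd
  have hd0 : ∀ x, 0 ≤ d x := fun x => by
    simp only [hd]
    positivity
  -- the average density
  have h1 : ∑ x, d x = successProb A * Fintype.card (R × (Fin M → (Fin k ↪ Fin n))) := by
    have h2 : #{x : R × Formula n k M | (numViolated (A x.1 x.2) x.2 : ℝ) ≤ M / 2 ^ k / 20} =
        ∑ x : R × (Fin M → (Fin k ↪ Fin n)), #{s : Fin M → Pat k |
          (numViolated (A x.1 fun j => (x.2 j, s j)) (fun j => (x.2 j, s j)) : ℝ) ≤
            M / 2 ^ k / 20} := by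
      rw [← ext_card_prod fun (x : R × (Fin M → (Fin k ↪ Fin n))) (s : Fin M → Pat k) =>
        (numViolated (A x.1 fun j => (x.2 j, s j)) (fun j => (x.2 j, s j)) : ℝ) ≤ M / 2 ^ k / 20]
      refine Finset.card_equiv
        { toFun := fun x : R × Formula n k M => ((x.1, fun j => (x.2 j).1), fun j => (x.2 j).2)
          invFun := fun y => (y.1.1, fun j => (y.1.2 j, y.2 j))
          left_inv := fun _ => rfl
          right_inv := fun _ => rfl } fun x => ?_
      simp only [Finset.mem_filter, Finset.mem_univ, true_and]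
      rfl
    have h3 : (Fintype.card (R × Formula n k M) : ℝ) =
        Fintype.card (R × (Fin M → (Fin k ↪ Fin n))) * C := by
      rw [hC, ← Nat.cast_mul, ← Fintype.card_prod]
      congr 1
      exact Fintype.card_congr
        { toFun := fun x : R × Formula n k M => ((x.1, fun j => (x.2 j).1), fun j => (x.2 j).2)
          invFun := fun y => (y.1.1, fun j => (y.1.2 j, y.2 j))
          left_inv := fun _ => rfl
          right_inv := fun _ => rfl }
    have h4 : (0 : ℝ) < Fintype.card (R × (Fin M → (Fin k ↪ Fin n))) := by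
      exact_mod_cast Fintype.card_pos
    rw [successProb, h2, h3]
    simp only [hd]
    rw [← Finset.sum_div]
    push_cast
    have h5 : ∀ a X : ℝ, 0 < X → a / C = a / (X * C) * X := by
      intro a X hX
      field_simp
    exact h5 _ _ h4
  -- the count
  have h5 : #{z : ExtZ R n k M r |
        ∀ T, (numViolated (A z.1 (extF z T)) (extF z T) : ℝ) ≤ M / 2 ^ k / 20} =
      ∑ x : (R × (Fin M → (Fin k ↪ Fin n))) × (Fin M → Fin r),
        #{y : (Fin M → Pat k) × (Fin M → Pat k) | ∀ T,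
          (numViolated (A x.1.1 (cubeF x.1.2 x.2 y.1 y.2 T)) (cubeF x.1.2 x.2 y.1 y.2 T) : ℝ) ≤
            M / 2 ^ k / 20} := by
    rw [← ext_card_prod fun (x : (R × (Fin M → (Fin k ↪ Fin n))) × (Fin M → Fin r))
      (y : (Fin M → Pat k) × (Fin M → Pat k)) => ∀ T,
        (numViolated (A x.1.1 (cubeF x.1.2 x.2 y.1 y.2 T)) (cubeF x.1.2 x.2 y.1 y.2 T) : ℝ) ≤
          M / 2 ^ k / 20]
    refine Finset.card_equiv (extEq1 R n k M r) fun z => ?_
    simp only [Finset.mem_filter, Finset.mem_univ, true_and]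
    rfl
  have h6 : ∀ x : (R × (Fin M → (Fin k ↪ Fin n))) × (Fin M → Fin r),
      C ^ 2 * d x.1 ^ (2 ^ r) ≤ (#{y : (Fin M → Pat k) × (Fin M → Pat k) | ∀ T,
          (numViolated (A x.1.1 (cubeF x.1.2 x.2 y.1 y.2 T)) (cubeF x.1.2 x.2 y.1 y.2 T) : ℝ) ≤
            M / 2 ^ k / 20} : ℝ) := by
    intro x
    have h7 := box_pos (P := Pat k) x.2 fun s =>
      (numViolated (A x.1.1 fun j => (x.1.2 j, s j)) (fun j => (x.1.2 j, s j)) : ℝ) ≤
        M / 2 ^ k / 20
    rw [← hC, le_div_iff₀ (by positivity)] at h7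
    rw [mul_comm]
    exact h7
  have h8 : (#{z : ExtZ R n k M r |
        ∀ T, (numViolated (A z.1 (extF z T)) (extF z T) : ℝ) ≤ M / 2 ^ k / 20} : ℝ) ≥
      ∑ x : (R × (Fin M → (Fin k ↪ Fin n))) × (Fin M → Fin r), C ^ 2 * d x.1 ^ (2 ^ r) := by
    rw [h5]
    push_cast
    exact Finset.sum_le_sum fun x _ => h6 x
  refine le_trans ?_ h8
  -- the power mean inequality
  set X : ℝ := (Fintype.card (R × (Fin M → (Fin k ↪ Fin n))) : ℝ) with hX
  have hXpos : 0 < X := by
    rw [hX]
    exact_mod_cast Fintype.card_pos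
  have h9 := Real.pow_arith_mean_le_arith_mean_pow
    (Finset.univ : Finset (R × (Fin M → (Fin k ↪ Fin n)))) (fun _ => 1 / X) d
    (fun _ _ => by positivity)
    (by rw [Finset.sum_const, nsmul_eq_mul, Finset.card_univ, ← hX]; field_simp)
    (fun x _ => hd0 x) (2 ^ r)
  rw [← Finset.mul_sum, ← Finset.mul_sum, h1] at h9
  have h10 : 1 / X * (successProb A * X) = successProb A := by field_simp
  rw [h10] at h9
  have h11 : (Fintype.card (ExtZ R n k M r) : ℝ) = X * Fintype.card (Fin M → Fin r) * C ^ 2 := by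
    rw [Fintype.card_congr (extEq1 R n k M r), Fintype.card_prod, Fintype.card_prod,
      Fintype.card_prod (Fin M → Pat k) (Fin M → Pat k), hX, hC]
    push_cast
    ring
  rw [h11, Fintype.sum_prod_type]
  simp only [Finset.sum_const, nsmul_eq_mul, Finset.card_univ]
  rw [← Finset.mul_sum, ← Finset.mul_sum]
  have h12 := mul_le_mul_of_nonneg_left h9
    (show (0 : ℝ) ≤ X * Fintype.card (Fin M → Fin r) * C ^ 2 by positivity)
  calc (successProb A) ^ (2 ^ r) * (X * Fintype.card (Fin M → Fin r) * C ^ 2)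
      = X * Fintype.card (Fin M → Fin r) * C ^ 2 * (successProb A) ^ (2 ^ r) := by ring
    _ ≤ _ := h12
    _ = _ := by
      field_simp

end Extract

theorem extract {n k M r : ℕ} (hk : k ≤ n) (hr : 1 ≤ r) {R : Type} [Fintype R] [Nonempty R]
    (A : R → Formula n k M → Asg n) (𝒢 : Finset (Finset (Fin r) → Bool))
    (hA : ∀ (u : R) (e : Fin M → (Fin k ↪ Fin n)) (i : Fin M → Fin r) (s s' : Fin M → Pat k)
      (v : Fin n), (fun T => A u (cubeF e i s s' T) v) ∈ 𝒢)
    (δ : ℝ) (hδ0 : 0 ≤ δ) (hδ : δ ≤ 1 / 2) (hm : ((2 : ℝ) ^ r - 1) * (1 - δ) ^ k ≤ 1 / 2) :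
    ∃ J₀ : Finset (Fin r), J₀.Nonempty ∧
      (successProb A) ^ (2 ^ r) -
          (𝒢.card : ℝ) ^ n * Real.exp (-(49 / 100) * 2 ^ r * (M / 2 ^ k)) ≤
        4 ^ r * ((#{z : (R × Formula n k M) × (Fin M → Fin r × Pat k) |
          (numViolated (A z.1.1 z.1.2) z.1.2 : ℝ) ≤ M / 2 ^ k / 20 ∧
          (numViolated (A (moveJR J₀ z.1 z.2).1 (moveJR J₀ z.1 z.2).2)
            (moveJR J₀ z.1 z.2).2 : ℝ) ≤ M / 2 ^ k / 20 ∧
          (hammingDist (A z.1.1 z.1.2) (A (moveJR J₀ z.1 z.2).1 (moveJR J₀ z.1 z.2).2) : ℝ) ≤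
            δ * n} : ℝ) /
        (Fintype.card (R × Formula n k M) * Fintype.card (Fin M → Fin r × Pat k))) := by
  classical
  have : Nonempty (Fin r) := ⟨⟨0, hr⟩⟩
  have : Nonempty (Fin k ↪ Fin n) := ⟨Fin.castLEEmb hk⟩
  set π : Finset (Fin r) → ℝ := fun J₀ =>
    ((#{z : (R × Formula n k M) × (Fin M → Fin r × Pat k) |
          (numViolated (A z.1.1 z.1.2) z.1.2 : ℝ) ≤ M / 2 ^ k / 20 ∧
          (numViolated (A (moveJR J₀ z.1 z.2).1 (moveJR J₀ z.1 z.2).2)
            (moveJR J₀ z.1 z.2).2 : ℝ) ≤ M / 2 ^ k / 20 ∧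
          (hammingDist (A z.1.1 z.1.2) (A (moveJR J₀ z.1 z.2).1 (moveJR J₀ z.1 z.2).2) : ℝ) ≤
            δ * n} : ℝ) /
        (Fintype.card (R × Formula n k M) * Fintype.card (Fin M → Fin r × Pat k))) with hπ
  obtain ⟨J₀, hJ₀, hmax⟩ := Finset.exists_max_image
    ((Finset.univ : Finset (Finset (Fin r))).filter fun J => J.Nonempty) π
    ⟨Finset.univ, by simp [Finset.univ_nonempty]⟩
  refine ⟨J₀, (Finset.mem_filter.mp hJ₀).2, ?_⟩
  show _ ≤ 4 ^ r * π J₀
  set N : ℝ := (Fintype.card (ExtZ R n k M r) : ℝ) with hN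
  have hNpos : 0 < N := by
    rw [hN]
    exact_mod_cast Fintype.card_pos
  have hπ0 : 0 ≤ π J₀ := by
    rw [hπ]
    positivity
  have h1 := ext_pos hk hr A
  have h2 := ext_sep hk hr A 𝒢 hA δ hδ0 hδ hm
  have h3 : ∀ T T' : Finset (Fin r), T ≠ T' →
      (#{z : ExtZ R n k M r | (numViolated (A z.1 (extF z T)) (extF z T) : ℝ) ≤ M / 2 ^ k / 20 ∧
        (numViolated (A z.1 (extF z T')) (extF z T') : ℝ) ≤ M / 2 ^ k / 20 ∧
        (hammingDist (A z.1 (extF z T)) (A z.1 (extF z T')) : ℝ) ≤ δ * n} : ℝ) ≤ π J₀ * N := by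
    intro T T' hTT
    rw [ext_pair A δ T T']
    have h4 : π (symmDiff T T') ≤ π J₀ := by
      apply hmax
      simp only [Finset.mem_filter, Finset.mem_univ, true_and]
      rw [Finset.nonempty_iff_ne_empty]
      intro h0
      exact hTT (symmDiff_eq_bot.mp h0)
    have h5 := mul_le_mul_of_nonneg_right h4 hNpos.le
    refine le_trans (le_of_eq ?_) h5
    rw [hN, ext_card, hπ]
    have h6 : (Fintype.card (R × Formula n k M) * Fintype.card (Fin M → Fin r × Pat k) : ℝ) ≠ 0 := by
      rw [← ext_card, ← hN]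
      exact hNpos.ne'
    rw [div_mul_cancel₀ _ h6]
  -- the union bound
  have h7 : (#{z : ExtZ R n k M r |
        ∀ T, (numViolated (A z.1 (extF z T)) (extF z T) : ℝ) ≤ M / 2 ^ k / 20} : ℝ) ≤
      (#{z : ExtZ R n k M r |
        (∀ T, (numViolated (A z.1 (extF z T)) (extF z T) : ℝ) ≤ M / 2 ^ k / 20) ∧
        ∀ T T', T ≠ T' → δ * n < (hammingDist (A z.1 (extF z T)) (A z.1 (extF z T')) : ℝ)} : ℝ) +
      ∑ p ∈ (Finset.univ : Finset (Finset (Fin r))).offDiag,
        (#{z : ExtZ R n k M r | (numViolated (A z.1 (extF z p.1)) (extF z p.1) : ℝ) ≤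
            M / 2 ^ k / 20 ∧
          (numViolated (A z.1 (extF z p.2)) (extF z p.2) : ℝ) ≤ M / 2 ^ k / 20 ∧
          (hammingDist (A z.1 (extF z p.1)) (A z.1 (extF z p.2)) : ℝ) ≤ δ * n} : ℝ) := by
    have h8 := Finset.card_union_le
      (Finset.univ.filter fun z : ExtZ R n k M r =>
        (∀ T, (numViolated (A z.1 (extF z T)) (extF z T) : ℝ) ≤ M / 2 ^ k / 20) ∧
        ∀ T T', T ≠ T' → δ * n < (hammingDist (A z.1 (extF z T)) (A z.1 (extF z T')) : ℝ))
      ((Finset.univ : Finset (Finset (Fin r))).offDiag.biUnion fun p =>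
        Finset.univ.filter fun z : ExtZ R n k M r =>
          (numViolated (A z.1 (extF z p.1)) (extF z p.1) : ℝ) ≤ M / 2 ^ k / 20 ∧
          (numViolated (A z.1 (extF z p.2)) (extF z p.2) : ℝ) ≤ M / 2 ^ k / 20 ∧
          (hammingDist (A z.1 (extF z p.1)) (A z.1 (extF z p.2)) : ℝ) ≤ δ * n)
    have h9 := h8.trans (Nat.add_le_add_left Finset.card_biUnion_le _)
    have h10 : (Finset.univ.filter fun z : ExtZ R n k M r =>
        ∀ T, (numViolated (A z.1 (extF z T)) (extF z T) : ℝ) ≤ M / 2 ^ k / 20) ⊆ _ :=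
      fun z hz => by
        show z ∈ (Finset.univ.filter fun z : ExtZ R n k M r =>
          (∀ T, (numViolated (A z.1 (extF z T)) (extF z T) : ℝ) ≤ M / 2 ^ k / 20) ∧
          ∀ T T', T ≠ T' →
            δ * n < (hammingDist (A z.1 (extF z T)) (A z.1 (extF z T')) : ℝ)) ∪
          ((Finset.univ : Finset (Finset (Fin r))).offDiag.biUnion fun p =>
            Finset.univ.filter fun z : ExtZ R n k M r =>
              (numViolated (A z.1 (extF z p.1)) (extF z p.1) : ℝ) ≤ M / 2 ^ k / 20 ∧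
              (numViolated (A z.1 (extF z p.2)) (extF z p.2) : ℝ) ≤ M / 2 ^ k / 20 ∧
              (hammingDist (A z.1 (extF z p.1)) (A z.1 (extF z p.2)) : ℝ) ≤ δ * n)
        have hz' := (Finset.mem_filter.mp hz).2
        by_cases hs : ∀ T T', T ≠ T' →
            δ * n < (hammingDist (A z.1 (extF z T)) (A z.1 (extF z T')) : ℝ)
        · exact Finset.mem_union_left _ (Finset.mem_filter.mpr ⟨Finset.mem_univ _, hz', hs⟩)
        · push Not at hs
          obtain ⟨T, T', hTT, hd⟩ := hs
          refine Finset.mem_union_right _ (Finset.mem_biUnion.mpr ⟨(T, T'), ?_, ?_⟩)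
          · simp [Finset.mem_offDiag, hTT]
          · exact Finset.mem_filter.mpr ⟨Finset.mem_univ _, hz' T, hz' T', hd⟩
    have h11 := (Finset.card_le_card h10).trans h9
    exact_mod_cast h11
  have h12 : ∑ p ∈ (Finset.univ : Finset (Finset (Fin r))).offDiag,
        (#{z : ExtZ R n k M r | (numViolated (A z.1 (extF z p.1)) (extF z p.1) : ℝ) ≤
            M / 2 ^ k / 20 ∧
          (numViolated (A z.1 (extF z p.2)) (extF z p.2) : ℝ) ≤ M / 2 ^ k / 20 ∧
          (hammingDist (A z.1 (extF z p.1)) (A z.1 (extF z p.2)) : ℝ) ≤ δ * n} : ℝ) ≤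
      4 ^ r * (π J₀ * N) := by
    refine (Finset.sum_le_card_nsmul _ _ (π J₀ * N) fun p hp => ?_).trans ?_
    · exact h3 p.1 p.2 (Finset.mem_offDiag.mp hp).2.2
    · rw [nsmul_eq_mul]
      apply mul_le_mul_of_nonneg_right _ (by positivity)
      have h13 : ((Finset.univ : Finset (Finset (Fin r))).offDiag.card : ℝ) ≤
          ((2 ^ r * 2 ^ r : ℕ) : ℝ) := by
        have h14 : (Finset.univ : Finset (Finset (Fin r))).offDiag.card ≤ 2 ^ r * 2 ^ r := by
          rw [Finset.offDiag_card, Finset.card_univ, Fintype.card_finset, Fintype.card_fin]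
          exact Nat.sub_le _ _
        exact_mod_cast h14
      refine h13.trans (le_of_eq ?_)
      push_cast
      rw [← mul_pow]
      norm_num
  have h15 : (successProb A) ^ (2 ^ r) * N ≤
      ((𝒢.card : ℝ) ^ n * Real.exp (-(49 / 100) * 2 ^ r * (M / 2 ^ k)) + 4 ^ r * π J₀) * N := by
    calc (successProb A) ^ (2 ^ r) * N ≤ _ := h1
      _ ≤ _ := h7
      _ ≤ (𝒢.card : ℝ) ^ n * Real.exp (-(49 / 100) * 2 ^ r * (M / 2 ^ k)) * N +
          4 ^ r * (π J₀ * N) := add_le_add h2 h12
      _ = _ := by ring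
  have h16 := le_of_mul_le_mul_right h15 hNpos
  linarith

end Pool.Agent.KS
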