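import Pool.Agent.Lib.MP_f017c9_lc.DefsG

/-!
# The restrictions of a group-valued polynomial of degree `D` to a cube
-/

namespace Pool.Agent.KS

open Finset

/-- Moebius inversion on the Boolean lattice, existence. -/
private theorem family_moebius {r : ℕ} {G : Type} [AddCommGroup G]
    (f : Finset (Fin r) → G) :
    ∃ c : Finset (Fin r) → G, ∀ T, f T = ∑ U ∈ T.powerset, c U := by
  classical
  let c : Finset (Fin r) → G := fun T => Finset.strongInduction (p := fun _ => G)
    (fun T ih => f T - ∑ U ∈ T.ssubsets.attach, ih U.1 (mem_ssubsets.1 U.2)) T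
  have hc : ∀ T, c T = f T - ∑ U ∈ T.ssubsets, c U := by
    intro T
    have h := Finset.strongInduction_eq (p := fun _ => G)
      (fun T ih => f T - ∑ U ∈ T.ssubsets.attach, ih U.1 (mem_ssubsets.1 U.2)) T
    have h2 : c T = f T - ∑ U ∈ T.ssubsets.attach, c U.1 := h
    rw [h2, Finset.sum_attach T.ssubsets c]
  refine ⟨c, fun T => ?_⟩
  have h3 : ∑ U ∈ T.powerset, c U = c T + ∑ U ∈ T.ssubsets, c U := by
    rw [Finset.ssubsets, Finset.add_sum_erase _ _ (by simp)]
  rw [h3, hc T]
  abel

/-- functions on the cube of degree at most `D` -/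
private def FamilyGood {r : ℕ} {G : Type} [AddCommGroup G] (D : ℕ)
    (f : Finset (Fin r) → G) : Prop :=
  ∃ c : Finset (Fin r) → G, ∀ T, f T = ∑ U with U.card ≤ D, if U ⊆ T then c U else 0

private theorem family_good_sum {r : ℕ} {G : Type} [AddCommGroup G] {D : ℕ} {ι : Type}
    (S : Finset ι) (f : ι → Finset (Fin r) → G) (h : ∀ x ∈ S, FamilyGood D (f x)) :
    FamilyGood D (fun T => ∑ x ∈ S, f x T) := by
  classical
  choose! c hc using h
  refine ⟨fun U => ∑ x ∈ S, c x U, fun T => ?_⟩
  show ∑ x ∈ S, f x T = ∑ U with U.card ≤ D, if U ⊆ T then ∑ x ∈ S, c x U else 0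
  rw [Finset.sum_congr rfl fun x hx => hc x hx T, Finset.sum_comm]
  refine Finset.sum_congr rfl fun U _ => ?_
  split_ifs <;> simp

private theorem family_good_one {r : ℕ} {G : Type} [AddCommGroup G] {D : ℕ}
    (f : Finset (Fin r) → G) (U₀ : Finset (Fin r)) (h0 : U₀.card ≤ D)
    (hf : ∀ T, f T = f (T ∩ U₀)) : FamilyGood D f := by
  classical
  obtain ⟨c, hc⟩ := family_moebius f
  refine ⟨fun U => if U ⊆ U₀ then c U else 0, fun T => ?_⟩
  rw [hf T, hc]
  have h1 : (∑ U with U.card ≤ D, if U ⊆ T then (if U ⊆ U₀ then c U else 0) else 0) =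
      ∑ U with U.card ≤ D, if U ∈ (T ∩ U₀).powerset then c U else 0 := by
    refine Finset.sum_congr rfl fun U _ => ?_
    simp only [mem_powerset, subset_inter_iff]
    split_ifs <;> first | rfl | tauto
  rw [h1, ← Finset.sum_filter]
  refine Finset.sum_congr ?_ fun _ _ => rfl
  ext U
  simp only [mem_powerset, mem_filter, mem_univ, true_and]
  constructor
  · intro h
    exact ⟨(card_le_card (h.trans inter_subset_right)).trans h0, h⟩
  · exact fun h => h.2

private theorem family_card (r D : ℕ) :
    #{U : Finset (Fin r) | U.card ≤ D} = ∑ d ∈ range (D + 1), r.choose d := by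
  classical
  have h := Finset.card_eq_sum_card_fiberwise (s := {U : Finset (Fin r) | U.card ≤ D})
    (t := range (D + 1)) (f := fun U => U.card)
    (by
      intro U hU
      simp only [coe_filter, mem_univ, true_and, Set.mem_ofPred_eq] at hU
      simp only [coe_range, Set.mem_Iio]
      omega)
  rw [h]
  refine Finset.sum_congr rfl fun d hd => ?_
  have h2 : (({U : Finset (Fin r) | U.card ≤ D} : Finset (Finset (Fin r))).filter
      fun U => U.card = d) = powersetCard d univ := by
    ext U
    simp only [mem_filter, mem_univ, true_and, mem_powersetCard, subset_univ]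
    have : d < D + 1 := mem_range.1 hd
    constructor
    · exact fun h => h.2
    · exact fun h => ⟨by omega, h⟩
  rw [h2, card_powersetCard, card_univ, Fintype.card_fin]

theorem family {G : Type} [AddCommGroup G] [Fintype G] (r D : ℕ) :
    ∃ 𝒢 : Finset (Finset (Fin r) → Bool),
      (𝒢.card : ℝ) ≤ 2 ^ Fintype.card G *
        (Fintype.card G : ℝ) ^ (∑ d ∈ range (D + 1), r.choose d) ∧
      ∀ (M : ℕ) (P : Type) (φ : G → Bool) (h : Finset (Fin M) → (Fin M → P) → G),
        (∀ J s s', (∀ j ∈ J, s j = s' j) → h J s = h J s') →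
        ∀ (i : Fin M → Fin r) (s s' : Fin M → P),
          (fun T : Finset (Fin r) =>
            φ (∑ J with J.card ≤ D, h J (fun j => if i j ∈ T then s' j else s j))) ∈ 𝒢 := by
  classical
  let L : Finset (Finset (Fin r)) := {U : Finset (Fin r) | U.card ≤ D}
  let Φ : (G → Bool) × (L → G) → Finset (Fin r) → Bool := fun p T =>
    p.1 (∑ U : L, if U.1 ⊆ T then p.2 U else 0)
  refine ⟨univ.image Φ, ?_, ?_⟩
  · have h1 : (univ.image Φ).card ≤ 2 ^ Fintype.card G *
        (Fintype.card G) ^ (∑ d ∈ range (D + 1), r.choose d) := by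
      refine card_image_le.trans (le_of_eq ?_)
      rw [card_univ, Fintype.card_prod, Fintype.card_fun, Fintype.card_fun, Fintype.card_bool,
        Fintype.card_coe, ← family_card]
    exact_mod_cast h1
  · intro M P φ h hloc i s s'
    have hgood : FamilyGood D (fun T : Finset (Fin r) =>
        ∑ J with J.card ≤ D, h J (fun j => if i j ∈ T then s' j else s j)) := by
      refine family_good_sum _ (fun (J : Finset (Fin M)) (T : Finset (Fin r)) =>
        h J (fun j => if i j ∈ T then s' j else s j)) ?_
      intro J hJ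
      refine family_good_one _ (J.image i) (card_image_le.trans (mem_filter.1 hJ).2) ?_
      intro T
      refine hloc J _ _ fun j hj => ?_
      have : i j ∈ T ∩ J.image i ↔ i j ∈ T := by
        rw [mem_inter]
        exact ⟨fun h => h.1, fun h => ⟨h, mem_image_of_mem _ hj⟩⟩
      simp only [this]
    obtain ⟨c, hc⟩ := hgood
    refine mem_image.2 ⟨(φ, fun U => c U.1), mem_univ _, ?_⟩
    funext T
    simp only [Φ]
    have h2 : (∑ U : L, if U.1 ⊆ T then c U.1 else 0) =
        ∑ U ∈ L, if U ⊆ T then c U else 0 :=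
      Finset.sum_coe_sort L (fun U => if U ⊆ T then c U else 0)
    rw [h2, ← hc T]

end Pool.Agent.KS
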