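import Pool.Agent.Lib.MP_f017c9_lc.Run

/-!
# MP_f017c9_lc, project KSAT, module SH: choice of the parameters
-/

namespace Pool.Agent.KS

open Finset

lemma Numeric_log16 : Real.log 16 = 4 * Real.log 2 := by
  rw [show (16:ℝ) = 2 ^ 4 by norm_num, Real.log_pow]
  norm_num

lemma Numeric_log_eq {ε : ℝ} (hε : 0 < ε) : Real.log (16 / ε) = 4 * Real.log 2 + Real.log (1 / ε) := by
  rw [← Numeric_log16, ← Real.log_mul (by norm_num) (by positivity)]
  congr 1
  ring

lemma Numeric_log_inv_nonneg {ε : ℝ} (hε : 0 < ε) (hε1 : ε ≤ 1) : 0 ≤ Real.log (1 / ε) :=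
  Real.log_nonneg (by rw [le_div_iff₀ hε]; linarith)

lemma Numeric_u_lb {ε : ℝ} (hε : 0 < ε) (hε1 : ε ≤ 1) : 2.77 ≤ Real.log (16 / ε) := by
  have h1 := Numeric_log_inv_nonneg hε hε1
  have h2 := Real.log_two_gt_d9
  rw [Numeric_log_eq hε]
  linarith

lemma Numeric_u_ub {ε : ℝ} (hε : 0 < ε) (hε1 : ε ≤ 1) : Real.log (16 / ε) ≤ 2.773 / ε := by
  have h1 : Real.log (1 / ε) ≤ 1 / ε - 1 := Real.log_le_sub_one_of_pos (by positivity)
  have h2 := Real.log_two_lt_d9
  have h3 : 1 ≤ 1 / ε := by rw [le_div_iff₀ hε]; linarith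
  rw [Numeric_log_eq hε]
  have h4 : (2.773 : ℝ) / ε = 2.773 * (1 / ε) := by ring
  rw [h4]
  linarith

theorem delta_facts (ε : ℝ) (hε : 0 < ε) (hε1 : ε ≤ 1) :
    0 < ε / (16 * Real.log (16 / ε)) ∧ ε / (16 * Real.log (16 / ε)) ≤ 1 / 4 ∧
      ∀ n : ℕ, 2 * (ε / (16 * Real.log (16 / ε)) * n) *
          Real.log (1 / (2 * (ε / (16 * Real.log (16 / ε))))) +
        2 * (ε / (16 * Real.log (16 / ε))) * n ≤ ε * n / 4 := by
  have hu := Numeric_u_lb hε hε1
  set u := Real.log (16 / ε) with hudef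
  have hu0 : 0 < u := by linarith
  refine ⟨by positivity, ?_, ?_⟩
  · rw [div_le_div_iff₀ (by positivity) (by norm_num)]
    nlinarith
  · intro n
    have h1 : 1 / (2 * (ε / (16 * u))) = (16 / ε) * (u / 2) := by
      field_simp
    have h2 : Real.log (1 / (2 * (ε / (16 * u)))) = u + Real.log (u / 2) := by
      rw [h1, Real.log_mul (by positivity) (by positivity)]
    have h3 : Real.log (u / 2) ≤ u / 2 - 1 := Real.log_le_sub_one_of_pos (by positivity)
    have hn : (0:ℝ) ≤ n := Nat.cast_nonneg n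
    rw [h2]
    have h4 : 2 * (ε / (16 * u) * n) * (u + Real.log (u / 2)) ≤
        2 * (ε / (16 * u) * n) * (u + (u / 2 - 1)) :=
      mul_le_mul_of_nonneg_left (by linarith) (by positivity)
    have h5 : 2 * (ε / (16 * u) * n) * (u + (u / 2 - 1)) + 2 * (ε / (16 * u)) * n =
        3 / 16 * (ε * n) := by
      field_simp
      ring
    have h6 : 0 ≤ ε * n := by positivity
    linarith

theorem delta_pow (ε : ℝ) (hε : 0 < ε) (hε1 : ε ≤ 1) (k m : ℕ) (hm : (m : ℝ) ≤ 7 / ε)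
    (hk : 16 * Real.log (16 / ε) ^ 2 ≤ ε * k) :
    (m : ℝ) * (1 - ε / (16 * Real.log (16 / ε))) ^ k ≤ 1 / 2 := by
  obtain ⟨hd0, hd1, -⟩ := delta_facts ε hε hε1
  have hu := Numeric_u_lb hε hε1
  set u := Real.log (16 / ε) with hudef
  have hu0 : 0 < u := by linarith
  set d := ε / (16 * u) with hd
  have h1 : (1 - d) ^ k ≤ Real.exp (-u) := by
    have h2 : (1 - d) ≤ Real.exp (-d) := by
      have := Real.add_one_le_exp (-d)
      linarith
    calc (1 - d) ^ k ≤ Real.exp (-d) ^ k := pow_le_pow_left₀ (by linarith) h2 k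
      _ = Real.exp (k * (-d)) := (Real.exp_nat_mul _ _).symm
      _ ≤ Real.exp (-u) := by
        apply Real.exp_le_exp.mpr
        have : u ≤ k * d := by
          rw [hd, mul_div_assoc', le_div_iff₀ (by positivity)]
          nlinarith
        linarith
  have h3 : Real.exp (-u) = ε / 16 := by
    rw [Real.exp_neg, hudef, Real.exp_log (by positivity)]
    field_simp
  rw [h3] at h1
  have hm0 : (0:ℝ) ≤ m := Nat.cast_nonneg m
  calc (m : ℝ) * (1 - d) ^ k ≤ 7 / ε * (ε / 16) :=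
        mul_le_mul hm h1 (pow_nonneg (by linarith) k) (by positivity)
    _ = 7 / 16 := by field_simp
    _ ≤ 1 / 2 := by norm_num

lemma Numeric_q {q : ℝ} (hq : 0 < q) (hq1 : q ≤ 1) : Real.exp (-(1.43 / q)) ≤ q ^ 2 / 2 := by
  have h1 : Real.log (1 / q) ≤ (1 / q) / Real.exp 1 := by
    have := Real.add_one_le_exp (Real.log (1 / q) - 1)
    rw [Real.exp_sub, Real.exp_log (by positivity)] at this
    linarith
  have he : (2.718 : ℝ) ≤ Real.exp 1 := by
    have := Real.exp_one_gt_d9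
    linarith
  have h2 : (1 / q) / Real.exp 1 ≤ (1 / q) / 2.718 :=
    div_le_div_of_nonneg_left (by positivity) (by norm_num) he
  have h3 := Real.log_two_lt_d9
  have h4 : 1 ≤ 1 / q := by rw [le_div_iff₀ hq]; linarith
  have h5 : Real.log (1 / q) = - Real.log q := by
    rw [one_div, Real.log_inv]
  rw [← Real.le_log_iff_exp_le (by positivity), Real.log_div (by positivity) (by norm_num),
    Real.log_pow]
  have h6 : (1.43 : ℝ) / q = 1.43 * (1 / q) := by ring
  rw [h6]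
  rw [h5] at h1
  have h7 : (1 / q) / 2.718 ≤ 0.368 * (1 / q) := by
    rw [div_le_iff₀ (by norm_num)]
    nlinarith
  push_cast
  linarith

/-- the bound of `K` -/
lemma Numeric_K {ε q : ℝ} (hε : 0 < ε) (hε1 : ε ≤ 1) (hq : 0 < q) {n m K : ℕ} {s : ℝ}
    (hn : 1 ≤ n) (hm : (m : ℝ) ≤ 7 / ε) (hs : s < ε ^ 4 * q ^ 3 * n ^ 2 / 10 ^ 5) (hs0 : 0 ≤ s)
    (hK : (K : ℝ) ≤ 4 * m * (2 * s / (q ^ 2 * (ε / (16 * Real.log (16 / ε)) * n)) + 2)) :
    (K : ℝ) ≤ 0.0252 * (ε * q * n) + 56 / ε := by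
  have hn0 : (0:ℝ) < n := by exact_mod_cast hn
  have hu := Numeric_u_lb hε hε1
  have hu' := Numeric_u_ub hε hε1
  set u := Real.log (16 / ε) with hudef
  have hu0 : 0 < u := by linarith
  have hd : ε ^ 2 / 45 ≤ ε / (16 * u) := by
    rw [div_le_div_iff₀ (by norm_num) (by positivity)]
    rw [le_div_iff₀ hε] at hu'
    nlinarith
  have h1 : 2 * s / (q ^ 2 * (ε / (16 * u) * n)) ≤ 90 * (ε ^ 2 * q * n) / 10 ^ 5 := by
    have h2 : q ^ 2 * (ε ^ 2 / 45 * n) ≤ q ^ 2 * (ε / (16 * u) * n) := by gcongr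
    calc 2 * s / (q ^ 2 * (ε / (16 * u) * n)) ≤ 2 * s / (q ^ 2 * (ε ^ 2 / 45 * n)) :=
          div_le_div_of_nonneg_left (by positivity) (by positivity) h2
      _ ≤ 2 * (ε ^ 4 * q ^ 3 * n ^ 2 / 10 ^ 5) / (q ^ 2 * (ε ^ 2 / 45 * n)) := by gcongr
      _ = 90 * (ε ^ 2 * q * n) / 10 ^ 5 := by
          field_simp
          ring
  calc (K : ℝ) ≤ 4 * m * (2 * s / (q ^ 2 * (ε / (16 * u) * n)) + 2) := hK
    _ ≤ 4 * (7 / ε) * (90 * (ε ^ 2 * q * n) / 10 ^ 5 + 2) := by gcongr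
    _ = 0.0252 * (ε * q * n) + 56 / ε := by
        field_simp
        ring

set_option maxHeartbeats 4000000 in
theorem numeric (ε q : ℝ) (hε : 0 < ε) (hε1 : ε ≤ 1) (hq : 0 < q) (hq1 : q ≤ 1) :
    ∃ n₀ : ℕ, ∀ n ≥ n₀, ∀ (m K : ℕ) (E s : ℝ), 6 / ε ≤ m → (m : ℝ) ≤ 7 / ε → ε * n ≤ E →
      s < ε ^ 4 * q ^ 3 * n ^ 2 / 10 ^ 5 → 0 ≤ s →
      (K : ℝ) ≤ 4 * m * (2 * s / (q ^ 2 * (ε / (16 * Real.log (16 / ε)) * n)) + 2) →
      (K + 1) ^ 2 * (Real.exp (ε * n / 4) * Real.exp (-(49 / 100) * E)) +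
        (K + 1) ^ (m + 1) * ((2 ^ n * (m * Real.exp (ε * n / 4)) ^ m) *
          Real.exp (-(49 / 100) * (m + 1) * E)) < (q ^ 2 / 2) ^ K := by
  obtain ⟨n₀, hn₀⟩ := exists_nat_gt (1 + 20000 * (1 + 399 / ε ^ 2) / ε ^ 2 +
    (1 + 81 / (ε * q)) * 10 / ε)
  refine ⟨n₀, ?_⟩
  intro n hn m K E s hm6 hm7 hE hs hs0 hK
  have hnR : (1 + 20000 * (1 + 399 / ε ^ 2) / ε ^ 2 + (1 + 81 / (ε * q)) * 10 / ε) < (n : ℝ) :=
    hn₀.trans_le (by exact_mod_cast hn)
  have hp1 : 0 < 20000 * (1 + 399 / ε ^ 2) / ε ^ 2 := by positivity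
  have hp2 : 0 < (1 + 81 / (ε * q)) * 10 / ε := by positivity
  have hn1 : (1:ℝ) < n := by linarith
  have hn1' : 1 ≤ n := by exact_mod_cast hn1.le
  have hn0 : (0:ℝ) < n := by linarith
  have hA : 20000 * (1 + 399 / ε ^ 2) / ε ^ 2 ≤ (n : ℝ) := by linarith
  have hB : (1 + 81 / (ε * q)) * 10 / ε ≤ (n : ℝ) := by linarith
  have hKb := Numeric_K hε hε1 hq hn1' hm7 hs hs0 hK
  have hm0 : (1:ℝ) ≤ m := by
    have : (6:ℝ) ≤ 6 / ε := by rw [le_div_iff₀ hε]; linarith
    linarith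
  have hm6' : (6:ℝ) ≤ m := by
    have : (6:ℝ) ≤ 6 / ε := by rw [le_div_iff₀ hε]; linarith
    linarith
  have hK0 : (0:ℝ) ≤ K := Nat.cast_nonneg K
  set x : ℝ := ε * n with hx
  have hx0 : 0 < x := by positivity
  have hE0 : 0 < E := hx0.trans_le hE
  -- `m (K + 1) ≤ exp (x / 100)`
  have hmK : (m : ℝ) * (K + 1) ≤ Real.exp (x / 100) := by
    have h1 : (m : ℝ) * (K + 1) ≤ 7 / ε * (0.0252 * x + 57 / ε) := by
      have h2 : (K : ℝ) + 1 ≤ 0.0252 * x + 57 / ε := by
        have h3 : ε * q * n ≤ x := by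
          rw [hx]
          nlinarith [mul_pos hε hn0]
        have h4 : (1:ℝ) ≤ 1 / ε := by rw [le_div_iff₀ hε]; linarith
        have h5 : (57:ℝ) / ε = 56 / ε + 1 / ε := by ring
        rw [h5]
        nlinarith
      exact mul_le_mul hm7 h2 (by positivity) (by positivity)
    have h6 : 7 / ε * (0.0252 * x + 57 / ε) ≤ (1 + 399 / ε ^ 2) * n := by
      have e1 : 7 / ε * (0.0252 * x + 57 / ε) = 0.1764 * n + 399 / ε ^ 2 := by
        rw [hx]
        field_simp
        ring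
      rw [e1]
      have h7 : 0 < 399 / ε ^ 2 := by positivity
      nlinarith
    have h8 : (1 + 399 / ε ^ 2) * n ≤ (x / 100) ^ 2 / 2 := by
      rw [div_le_iff₀ (by positivity)] at hA
      rw [hx]
      nlinarith
    have h9 := Real.quadratic_le_exp_of_nonneg (x := x / 100) (by positivity)
    have h10 : 0 < x / 100 := by positivity
    linarith
  have hK1 : (K : ℝ) + 1 ≤ Real.exp (x / 100) := by
    have : (K : ℝ) + 1 ≤ m * (K + 1) := by nlinarith
    linarith
  -- the first term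
  have hT1 : ((K : ℝ) + 1) ^ 2 * (Real.exp (x / 4) * Real.exp (-(49 / 100) * E)) ≤
      Real.exp (-(0.22 * x)) := by
    calc ((K : ℝ) + 1) ^ 2 * (Real.exp (x / 4) * Real.exp (-(49 / 100) * E))
        ≤ Real.exp (x / 100) ^ 2 * (Real.exp (x / 4) * Real.exp (-(49 / 100) * x)) := by
          gcongr ?_ ^ 2 * (Real.exp (x / 4) * Real.exp ?_)
          nlinarith
      _ = Real.exp (2 * (x / 100) + (x / 4 + -(49 / 100) * x)) := by
          rw [← Real.exp_add, Real.exp_add (2 * (x / 100)), ← Real.exp_nat_mul]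
          norm_num
      _ = Real.exp (-(0.22 * x)) := by
          congr 1
          ring
  -- the second term
  have h2n : (2:ℝ) ^ n ≤ Real.exp (0.1156 * ((m + 1) * E)) := by
    have h1 : (2:ℝ) ^ n = Real.exp (n * Real.log 2) := by
      rw [Real.exp_nat_mul, Real.exp_log (by norm_num)]
    rw [h1]
    apply Real.exp_le_exp.mpr
    have h2 := Real.log_two_lt_d9
    have h3 : (n : ℝ) ≤ (m + 1) * E / 6 := by
      have h4 : (n : ℝ) ≤ E / ε := by rw [le_div_iff₀ hε, mul_comm]; exact hE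
      have h5 : E / ε ≤ m / 6 * E := by
        have : 1 / ε ≤ m / 6 := by
          have e : 1 / ε = (6 / ε) / 6 := by ring
          rw [e]
          linarith
        calc E / ε = 1 / ε * E := by ring
          _ ≤ m / 6 * E := by gcongr
      have h5' : (m : ℝ) / 6 * E ≤ (m + 1) * E / 6 := by linarith
      linarith
    have h6 : (n : ℝ) * Real.log 2 ≤ n * 0.6932 := by
      apply mul_le_mul_of_nonneg_left _ hn0.le
      linarith
    have h7 : 0 ≤ ((m : ℝ) + 1) * E := by positivity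
    linarith
  have hT2 : ((K : ℝ) + 1) ^ (m + 1) * ((2 ^ n * (m * Real.exp (x / 4)) ^ m) *
      Real.exp (-(49 / 100) * (m + 1) * E)) ≤ Real.exp (-(0.22 * x)) := by
    have h1 : Real.exp (x / 4) ^ m ≤ Real.exp (0.25 * ((m + 1) * E)) := by
      rw [← Real.exp_nat_mul]
      apply Real.exp_le_exp.mpr
      nlinarith
    have h2 : (m : ℝ) ^ m ≤ (m : ℝ) ^ (m + 1) := pow_le_pow_right₀ hm0 (Nat.le_succ m)
    calc ((K : ℝ) + 1) ^ (m + 1) * ((2 ^ n * (m * Real.exp (x / 4)) ^ m) *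
          Real.exp (-(49 / 100) * (m + 1) * E))
        = ((K : ℝ) + 1) ^ (m + 1) * ((2 ^ n * (m ^ m * Real.exp (x / 4) ^ m)) *
          Real.exp (-(49 / 100) * (m + 1) * E)) := by rw [mul_pow]
      _ ≤ ((K : ℝ) + 1) ^ (m + 1) * ((Real.exp (0.1156 * ((m + 1) * E)) *
          (m ^ (m + 1) * Real.exp (0.25 * ((m + 1) * E)))) *
          Real.exp (-(49 / 100) * (m + 1) * E)) := by gcongr
      _ = (m * (K + 1)) ^ (m + 1) * Real.exp (-(0.1244 * ((m + 1) * E))) := by
          have e : Real.exp (-(0.1244 * ((m + 1) * E))) = Real.exp (0.1156 * ((m + 1) * E)) *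
              Real.exp (0.25 * ((m + 1) * E)) * Real.exp (-(49 / 100) * (m + 1) * E) := by
            rw [← Real.exp_add, ← Real.exp_add]
            congr 1
            ring
          rw [e, mul_pow]
          ring
      _ ≤ Real.exp (x / 100) ^ (m + 1) * Real.exp (-(0.1244 * ((m + 1) * x))) := by
          gcongr
      _ = Real.exp (-((m + 1) * (0.1144 * x))) := by
          rw [← Real.exp_nat_mul, ← Real.exp_add]
          congr 1
          push_cast
          ring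
      _ ≤ Real.exp (-(0.22 * x)) := by
          apply Real.exp_le_exp.mpr
          nlinarith
  -- the right side
  have hR : Real.exp (-(0.0361 * x + 81 / (ε * q))) ≤ (q ^ 2 / 2) ^ K := by
    calc Real.exp (-(0.0361 * x + 81 / (ε * q))) ≤ Real.exp (K * (-(1.43 / q))) := by
          apply Real.exp_le_exp.mpr
          have h1 : (K : ℝ) * (1.43 / q) ≤ (0.0252 * (ε * q * n) + 56 / ε) * (1.43 / q) := by
            gcongr
          have h2 : (0.0252 * (ε * q * n) + 56 / ε) * (1.43 / q) =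
              0.036036 * x + 80.08 / (ε * q) := by
            rw [hx]
            field_simp
            ring
          have h3 : (80.08:ℝ) / (ε * q) ≤ 81 / (ε * q) := by gcongr; norm_num
          nlinarith
      _ = Real.exp (-(1.43 / q)) ^ K := Real.exp_nat_mul _ _
      _ ≤ (q ^ 2 / 2) ^ K := pow_le_pow_left₀ (Real.exp_pos _).le (Numeric_q hq hq1) K
  have hfin : 2 * Real.exp (-(0.22 * x)) < Real.exp (-(0.0361 * x + 81 / (ε * q))) := by
    have h1 : (2:ℝ) < Real.exp 1 := by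
      have := Real.exp_one_gt_d9
      linarith
    calc 2 * Real.exp (-(0.22 * x)) < Real.exp 1 * Real.exp (-(0.22 * x)) := by
          apply mul_lt_mul_of_pos_right h1 (Real.exp_pos _)
      _ = Real.exp (1 - 0.22 * x) := by
          rw [← Real.exp_add]
          congr 1
      _ ≤ Real.exp (-(0.0361 * x + 81 / (ε * q))) := by
          apply Real.exp_le_exp.mpr
          rw [div_le_iff₀ hε] at hB
          have h3 : (1 + 81 / (ε * q)) * 10 ≤ x := by
            rw [hx]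
            linarith
          linarith
  calc ((K : ℝ) + 1) ^ 2 * (Real.exp (x / 4) * Real.exp (-(49 / 100) * E)) +
        ((K : ℝ) + 1) ^ (m + 1) * ((2 ^ n * (m * Real.exp (x / 4)) ^ m) *
          Real.exp (-(49 / 100) * (m + 1) * E))
      ≤ 2 * Real.exp (-(0.22 * x)) := by linarith
    _ < Real.exp (-(0.0361 * x + 81 / (ε * q))) := hfin
    _ ≤ (q ^ 2 / 2) ^ K := hR

end Pool.Agent.KS
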