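import Pool.Agent.Lib.MP_f017c9_lc.Run

/-!
# One step of the walk: positivity and the expected change of the output
-/

namespace Pool.Agent.KS

open Finset

/-- new signs `y` on the clauses in `J` -/
def pairSet {n k M : ℕ} (F : Formula n k M) (J : Finset (Fin M)) (y : Fin M → Pat k) :
    Formula n k M :=
  fun j => ((F j).1, if j ∈ J then y j else (F j).2)

/-- the old signs on `J` -/
def pairOld {n k M : ℕ} (F : Formula n k M) (J : Finset (Fin M)) (y : Fin M → Pat k) :
    Fin M → Pat k :=
  fun j => if j ∈ J then (F j).2 else y j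

lemma pair_invol_sum {α : Type*} [Fintype α] {e : α → α} (he : Function.Involutive e)
    (g : α → ℝ) : ∑ x, g (e x) = ∑ x, g x :=
  Equiv.sum_comp he.toPerm g

lemma pair_invol_sum2 {α β : Type*} [Fintype α] [Fintype β] {e : α × β → α × β}
    (he : Function.Involutive e) (g : α × β → ℝ) :
    ∑ x, ∑ y, g (e (x, y)) = ∑ x, ∑ y, g (x, y) := by
  have h := pair_invol_sum he g
  rwa [Fintype.sum_prod_type, Fintype.sum_prod_type] at h

lemma pair_set_invol {n k M : ℕ} (J : Finset (Fin M)) :
    Function.Involutive (fun z : Formula n k M × (Fin M → Pat k) =>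
      (pairSet z.1 J z.2, pairOld z.1 J z.2)) := by
  rintro ⟨F, y⟩
  refine Prod.ext ?_ ?_
  · funext j
    refine Prod.ext rfl ?_
    by_cases h : j ∈ J <;> simp [pairSet, pairOld, h]
  · funext j
    by_cases h : j ∈ J <;> simp [pairSet, pairOld, h]

lemma pair_set_set {n k M : ℕ} (F : Formula n k M) (J : Finset (Fin M))
    (y z : Fin M → Pat k) : pairSet (pairSet F J z) J y = pairSet F J y := by
  funext j
  refine Prod.ext rfl ?_
  by_cases h : j ∈ J <;> simp [pairSet, h]

lemma pair_set_insert {n k M : ℕ} (F : Formula n k M) (J : Finset (Fin M)) (j : Fin M)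
    (y : Fin M → Pat k) :
    pairSet F (insert j J) y = resign (pairSet F J y) j (y j) := by
  funext i
  by_cases h : i = j
  · subst h
    simp [pairSet, resign]
  · simp [pairSet, resign, h]

lemma pair_set_empty {n k M : ℕ} (F : Formula n k M) (y : Fin M → Pat k) :
    pairSet F ∅ y = F := by
  funext i
  simp [pairSet]

/-- the set of the clauses with label `0` -/
def pairZero {M L : ℕ} (l : Fin M → Fin (L + 1)) : Finset (Fin M) := {j | l j = 0}

lemma pair_move {n k M L : ℕ} (F : Formula n k M) (l : Fin M → Fin (L + 1))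
    (y : Fin M → Pat k) :
    move F (fun j => (l j, y j)) = pairSet F (pairZero l) y := by
  funext j
  by_cases h : l j = 0 <;> simp [move, move1, pairSet, pairZero, h]

lemma pair_sum_labels {M L : ℕ} {P : Type*} [Fintype P]
    (g : (Fin M → Fin (L + 1) × P) → ℝ) :
    ∑ a, g a = ∑ l : Fin M → Fin (L + 1), ∑ y : Fin M → P, g (fun j => (l j, y j)) := by
  rw [← Fintype.sum_prod_type' (f := fun (l : Fin M → Fin (L + 1)) (y : Fin M → P) =>
    g (fun j => (l j, y j)))]
  exact (Equiv.sum_comp (Equiv.arrowProdEquivProdArrow (Fin M) (fun _ => Fin (L + 1))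
    (fun _ => P)).symm g).symm

lemma pair_card {M L k : ℕ} :
    (Fintype.card (Fin M → Fin (L + 1) × Pat k) : ℝ) =
      Fintype.card (Fin M → Fin (L + 1)) * Fintype.card (Fin M → Pat k) := by
  have h := pair_sum_labels (M := M) (L := L) (P := Pat k) (fun _ => (1 : ℝ))
  simpa using h

/-- the involution on seeds, formulas and signs -/
lemma pair_set_invol' {n k M : ℕ} {R : Type} (J : Finset (Fin M)) :
    Function.Involutive (fun z : (R × Formula n k M) × (Fin M → Pat k) =>
      ((z.1.1, pairSet z.1.2 J z.2), pairOld z.1.2 J z.2)) := by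
  rintro ⟨⟨r, F⟩, y⟩
  have h := pair_set_invol (n := n) (k := k) J (F, y)
  simp only [Prod.mk.injEq] at h ⊢
  exact ⟨⟨trivial, h.1⟩, h.2⟩

lemma pair_sum_set {n k M : ℕ} {R : Type} [Fintype R] (s : R × Formula n k M → ℝ)
    (J : Finset (Fin M)) :
    ∑ x : R × Formula n k M, ∑ y : Fin M → Pat k, s (x.1, pairSet x.2 J y) =
      Fintype.card (Fin M → Pat k) * ∑ x, s x := by
  have h := pair_invol_sum2 (pair_set_invol' (n := n) (k := k) (R := R) J)
    (fun z => s z.1)
  simp only at h
  rw [h]
  simp [Finset.mul_sum]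

lemma pair_sum_two {n k M : ℕ} {R : Type} [Fintype R] (s : R × Formula n k M → ℝ)
    (J : Finset (Fin M)) :
    (Fintype.card (Fin M → Pat k) : ℝ) *
        ∑ x : R × Formula n k M, ∑ y : Fin M → Pat k, s x * s (x.1, pairSet x.2 J y) =
      ∑ x : R × Formula n k M, (∑ y : Fin M → Pat k, s (x.1, pairSet x.2 J y)) ^ 2 := by
  have h := pair_invol_sum2 (pair_set_invol' (n := n) (k := k) (R := R) J)
    (fun z => ∑ y : Fin M → Pat k, s z.1 * s (z.1.1, pairSet z.1.2 J y))
  simp only [pair_set_set] at h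
  have h2 : ∀ x : R × Formula n k M, (∑ y : Fin M → Pat k, s (x.1, pairSet x.2 J y)) ^ 2 =
      ∑ z : Fin M → Pat k, ∑ y : Fin M → Pat k,
        s (x.1, pairSet x.2 J z) * s (x.1, pairSet x.2 J y) := by
    intro x
    rw [sq, Finset.sum_mul_sum]
  rw [Finset.sum_congr rfl (fun x _ => h2 x), h]
  simp [Finset.mul_sum]

lemma pair_fixed {n k M : ℕ} {R : Type} [Fintype R] (s : R × Formula n k M → ℝ)
    (J : Finset (Fin M)) :
    (Fintype.card (Fin M → Pat k) : ℝ) * (∑ x, s x) ^ 2 ≤
      Fintype.card (R × Formula n k M) *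
        ∑ x : R × Formula n k M, ∑ y : Fin M → Pat k, s x * s (x.1, pairSet x.2 J y) := by
  have hpos : (0 : ℝ) < Fintype.card (Fin M → Pat k) := by
    exact_mod_cast Fintype.card_pos
  have h1 := pair_sum_set s J
  have h2 := pair_sum_two s J
  have h3 := sq_sum_le_card_mul_sum_sq (s := (Finset.univ : Finset (R × Formula n k M)))
    (f := fun x => ∑ y : Fin M → Pat k, s (x.1, pairSet x.2 J y))
  rw [h1, ← h2, Finset.card_univ] at h3
  have h4 : (Fintype.card (Fin M → Pat k) : ℝ) * ((Fintype.card (Fin M → Pat k) : ℝ) *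
      (∑ x, s x) ^ 2) ≤ (Fintype.card (Fin M → Pat k) : ℝ) *
        (Fintype.card (R × Formula n k M) *
        ∑ x : R × Formula n k M, ∑ y : Fin M → Pat k, s x * s (x.1, pairSet x.2 J y)) := by
    nlinarith [h3]
  exact le_of_mul_le_mul_left h4 hpos

lemma pair_card_pos {n k M : ℕ} (hk : k ≤ n) {R : Type} [Fintype R] [Nonempty R] :
    (0 : ℝ) < Fintype.card (R × Formula n k M) := by
  have : Nonempty (Fin k ↪ Fin n) := ⟨Fin.castLEEmb hk⟩
  exact_mod_cast Fintype.card_pos

theorem pair_pos {n k M L : ℕ} (hk : k ≤ n) {R : Type} [Fintype R] [Nonempty R]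
    (S : R × Formula n k M → Prop) [DecidablePred S] :
    ((#{x : R × Formula n k M | S x} : ℝ) / Fintype.card (R × Formula n k M)) ^ 2 ≤
      (#{z : (R × Formula n k M) × (Fin M → Fin (L + 1) × Pat k) | S z.1 ∧ S (moveR z.1 z.2)} : ℝ) /
        (Fintype.card (R × Formula n k M) * Fintype.card (Fin M → Fin (L + 1) × Pat k)) := by
  have hX := pair_card_pos (M := M) hk (R := R)
  have hY : (0 : ℝ) < Fintype.card (Fin M → Fin (L + 1) × Pat k) := by
    exact_mod_cast Fintype.card_pos
  set s : R × Formula n k M → ℝ := fun x => if S x then 1 else 0 with hs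
  have e1 : (#{x : R × Formula n k M | S x} : ℝ) = ∑ x, s x := by
    simp [hs]
  have e2 : (#{z : (R × Formula n k M) × (Fin M → Fin (L + 1) × Pat k) |
      S z.1 ∧ S (moveR z.1 z.2)} : ℝ) =
      ∑ l : Fin M → Fin (L + 1), ∑ x : R × Formula n k M, ∑ y : Fin M → Pat k,
        s x * s (x.1, pairSet x.2 (pairZero l) y) := by
    rw [Finset.sum_comm]
    have e3 : (#{z : (R × Formula n k M) × (Fin M → Fin (L + 1) × Pat k) |
      S z.1 ∧ S (moveR z.1 z.2)} : ℝ) =
        ∑ z : (R × Formula n k M) × (Fin M → Fin (L + 1) × Pat k), s z.1 * s (moveR z.1 z.2) := by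
      rw [Finset.card_filter]
      push_cast
      refine Finset.sum_congr rfl fun z _ => ?_
      by_cases h1 : S z.1 <;> by_cases h2 : S (moveR z.1 z.2) <;> simp [hs, h1, h2]
    rw [e3, Fintype.sum_prod_type]
    refine Finset.sum_congr rfl fun x _ => ?_
    rw [pair_sum_labels]
    refine Finset.sum_congr rfl fun l _ => Finset.sum_congr rfl fun y _ => ?_
    simp only [moveR, pair_move]
  rw [e1, e2, div_pow, div_le_div_iff₀ (by positivity) (by positivity), pair_card]
  have h5 : ∑ l : Fin M → Fin (L + 1), (Fintype.card (Fin M → Pat k) : ℝ) * (∑ x, s x) ^ 2 ≤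
      ∑ l : Fin M → Fin (L + 1), (Fintype.card (R × Formula n k M) : ℝ) *
        ∑ x : R × Formula n k M, ∑ y : Fin M → Pat k,
          s x * s (x.1, pairSet x.2 (pairZero l) y) :=
    Finset.sum_le_sum fun l _ => pair_fixed s (pairZero l)
  rw [Finset.sum_const, Finset.card_univ, nsmul_eq_mul, ← Finset.mul_sum] at h5
  have h6 := mul_le_mul_of_nonneg_left h5 hX.le
  calc (∑ x, s x) ^ 2 * (Fintype.card (R × Formula n k M) *
        (Fintype.card (Fin M → Fin (L + 1)) * Fintype.card (Fin M → Pat k)))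
      = Fintype.card (R × Formula n k M) * (Fintype.card (Fin M → Fin (L + 1)) *
          (Fintype.card (Fin M → Pat k) * (∑ x, s x) ^ 2)) := by ring
    _ ≤ _ := h6
    _ = _ := by ring

/-! ### The expected change -/

lemma pair_coord {M : ℕ} {B : Type*} [Fintype B] [DecidableEq B] (j : Fin M) (g : B → ℝ) :
    (Fintype.card B : ℝ) * ∑ y : Fin M → B, g (y j) =
      Fintype.card (Fin M → B) * ∑ b, g b := by
  have he : Function.Involutive (fun z : (Fin M → B) × B =>
      (Function.update z.1 j z.2, z.1 j)) := by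
    rintro ⟨y, b⟩
    simp
  have h := pair_invol_sum2 he (fun z => g z.2)
  simp only [Finset.sum_const, Finset.card_univ, nsmul_eq_mul] at h
  rw [Finset.mul_sum]
  exact h

lemma pair_dist_set {n k M : ℕ} {R : Type} [Fintype R] (A : R → Formula n k M → Asg n)
    (J : Finset (Fin M)) :
    ∑ x : R × Formula n k M, ∑ y : Fin M → Pat k,
        (hammingDist (A x.1 x.2) (A x.1 (pairSet x.2 J y)) : ℝ) ≤
      ∑ j ∈ J, ∑ x : R × Formula n k M, ∑ y : Fin M → Pat k,
        (hammingDist (A x.1 x.2) (A x.1 (resign x.2 j (y j))) : ℝ) := by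
  induction J using Finset.induction_on with
  | empty => simp [pair_set_empty]
  | insert j J hj ih =>
    rw [Finset.sum_insert hj]
    have h := pair_invol_sum2 (pair_set_invol' (n := n) (k := k) (R := R) J)
      (fun z => (hammingDist (A z.1.1 z.1.2) (A z.1.1 (resign z.1.2 j (z.2 j))) : ℝ))
    simp only [pairOld, if_neg hj] at h
    rw [← h, ← sub_le_iff_le_add']
    refine le_trans ?_ ih
    rw [sub_le_iff_le_add', ← Finset.sum_add_distrib]
    refine Finset.sum_le_sum fun x _ => ?_
    rw [← Finset.sum_add_distrib]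
    refine Finset.sum_le_sum fun y _ => ?_
    rw [pair_set_insert]
    have := hammingDist_triangle (A x.1 x.2) (A x.1 (pairSet x.2 J y))
      (A x.1 (resign (pairSet x.2 J y) j (y j)))
    have h2 : (hammingDist (A x.1 x.2) (A x.1 (resign (pairSet x.2 J y) j (y j))) : ℝ) ≤
      hammingDist (A x.1 x.2) (A x.1 (pairSet x.2 J y)) +
        hammingDist (A x.1 (pairSet x.2 J y)) (A x.1 (resign (pairSet x.2 J y) j (y j))) := by
      exact_mod_cast this
    linarith

theorem pair_dist {n k M L : ℕ} (hk : k ≤ n) {R : Type} [Fintype R] [Nonempty R]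
    (A : R → Formula n k M → Asg n) :
    (∑ z : (R × Formula n k M) × (Fin M → Fin (L + 1) × Pat k),
      (hammingDist (A z.1.1 z.1.2) (A z.1.1 (move z.1.2 z.2)) : ℝ)) /
        (Fintype.card (R × Formula n k M) * Fintype.card (Fin M → Fin (L + 1) × Pat k)) ≤
      sensitivity A / (L + 1) := by
  have hX := pair_card_pos (M := M) hk (R := R)
  have hYl : (0 : ℝ) < Fintype.card (Fin M → Fin (L + 1)) := by
    exact_mod_cast Fintype.card_pos
  have hYp : (0 : ℝ) < Fintype.card (Fin M → Pat k) := by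
    exact_mod_cast Fintype.card_pos
  -- the sums for one clause
  set c : Fin M → ℝ := fun j => ∑ x : R × Formula n k M, ∑ y : Fin M → Pat k,
        (hammingDist (A x.1 x.2) (A x.1 (resign x.2 j (y j))) : ℝ) with hc
  have h1 : (∑ z : (R × Formula n k M) × (Fin M → Fin (L + 1) × Pat k),
      (hammingDist (A z.1.1 z.1.2) (A z.1.1 (move z.1.2 z.2)) : ℝ)) ≤
      ∑ l : Fin M → Fin (L + 1), ∑ j ∈ pairZero l, c j := by
    rw [Fintype.sum_prod_type]
    have e : ∀ x : R × Formula n k M, ∑ a : Fin M → Fin (L + 1) × Pat k,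
        (hammingDist (A x.1 x.2) (A x.1 (move x.2 a)) : ℝ) =
        ∑ l : Fin M → Fin (L + 1), ∑ y : Fin M → Pat k,
          (hammingDist (A x.1 x.2) (A x.1 (pairSet x.2 (pairZero l) y)) : ℝ) := by
      intro x
      rw [pair_sum_labels]
      refine Finset.sum_congr rfl fun l _ => Finset.sum_congr rfl fun y _ => ?_
      rw [pair_move]
    rw [Finset.sum_congr rfl (fun x _ => e x), Finset.sum_comm]
    exact Finset.sum_le_sum fun l _ => pair_dist_set A (pairZero l)
  have h2 : ∑ l : Fin M → Fin (L + 1), ∑ j ∈ pairZero l, c j =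
      ∑ j, (∑ l : Fin M → Fin (L + 1), if l j = 0 then (1 : ℝ) else 0) * c j := by
    simp only [pairZero, Finset.sum_filter, Finset.sum_mul]
    rw [Finset.sum_comm]
    refine Finset.sum_congr rfl fun j _ => Finset.sum_congr rfl fun l _ => ?_
    split_ifs <;> simp
  have h3 : ∀ j : Fin M, ((L : ℝ) + 1) *
      (∑ l : Fin M → Fin (L + 1), if l j = 0 then (1 : ℝ) else 0) =
        Fintype.card (Fin M → Fin (L + 1)) := by
    intro j
    have := pair_coord (M := M) j (fun b : Fin (L + 1) => if b = 0 then (1 : ℝ) else 0)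
    simpa using this
  have h4 : ∀ j : Fin M, (2 : ℝ) ^ k * c j = Fintype.card (Fin M → Pat k) *
      ∑ r : R, ∑ F : Formula n k M, ∑ p : Pat k,
        (hammingDist (A r F) (A r (resign F j p)) : ℝ) := by
    intro j
    rw [hc]
    simp only
    rw [Finset.mul_sum, ← Fintype.sum_prod_type' (f := fun (r : R) (F : Formula n k M) =>
      ∑ p : Pat k, (hammingDist (A r F) (A r (resign F j p)) : ℝ)), Finset.mul_sum]
    refine Finset.sum_congr rfl fun x _ => ?_
    have := pair_coord (M := M) j (fun p : Pat k =>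
      (hammingDist (A x.1 x.2) (A x.1 (resign x.2 j p)) : ℝ))
    simpa using this
  rw [div_le_iff₀ (by rw [pair_card]; positivity)]
  refine le_trans h1 ?_
  rw [h2, pair_card, sensitivity]
  have h5 : ∀ j : Fin M, (∑ l : Fin M → Fin (L + 1), if l j = 0 then (1 : ℝ) else 0) * c j =
      (Fintype.card (Fin M → Fin (L + 1)) * Fintype.card (Fin M → Pat k) / ((L + 1) * 2 ^ k)) *
      ∑ r : R, ∑ F : Formula n k M, ∑ p : Pat k,
        (hammingDist (A r F) (A r (resign F j p)) : ℝ) := by
    intro j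
    have hL : (0 : ℝ) < (L : ℝ) + 1 := by positivity
    have h2k : (0 : ℝ) < (2 : ℝ) ^ k := by positivity
    rw [div_mul_eq_mul_div, eq_div_iff (by positivity), ← h3 j, mul_assoc _ _ (∑ r : R, _), ← h4 j]
    ring
  rw [Finset.sum_congr rfl (fun j _ => h5 j), ← Finset.mul_sum]
  apply le_of_eq
  field_simp

end Pool.Agent.KS
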