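import Pool.Agent.Lib.MP_f017c9_lc.Run

/-!
# MP_f017c9_lc, module SG (Select): choice of the times
-/

namespace Pool.Agent.KS

open Finset

/-- the choice of the times, with times indexed by all natural numbers -/
theorem Select_aux {n : ℕ} (σ : ℕ → Asg n) (D : ℝ) (hD : 0 ≤ D) (K K' : ℕ)
    (h1 : ∀ t < K, (hammingDist (σ t) (σ (t + 1)) : ℝ) ≤ D)
    (h2 : ∀ i t, i + K' ≤ t → t ≤ K → D < (hammingDist (σ i) (σ t) : ℝ)) (hK' : 1 ≤ K') (m : ℕ) :
    m * K' ≤ K → ∃ τ : ℕ → ℕ, (∀ l ≤ m, τ l ≤ l * K') ∧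
      (∀ l l', l < l' → l' ≤ m → τ l < τ l' ∧
        D < (hammingDist (σ (τ l)) (σ (τ l')) : ℝ)) ∧
      ∀ l, l ≠ 0 → l ≤ m → ∃ i < l, (hammingDist (σ (τ i)) (σ (τ l)) : ℝ) ≤ 2 * D := by
  classical
  induction m with
  | zero =>
    intro _
    refine ⟨fun _ => 0, ?_, ?_, ?_⟩
    · intro l _
      exact Nat.zero_le _
    · intro l l' h h'
      omega
    · intro l h h'
      omega
  | succ m ih =>
    intro hm
    have hmul : (m + 1) * K' = m * K' + K' := by ring
    obtain ⟨τ, hτ1, hτ2, hτ3⟩ := ih (by omega)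
    have hle : ∀ i ≤ m, τ i ≤ τ m := by
      intro i hi
      rcases Nat.lt_or_eq_of_le hi with h | h
      · exact (hτ2 i m h le_rfl).1.le
      · rw [h]
    have hT : τ m + K' ≤ (m + 1) * K' := by
      have := hτ1 m le_rfl
      omega
    have hex : ∃ t, τ m < t ∧ ∀ i ≤ m, D < (hammingDist (σ (τ i)) (σ t) : ℝ) :=
      ⟨τ m + K', by omega, fun i hi => h2 _ _ (by have := hle i hi; omega) (by omega)⟩
    have hlt := (Nat.find_spec hex).1
    have hall := (Nat.find_spec hex).2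
    have htT : Nat.find hex ≤ τ m + K' :=
      Nat.find_le ⟨by omega, fun i hi => h2 _ _ (by have := hle i hi; omega) (by omega)⟩
    have hmin : ∃ i ≤ m, (hammingDist (σ (τ i)) (σ (Nat.find hex - 1)) : ℝ) ≤ D := by
      by_cases hc : τ m < Nat.find hex - 1
      · have hn := Nat.find_min hex (m := Nat.find hex - 1) (by omega)
        by_contra hcon
        push Not at hcon
        exact hn ⟨hc, hcon⟩
      · have he : Nat.find hex - 1 = τ m := by omega
        refine ⟨m, le_rfl, ?_⟩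
        rw [he, hammingDist_self]
        exact_mod_cast hD
    generalize Nat.find hex = t at hlt hall htT hmin
    refine ⟨fun l => if l ≤ m then τ l else t, ?_, ?_, ?_⟩
    · intro l hl
      by_cases h : l ≤ m
      · simpa [h] using hτ1 l h
      · have h' : l = m + 1 := by omega
        subst h'
        simp only [h, if_false]
        omega
    · intro l l' hll hl'
      have hl : l ≤ m := by omega
      by_cases h : l' ≤ m
      · simpa [hl, h] using hτ2 l l' hll h
      · simp only [hl, h, if_true, if_false]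
        exact ⟨lt_of_le_of_lt (hle l hl) hlt, hall l hl⟩
    · intro l hl0 hl
      by_cases h : l ≤ m
      · obtain ⟨i, hi, hd⟩ := hτ3 l hl0 h
        refine ⟨i, hi, ?_⟩
        have hi' : i ≤ m := by omega
        simpa [h, hi'] using hd
      · obtain ⟨i, hi, hd⟩ := hmin
        refine ⟨i, by omega, ?_⟩
        simp only [h, hi, if_true, if_false]
        have hstep := h1 (t - 1) (by omega)
        have he : t - 1 + 1 = t := by omega
        rw [he] at hstep
        have htri : (hammingDist (σ (τ i)) (σ t) : ℝ) ≤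
            hammingDist (σ (τ i)) (σ (t - 1)) + hammingDist (σ (t - 1)) (σ t) := by
          exact_mod_cast hammingDist_triangle _ _ _
        linarith

theorem select {n : ℕ} (σ : ℕ → Asg n) (D : ℝ) (hD : 0 ≤ D) (K K' m : ℕ) (hK' : 1 ≤ K')
    (hm : m * K' ≤ K) (h1 : ∀ t < K, (hammingDist (σ t) (σ (t + 1)) : ℝ) ≤ D)
    (h2 : ∀ i t, i + K' ≤ t → t ≤ K → D < (hammingDist (σ i) (σ t) : ℝ)) :
    ∃ τ : Fin (m + 1) → ℕ, StrictMono τ ∧ (∀ l, τ l ≤ K) ∧
      (∀ l l', l ≠ l' → D < (hammingDist (σ (τ l)) (σ (τ l')) : ℝ)) ∧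
      ∀ l, l ≠ 0 → ∃ i < l, (hammingDist (σ (τ i)) (σ (τ l)) : ℝ) ≤ 2 * D := by
  obtain ⟨τ, hτ1, hτ2, hτ3⟩ := Select_aux σ D hD K K' h1 h2 hK' m hm
  refine ⟨fun l => τ l, ?_, ?_, ?_, ?_⟩
  · intro l l' h
    exact (hτ2 l l' h (by omega)).1
  · intro l
    have h3 : (l : ℕ) * K' ≤ m * K' := Nat.mul_le_mul_right _ (by omega)
    have h4 := hτ1 l (by omega)
    show τ l ≤ K
    omega
  · intro l l' hne
    have hne' : (l : ℕ) ≠ l' := fun h => hne (Fin.ext h)
    rcases Nat.lt_or_gt_of_ne hne' with h | h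
    · exact (hτ2 l l' h (by omega)).2
    · have h5 := (hτ2 l' l h (by omega)).2
      rwa [hammingDist_comm] at h5
  · intro l hl
    have hl' : (l : ℕ) ≠ 0 := fun h => hl (Fin.ext h)
    obtain ⟨i, hi, hd⟩ := hτ3 l hl' (by omega)
    exact ⟨⟨i, by omega⟩, hi, hd⟩

end Pool.Agent.KS
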