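import Pool.Agent.Lib.MP_f017c9_lc.PathPow
import Pool.Agent.Lib.MP_f017c9_lc.Pair
import Pool.Agent.Lib.MP_f017c9_lc.Tuple
import Pool.Agent.Lib.MP_f017c9_lc.Chaos
import Pool.Agent.Lib.MP_f017c9_lc.Count
import Pool.Agent.Lib.MP_f017c9_lc.Select
import Pool.Agent.Lib.MP_f017c9_lc.Numeric

/-!
# Random k-SAT: every successful algorithm is sensitive to the signs (assembly)
-/

namespace Pool.Agent.KS

open Finset

/-! ### Assembly -/

/-- the reverse letters -/
def revR {n k M L : ℕ} {R : Type} (x : R × Formula n k M) (a : Fin M → Fin (L + 1) × Pat k) :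
    Fin M → Fin (L + 1) × Pat k :=
  fun j => ((a j).1, if (a j).1 = 0 then (x.2 j).2 else (a j).2)

theorem moveR_revR {n k M L : ℕ} {R : Type} (x : R × Formula n k M)
    (a : Fin M → Fin (L + 1) × Pat k) : moveR (moveR x a) (revR x a) = x := by
  refine Prod.ext rfl ?_
  funext j
  refine Prod.ext rfl ?_
  simp only [moveR, move, move1, revR]
  split_ifs <;> rfl

theorem revR_revR {n k M L : ℕ} {R : Type} (x : R × Formula n k M)
    (a : Fin M → Fin (L + 1) × Pat k) : revR (moveR x a) (revR x a) = a := by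
  funext j
  simp only [moveR, move, move1, revR]
  refine Prod.ext rfl ?_
  dsimp only
  split_ifs <;> rfl

theorem run_moveR {n k M L K : ℕ} {R : Type} (x : R × Formula n k M)
    (w : Fin K → Fin M → Fin (L + 1) × Pat k) (t : ℕ) :
    run moveR x w t = (x.1, run move x.2 w t) := by
  induction t with
  | zero => rfl
  | succ t ih =>
    unfold run
    split_ifs with h
    · rw [ih]; rfl
    · exact ih

/-- the probability of a good walk is small -/
theorem walk_bound {n k M L K K' m : ℕ} (hk : k ≤ n) {R : Type} [Fintype R] [Nonempty R]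
    (A : R → Formula n k M → Asg n) (δ B : ℝ) (hδ0 : 0 ≤ δ) (hδ : δ ≤ 1 / 2)
    (hmδ : (m : ℝ) * (1 - δ) ^ k ≤ 1 / 2) (hK : 1 ≤ K) (hK' : K' = 2 * (L + 1)) (hm : m * K' ≤ K)
    (hB : ∀ σ : Asg n, (#{σ' : Asg n | (hammingDist σ σ' : ℝ) ≤ 2 * (δ * n)} : ℝ) ≤ B) :
    (#{z : (R × Formula n k M) × (Fin K → Fin M → Fin (L + 1) × Pat k) |
        ∀ t < K, ((numViolated (A (run moveR z.1 z.2 t).1 (run moveR z.1 z.2 t).2)
            (run moveR z.1 z.2 t).2 : ℝ) ≤ M / 2 ^ k / 20 ∧
          (numViolated (A (run moveR z.1 z.2 (t + 1)).1 (run moveR z.1 z.2 (t + 1)).2)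
            (run moveR z.1 z.2 (t + 1)).2 : ℝ) ≤ M / 2 ^ k / 20 ∧
          (hammingDist (A (run moveR z.1 z.2 t).1 (run moveR z.1 z.2 t).2)
            (A (run moveR z.1 z.2 (t + 1)).1 (run moveR z.1 z.2 (t + 1)).2) : ℝ) ≤ δ * n)} : ℝ) ≤
      Fintype.card ((R × Formula n k M) × (Fin K → Fin M → Fin (L + 1) × Pat k)) *
        ((K + 1) ^ 2 * (B * Real.exp (-(49 / 100) * (M / 2 ^ k))) +
          (K + 1) ^ (m + 1) * ((2 ^ n * (m * B) ^ m) *
            Real.exp (-(49 / 100) * (m + 1) * (M / 2 ^ k)))) := by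
  classical
  set Z := (R × Formula n k M) × (Fin K → Fin M → Fin (L + 1) × Pat k) with hZ
  set N : ℝ := ((Fintype.card Z : ℕ) : ℝ) with hN
  -- the chaos events
  let C : ℕ × ℕ → Finset Z := fun p => univ.filter fun z : Z => ∃ σ' : Asg n,
        (hammingDist (A (run moveR z.1 z.2 p.1).1 (run moveR z.1 z.2 p.1).2) σ' : ℝ) ≤ δ * n ∧
          (numViolated σ' (run moveR z.1 z.2 p.2).2 : ℝ) ≤ M / 2 ^ k / 20
  -- the tuple events
  let T : (Fin (m + 1) → Fin (K + 1)) × (Fin (m + 1) → Asg n) → Finset Z :=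
    fun p => univ.filter fun z : Z =>
      ∀ l, (numViolated (p.2 l) (run move z.1.2 z.2 (p.1 l)) : ℝ) ≤ M / 2 ^ k / 20
  let P : Finset (ℕ × ℕ) := (range (K + 1) ×ˢ range (K + 1)).filter fun p => p.1 + K' ≤ p.2
  let Q : Finset ((Fin (m + 1) → Fin (K + 1)) × (Fin (m + 1) → Asg n)) :=
    univ ×ˢ (univ.filter fun σ : Fin (m + 1) → Asg n =>
      (∀ l, l ≠ 0 → ∃ i < l, (hammingDist (σ i) (σ l) : ℝ) ≤ 2 * (δ * n)) ∧
        ∀ l l', l ≠ l' → δ * n < (hammingDist (σ l) (σ l') : ℝ))
  set G : Finset Z := univ.filter fun z : Z =>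
        ∀ t < K, ((numViolated (A (run moveR z.1 z.2 t).1 (run moveR z.1 z.2 t).2)
            (run moveR z.1 z.2 t).2 : ℝ) ≤ M / 2 ^ k / 20 ∧
          (numViolated (A (run moveR z.1 z.2 (t + 1)).1 (run moveR z.1 z.2 (t + 1)).2)
            (run moveR z.1 z.2 (t + 1)).2 : ℝ) ≤ M / 2 ^ k / 20 ∧
          (hammingDist (A (run moveR z.1 z.2 t).1 (run moveR z.1 z.2 t).2)
            (A (run moveR z.1 z.2 (t + 1)).1 (run moveR z.1 z.2 (t + 1)).2) : ℝ) ≤ δ * n) with hG
  have hsub : G ⊆ P.biUnion C ∪ Q.biUnion T := by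
    intro z hz
    rw [hG, mem_filter] at hz
    have hz := hz.2
    have hgood : ∀ t ≤ K, (numViolated (A (run moveR z.1 z.2 t).1 (run moveR z.1 z.2 t).2)
            (run moveR z.1 z.2 t).2 : ℝ) ≤ M / 2 ^ k / 20 := by
      intro t ht
      rcases Nat.lt_or_ge t K with h | h
      · exact (hz t h).1
      · have : t = K := le_antisymm ht h
        subst this
        have h2 := (hz (t - 1) (by omega)).2.1
        rwa [Nat.sub_add_cancel hK] at h2
    by_cases hc : ∃ p ∈ P, z ∈ C p
    · rw [mem_union, mem_biUnion]; exact Or.inl hc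
    · rw [mem_union, mem_biUnion, mem_biUnion]
      right
      have h2 : ∀ i t, i + K' ≤ t → t ≤ K → δ * n <
          (hammingDist ((fun t => A (run moveR z.1 z.2 t).1 (run moveR z.1 z.2 t).2) i)
            ((fun t => A (run moveR z.1 z.2 t).1 (run moveR z.1 z.2 t).2) t) : ℝ) := by
        intro i t hit ht
        by_contra hcon
        push Not at hcon
        apply hc
        refine ⟨(i, t), ?_, ?_⟩
        · simp only [P, mem_filter, mem_product, mem_range]
          omega
        · simp only [C, mem_filter, mem_univ, true_and]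
          exact ⟨A (run moveR z.1 z.2 t).1 (run moveR z.1 z.2 t).2, hcon, hgood t ht⟩
      obtain ⟨τ, -, hτK, hfar, hclose⟩ := select
        (fun t => A (run moveR z.1 z.2 t).1 (run moveR z.1 z.2 t).2) (δ * n)
        (by positivity) K K' m (by omega) hm (fun t ht => (hz t ht).2.2) h2
      refine ⟨(fun l => ⟨τ l, Nat.lt_succ_of_le (hτK l)⟩,
        fun l => A (run moveR z.1 z.2 (τ l)).1 (run moveR z.1 z.2 (τ l)).2), ?_, ?_⟩
      · simp only [Q, mem_product, mem_univ, true_and, mem_filter]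
        exact ⟨hclose, hfar⟩
      · simp only [T, mem_filter, mem_univ, true_and]
        intro l
        have := hgood (τ l) (hτK l)
        rw [run_moveR] at this ⊢
        exact this
  have hδn : δ * n ≤ 2 * (δ * n) := by
    have : 0 ≤ δ * n := by positivity
    linarith
  have hB' : ∀ σ : Asg n, (#{σ' : Asg n | (hammingDist σ σ' : ℝ) ≤ δ * n} : ℝ) ≤ B := by
    intro σ
    refine le_trans ?_ (hB σ)
    have : (univ.filter fun σ' : Asg n => (hammingDist σ σ' : ℝ) ≤ δ * n) ⊆
        univ.filter fun σ' : Asg n => (hammingDist σ σ' : ℝ) ≤ 2 * (δ * n) := by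
      intro σ'
      simp only [mem_filter, mem_univ, true_and]
      intro h
      linarith
    exact_mod_cast card_le_card this
  have hB0 : 0 ≤ B := le_trans (Nat.cast_nonneg _) (hB fun _ => true)
  have hN0 : 0 ≤ N := Nat.cast_nonneg _
  -- chaos sum
  have hP : (∑ p ∈ P, ((C p).card : ℝ)) ≤
      N * ((K + 1) ^ 2 * (B * Real.exp (-(49 / 100) * (M / 2 ^ k)))) := by
    have h1 : ∀ p ∈ P, ((C p).card : ℝ) ≤ N * (B * Real.exp (-(49 / 100) * (M / 2 ^ k))) := by
      intro p hp
      simp only [P, mem_filter, mem_product, mem_range] at hp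
      exact chaos hk A p.1 p.2 (by omega) (by omega) (δ * n) B hB'
    have h2 : (P.card : ℝ) ≤ (K + 1) ^ 2 := by
      have : P.card ≤ (K + 1) * (K + 1) := by
        refine (card_filter_le _ _).trans ?_
        rw [card_product, card_range]
      have h3 : (P.card : ℝ) ≤ ((K + 1) * (K + 1) : ℕ) := by exact_mod_cast this
      push_cast at h3
      nlinarith
    calc (∑ p ∈ P, ((C p).card : ℝ)) ≤
        ∑ p ∈ P, N * (B * Real.exp (-(49 / 100) * (M / 2 ^ k))) := sum_le_sum h1
      _ = P.card * (N * (B * Real.exp (-(49 / 100) * (M / 2 ^ k)))) := by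
        rw [sum_const, nsmul_eq_mul]
      _ ≤ (K + 1) ^ 2 * (N * (B * Real.exp (-(49 / 100) * (M / 2 ^ k)))) := by
        apply mul_le_mul_of_nonneg_right h2
        positivity
      _ = _ := by ring
  -- tuple sum
  have hQ : (∑ p ∈ Q, ((T p).card : ℝ)) ≤
      N * ((K + 1) ^ (m + 1) * ((2 ^ n * (m * B) ^ m) *
            Real.exp (-(49 / 100) * (m + 1) * (M / 2 ^ k)))) := by
    have h1 : ∀ p ∈ Q, ((T p).card : ℝ) ≤
        N * Real.exp (-(49 / 100) * (m + 1) * (M / 2 ^ k)) := by
      intro p hp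
      simp only [Q, mem_product, mem_univ, true_and, mem_filter] at hp
      have h3 := tuple_moment (L := L) (K := K) (M := M) hk δ hδ0 hδ hmδ (fun l => (p.1 l : ℕ))
        (fun l => Nat.lt_succ_iff.mp (p.1 l).2) p.2 hp.2
      have h4 : (T p).card = Fintype.card R *
          #{z : Formula n k M × (Fin K → Fin M → Fin (L + 1) × Pat k) |
            ∀ l, (numViolated (p.2 l) (run move z.1 z.2 (p.1 l : ℕ)) : ℝ) ≤ M / 2 ^ k / 20} := by
        rw [← card_univ (α := R), ← card_product]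
        refine card_bij (fun z _ => (z.1.1, (z.1.2, z.2))) ?_ ?_ ?_
        · intro z hz
          simp only [T, mem_filter, mem_univ, true_and] at hz
          simp only [mem_product, mem_univ, true_and, mem_filter]
          exact hz
        · rintro ⟨⟨a, b⟩, c⟩ _ ⟨⟨a', b'⟩, c'⟩ _ h
          have e1 : a = a' := congrArg Prod.fst h
          have e2 : b = b' := congrArg (fun x => x.2.1) h
          have e3 : c = c' := congrArg (fun x => x.2.2) h
          rw [e1, e2, e3]
        · rintro ⟨a, b, c⟩ hz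
          refine ⟨((a, b), c), ?_, rfl⟩
          simp only [mem_product, mem_univ, true_and, mem_filter] at hz
          simp only [T, mem_filter, mem_univ, true_and]
          exact hz
      have h5 : N = Fintype.card R *
          (Fintype.card (Formula n k M × (Fin K → Fin M → Fin (L + 1) × Pat k)) : ℝ) := by
        change ((Fintype.card ((R × Formula n k M) × (Fin K → Fin M → Fin (L + 1) × Pat k)) : ℕ) :
          ℝ) = _
        simp only [Fintype.card_prod]
        push_cast
        ring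
      rw [h4, h5]
      push_cast
      rw [mul_assoc]
      apply mul_le_mul_of_nonneg_left _ (Nat.cast_nonneg _)
      exact_mod_cast h3
    have h2 : (Q.card : ℝ) ≤ (K + 1) ^ (m + 1) * (2 ^ n * (m * B) ^ m) := by
      have e1 : Q.card ≤ (K + 1) ^ (m + 1) * #{σ : Fin (m + 1) → Asg n |
        ∀ l, l ≠ 0 → ∃ i < l, (hammingDist (σ i) (σ l) : ℝ) ≤ 2 * (δ * n)} := by
        simp only [Q]
        rw [card_product, card_univ, Fintype.card_fun, Fintype.card_fin, Fintype.card_fin]
        apply Nat.mul_le_mul_left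
        apply card_le_card
        intro σ
        simp only [mem_filter, mem_univ, true_and]
        exact fun h => h.1
      have e2 := tuple_count m (2 * (δ * n)) B hB
      have e3 : (Q.card : ℝ) ≤ ((K + 1) ^ (m + 1) * #{σ : Fin (m + 1) → Asg n |
        ∀ l, l ≠ 0 → ∃ i < l, (hammingDist (σ i) (σ l) : ℝ) ≤ 2 * (δ * n)} : ℕ) := by
        exact_mod_cast e1
      refine e3.trans ?_
      push_cast
      apply mul_le_mul_of_nonneg_left e2
      positivity
    calc (∑ p ∈ Q, ((T p).card : ℝ)) ≤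
        ∑ p ∈ Q, N * Real.exp (-(49 / 100) * (m + 1) * (M / 2 ^ k)) := sum_le_sum h1
      _ = Q.card * (N * Real.exp (-(49 / 100) * (m + 1) * (M / 2 ^ k))) := by
        rw [sum_const, nsmul_eq_mul]
      _ ≤ ((K + 1) ^ (m + 1) * (2 ^ n * (m * B) ^ m)) *
          (N * Real.exp (-(49 / 100) * (m + 1) * (M / 2 ^ k))) := by
        apply mul_le_mul_of_nonneg_right h2
        positivity
      _ = _ := by ring
  have hGc : (G.card : ℝ) ≤ (∑ p ∈ P, ((C p).card : ℝ)) + ∑ p ∈ Q, ((T p).card : ℝ) := by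
    have h1 : G.card ≤ (∑ p ∈ P, (C p).card) + ∑ p ∈ Q, (T p).card :=
      (card_le_card hsub).trans ((card_union_le _ _).trans
        (Nat.add_le_add card_biUnion_le card_biUnion_le))
    exact_mod_cast h1
  refine hGc.trans ?_
  rw [mul_add]
  exact add_le_add hP hQ

theorem exists_two_pow (x : ℕ) (hx : 1 ≤ x) : ∃ a : ℕ, x ≤ 2 ^ a ∧ 2 ^ a ≤ 2 * x := by
  refine ⟨Nat.clog 2 x, Nat.le_pow_clog (by norm_num) x, ?_⟩
  rcases Nat.lt_or_ge 1 x with h | h
  · have h1 := Nat.pow_pred_clog_lt_self (by norm_num : 1 < 2) h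
    have h2 : 0 < Nat.clog 2 x := Nat.clog_pos (by norm_num) h
    obtain ⟨c, hc⟩ : ∃ c, Nat.clog 2 x = c + 1 := ⟨Nat.clog 2 x - 1, by omega⟩
    rw [hc] at h1 ⊢
    simp only [Nat.pred_succ] at h1
    rw [pow_succ]
    omega
  · have : x = 1 := le_antisymm h hx
    subst this
    simp

theorem main (ε q : ℝ) (hε : 0 < ε) (hε1 : ε ≤ 1) (hq : 0 < q) :
    ∃ n₀ : ℕ, ∀ n ≥ n₀, ∀ k ≤ n, 16 * Real.log (16 / ε) ^ 2 ≤ ε * k →
      ∀ M : ℕ, ε * 2 ^ k * n ≤ M → ∀ (R : Type) [Fintype R] [Nonempty R]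
        (A : R → Formula n k M → Asg n), q ≤ successProb A →
          ε ^ 4 * q ^ 3 * n ^ 2 / 10 ^ 5 ≤ sensitivity A := by
  classical
  by_cases hq1 : q ≤ 1
  swap
  · refine ⟨0, fun n _ k hk _ M _ R _ _ A hA => ?_⟩
    exfalso
    apply hq1
    refine hA.trans ?_
    unfold successProb
    refine div_le_one_of_le₀ ?_ (Nat.cast_nonneg _)
    exact_mod_cast card_le_univ _
  obtain ⟨n₀, hn₀⟩ := numeric ε q hε hε1 hq hq1
  obtain ⟨hδ0, hδ4, hδB⟩ := delta_facts ε hε hε1
  refine ⟨max n₀ 1, fun n hn k hk hkε M hM R _ _ A hA => ?_⟩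
  have hn0 : n₀ ≤ n := (le_max_left _ _).trans hn
  have hn1 : 1 ≤ n := (le_max_right _ _).trans hn
  by_contra hcon
  push Not at hcon
  set δ : ℝ := ε / (16 * Real.log (16 / ε)) with hδ
  have hnR : (1 : ℝ) ≤ n := by exact_mod_cast hn1
  have hs0 : 0 ≤ sensitivity A := by
    unfold sensitivity
    positivity
  set s := sensitivity A with hs
  have hD : 0 < δ * n := by positivity
  -- the number of labels
  obtain ⟨L, hL⟩ : ∃ L : ℕ, L = ⌈2 * s / (q ^ 2 * (δ * n))⌉₊ := ⟨_, rfl⟩
  have hL1 : 2 * s / (q ^ 2 * (δ * n)) ≤ L + 1 := by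
    have := Nat.le_ceil (2 * s / (q ^ 2 * (δ * n)))
    rw [← hL] at this
    linarith
  have hL2 : ((L : ℝ) + 1) ≤ 2 * s / (q ^ 2 * (δ * n)) + 2 := by
    have := Nat.ceil_lt_add_one (a := 2 * s / (q ^ 2 * (δ * n))) (by positivity)
    rw [← hL] at this
    linarith
  -- m
  obtain ⟨m, hmdef⟩ : ∃ m : ℕ, m = ⌈6 / ε⌉₊ := ⟨_, rfl⟩
  have hm1 : 6 / ε ≤ m := by rw [hmdef]; exact Nat.le_ceil _
  have hm2 : (m : ℝ) ≤ 7 / ε := by
    have h1 := Nat.ceil_lt_add_one (a := 6 / ε) (by positivity)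
    rw [← hmdef] at h1
    have h2 : 7 / ε = 6 / ε + 1 / ε := by ring
    have h3 : 1 ≤ 1 / ε := by
      rw [le_div_iff₀ hε]; linarith
    linarith
  have hm0 : 1 ≤ m := by
    have : (0 : ℝ) < m := lt_of_lt_of_le (by positivity) hm1
    exact_mod_cast this
  -- K
  obtain ⟨a, ha1, ha2⟩ := exists_two_pow (m * (2 * (L + 1))) (Nat.mul_pos hm0 (by omega))
  have hE : ε * n ≤ M / 2 ^ k := by
    rw [le_div_iff₀ (by positivity)]
    linarith
  -- the good steps
  let g : R × Formula n k M → R × Formula n k M → Prop := fun x x' =>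
    (numViolated (A x.1 x.2) x.2 : ℝ) ≤ M / 2 ^ k / 20 ∧
      (numViolated (A x'.1 x'.2) x'.2 : ℝ) ≤ M / 2 ^ k / 20 ∧
        (hammingDist (A x.1 x.2) (A x'.1 x'.2) : ℝ) ≤ δ * n
  have hgs : ∀ x x', g x x' → g x' x := by
    intro x x' h
    refine ⟨h.2.1, h.1, ?_⟩
    rw [hammingDist_comm]
    exact h.2.2
  have : Nonempty (Fin k ↪ Fin n) := ⟨Fin.castLEEmb hk⟩
  have : Nonempty (Formula n k M) := inferInstance
  have hX0 : (0 : ℝ) < Fintype.card (R × Formula n k M) := by
    exact_mod_cast Fintype.card_pos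
  have hY0 : (0 : ℝ) < Fintype.card (Fin M → Fin (L + 1) × Pat k) := by
    exact_mod_cast Fintype.card_pos
  have hpath := path_pow (X := R × Formula n k M) (Y := Fin M → Fin (L + 1) × Pat k)
    moveR revR moveR_revR revR_revR g hgs a
  -- lower bound for the probability of a good step
  have hstep : q ^ 2 / 2 ≤ (#{z : (R × Formula n k M) × (Fin M → Fin (L + 1) × Pat k) |
      g z.1 (moveR z.1 z.2)} : ℝ) / (Fintype.card (R × Formula n k M) *
        Fintype.card (Fin M → Fin (L + 1) × Pat k)) := by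
    have hp := pair_pos (L := L) hk (R := R) (M := M)
      (fun x => (numViolated (A x.1 x.2) x.2 : ℝ) ≤ M / 2 ^ k / 20)
    have hd := pair_dist (L := L) hk (R := R) A
    rw [← hs] at hd
    have hq2 : q ^ 2 ≤ (#{z : (R × Formula n k M) × (Fin M → Fin (L + 1) × Pat k) |
        (numViolated (A z.1.1 z.1.2) z.1.2 : ℝ) ≤ M / 2 ^ k / 20 ∧
          (numViolated (A (moveR z.1 z.2).1 (moveR z.1 z.2).2) (moveR z.1 z.2).2 : ℝ) ≤
            M / 2 ^ k / 20} : ℝ) / (Fintype.card (R × Formula n k M) *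
        Fintype.card (Fin M → Fin (L + 1) × Pat k)) := by
      refine le_trans ?_ hp
      exact pow_le_pow_left₀ hq.le hA 2
    set S1 : Finset ((R × Formula n k M) × (Fin M → Fin (L + 1) × Pat k)) :=
      univ.filter fun z => (numViolated (A z.1.1 z.1.2) z.1.2 : ℝ) ≤ M / 2 ^ k / 20 ∧
          (numViolated (A (moveR z.1 z.2).1 (moveR z.1 z.2).2) (moveR z.1 z.2).2 : ℝ) ≤
            M / 2 ^ k / 20 with hS1
    set S2 : Finset ((R × Formula n k M) × (Fin M → Fin (L + 1) × Pat k)) :=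
      univ.filter fun z => δ * n <
        (hammingDist (A z.1.1 z.1.2) (A z.1.1 (move z.1.2 z.2)) : ℝ) with hS2
    have hsub : S1 ⊆ (univ.filter fun z : (R × Formula n k M) ×
        (Fin M → Fin (L + 1) × Pat k) => g z.1 (moveR z.1 z.2)) ∪ S2 := by
      intro z hz
      simp only [hS1, mem_filter, mem_univ, true_and] at hz
      simp only [mem_union, mem_filter, mem_univ, true_and, hS2]
      by_cases h : (hammingDist (A z.1.1 z.1.2) (A z.1.1 (move z.1.2 z.2)) : ℝ) ≤ δ * n
      · left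
        exact ⟨hz.1, hz.2, h⟩
      · right
        push Not at h
        exact h
    have hc1 : (S1.card : ℝ) ≤ (#{z : (R × Formula n k M) × (Fin M → Fin (L + 1) × Pat k) |
        g z.1 (moveR z.1 z.2)} : ℝ) + S2.card := by
      have := (card_le_card hsub).trans (card_union_le _ _)
      exact_mod_cast this
    -- Markov
    have hc2 : (S2.card : ℝ) * (δ * n) ≤
        ∑ z : (R × Formula n k M) × (Fin M → Fin (L + 1) × Pat k),
          (hammingDist (A z.1.1 z.1.2) (A z.1.1 (move z.1.2 z.2)) : ℝ) := by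
      calc (S2.card : ℝ) * (δ * n) = ∑ z ∈ S2, δ * n := by
            rw [sum_const, nsmul_eq_mul]
        _ ≤ ∑ z ∈ S2, (hammingDist (A z.1.1 z.1.2) (A z.1.1 (move z.1.2 z.2)) : ℝ) := by
            apply sum_le_sum
            intro z hz
            simp only [hS2, mem_filter, mem_univ, true_and] at hz
            exact hz.le
        _ ≤ _ := by
            apply sum_le_sum_of_subset_of_nonneg (subset_univ _)
            intros
            positivity
    set c : ℝ := Fintype.card (R × Formula n k M) *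
        Fintype.card (Fin M → Fin (L + 1) × Pat k) with hc
    have hcpos : 0 < c := mul_pos hX0 hY0
    have hc3 : (S2.card : ℝ) / c ≤ q ^ 2 / 2 := by
      have e1 : (S2.card : ℝ) / c * (δ * n) ≤ s / (L + 1) := by
        refine le_trans ?_ hd
        rw [div_mul_eq_mul_div]
        exact div_le_div_of_nonneg_right hc2 hcpos.le
      have e2 : s / (L + 1) ≤ q ^ 2 / 2 * (δ * n) := by
        rw [div_le_iff₀ (by positivity)]
        rw [div_le_iff₀ (by positivity)] at hL1
        nlinarith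
      have e3 := e1.trans e2
      exact le_of_mul_le_mul_right e3 hD
    have hc4 : (S1.card : ℝ) / c ≤ (#{z : (R × Formula n k M) × (Fin M → Fin (L + 1) × Pat k) |
        g z.1 (moveR z.1 z.2)} : ℝ) / c + (S2.card : ℝ) / c := by
      rw [← add_div]
      exact div_le_div_of_nonneg_right hc1 hcpos.le
    linarith
  -- upper bound
  have hupper := walk_bound (L := L) (K := 2 ^ a) (K' := 2 * (L + 1)) (m := m) (M := M) hk A δ
    (Real.exp (ε * n / 4)) hδ0.le (by linarith) (delta_pow ε hε hε1 k m hm2 hkε)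
    (Nat.one_le_two_pow) rfl ha1 (by
      intro σ
      refine (ball_bound σ (2 * (δ * n)) (2 * δ) (by positivity) (by positivity)
        (by linarith)).trans ?_
      apply Real.exp_le_exp.mpr
      exact hδB n)
  have hnum := hn₀ n hn0 m (2 ^ a) (M / 2 ^ k) s hm1 hm2 hE hcon hs0 (by
    have h1 : ((2 ^ a : ℕ) : ℝ) ≤ (2 * (m * (2 * (L + 1))) : ℕ) := by exact_mod_cast ha2
    refine h1.trans ?_
    push_cast
    have h2 : (0 : ℝ) ≤ m := Nat.cast_nonneg _
    nlinarith)
  have hcard : (Fintype.card ((R × Formula n k M) × (Fin (2 ^ a) → Fin M → Fin (L + 1) × Pat k)) :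
      ℝ) = Fintype.card (R × Formula n k M) *
        (Fintype.card (Fin M → Fin (L + 1) × Pat k) : ℝ) ^ (2 ^ a) := by
    rw [Fintype.card_prod, Fintype.card_fun (α := Fin (2 ^ a)), Fintype.card_fin]
    push_cast
    rfl
  rw [hcard] at hupper
  have h1 : (q ^ 2 / 2) ^ (2 ^ a) ≤ _ := (pow_le_pow_left₀ (by positivity) hstep (2 ^ a)).trans hpath
  have hden : (0 : ℝ) < Fintype.card (R × Formula n k M) *
        (Fintype.card (Fin M → Fin (L + 1) × Pat k) : ℝ) ^ (2 ^ a) := by positivity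
  rw [le_div_iff₀ hden] at h1
  have h2 := h1.trans hupper
  rw [mul_comm] at h2
  have h3 := le_of_mul_le_mul_left h2 hden
  push_cast at hnum h3
  linarith

end Pool.Agent.KS
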