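import Pool.Agent.Lib.MP_f017c9_lc.DefsG

/-!
# MP_f017c9_lc, project KALG, module UH: choice of the parameters
-/

namespace Pool.Agent.KS

open Finset

lemma NumericG_u {ε : ℝ} (hε : 0 < ε) (hε1 : ε ≤ 1) : 2.77 ≤ Real.log (16 / ε) := by
  have h0 : 0 ≤ Real.log (1 / ε) := Real.log_nonneg (by rw [le_div_iff₀ hε]; linarith)
  have h1 : Real.log (16 / ε) = 4 * Real.log 2 + Real.log (1 / ε) := by
    rw [show (16 : ℝ) / ε = 2 ^ 4 * (1 / ε) by ring, Real.log_mul (by norm_num) (by positivity),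
      Real.log_pow]
    norm_num
  have h2 := Real.log_two_gt_d9
  rw [h1]
  linarith

lemma NumericG_choose {r D : ℕ} (h : 16 * D ≤ r) :
    ((∑ d ∈ range (D + 1), r.choose d : ℕ) : ℝ) ≤ (3 / 2 : ℝ) ^ r := by
  have h1 : ((8 : ℝ) / 7) ^ r = ∑ d ∈ range (r + 1), (1 / 7 : ℝ) ^ d * (r.choose d : ℝ) := by
    rw [show (8 : ℝ) / 7 = 1 / 7 + 1 by norm_num, add_pow]
    simp
  have h2 : (1 / 7 : ℝ) ^ D * ((∑ d ∈ range (D + 1), r.choose d : ℕ) : ℝ) ≤ ((8 : ℝ) / 7) ^ r := by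
    rw [h1]
    push_cast
    rw [mul_sum]
    calc ∑ d ∈ range (D + 1), (1 / 7 : ℝ) ^ D * (r.choose d : ℝ)
        ≤ ∑ d ∈ range (D + 1), (1 / 7 : ℝ) ^ d * (r.choose d : ℝ) := by
          refine sum_le_sum fun d hd => ?_
          have hd : d ≤ D := Nat.lt_succ_iff.1 (mem_range.1 hd)
          exact mul_le_mul_of_nonneg_right
            (pow_le_pow_of_le_one (by norm_num) (by norm_num) hd) (Nat.cast_nonneg _)
      _ ≤ ∑ d ∈ range (r + 1), (1 / 7 : ℝ) ^ d * (r.choose d : ℝ) := by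
          refine sum_le_sum_of_subset_of_nonneg ?_ fun d _ _ => by positivity
          intro d hd
          have := mem_range.1 hd
          exact mem_range.2 (by omega)
  have h3 : (7 : ℝ) ^ D ≤ (21 / 16 : ℝ) ^ r := by
    calc (7 : ℝ) ^ D ≤ ((21 / 16 : ℝ) ^ 16) ^ D := by
          refine pow_le_pow_left₀ (by norm_num) (by norm_num) D
      _ = (21 / 16 : ℝ) ^ (16 * D) := by rw [← pow_mul]
      _ ≤ (21 / 16 : ℝ) ^ r := pow_le_pow_right₀ (by norm_num) h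
  have h4 : ((∑ d ∈ range (D + 1), r.choose d : ℕ) : ℝ) =
      7 ^ D * ((1 / 7 : ℝ) ^ D * ((∑ d ∈ range (D + 1), r.choose d : ℕ) : ℝ)) := by
    rw [← mul_assoc, ← mul_pow]
    norm_num
  rw [h4]
  calc (7 : ℝ) ^ D * ((1 / 7 : ℝ) ^ D * ((∑ d ∈ range (D + 1), r.choose d : ℕ) : ℝ))
      ≤ (21 / 16 : ℝ) ^ r * ((8 : ℝ) / 7) ^ r := by
        refine mul_le_mul h3 h2 (by positivity) (by positivity)
    _ = (3 / 2 : ℝ) ^ r := by
        rw [← mul_pow]
        norm_num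

lemma NumericG_growth {ε : ℝ} (hε : 0 < ε) {g : ℕ} (hg : 1 ≤ g) : ∃ r₀ : ℕ, ∀ r ≥ r₀,
    (g : ℝ) * Real.log 2 + (3 / 2 : ℝ) ^ r * Real.log g ≤ 24 / 100 * ε * 2 ^ r := by
  set C : ℝ := (g : ℝ) * Real.log 2 + Real.log g with hC
  have hg' : (1 : ℝ) ≤ g := by exact_mod_cast hg
  have hl : 0 ≤ Real.log g := Real.log_nonneg hg'
  have hl2 : 0 ≤ Real.log 2 := Real.log_nonneg (by norm_num)
  obtain ⟨r₀, hr₀⟩ := exists_nat_ge (3 * C / (24 / 100 * ε))
  refine ⟨r₀, fun r hr => ?_⟩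
  have h1 : (3 / 2 : ℝ) ^ r * C ≥ (g : ℝ) * Real.log 2 + (3 / 2 : ℝ) ^ r * Real.log g := by
    have h2 : (1 : ℝ) ≤ (3 / 2 : ℝ) ^ r := one_le_pow₀ (by norm_num)
    rw [hC]
    nlinarith [mul_nonneg (sub_nonneg.2 h2) (mul_nonneg (Nat.cast_nonneg g) hl2)]
  have h3 : (1 : ℝ) + r * (1 / 3) ≤ (4 / 3 : ℝ) ^ r := by
    have := one_add_mul_le_pow (show (-2 : ℝ) ≤ 1 / 3 by norm_num) r
    rw [show (4 : ℝ) / 3 = 1 + 1 / 3 by norm_num]
    exact this
  have h4 : C ≤ 24 / 100 * ε * (4 / 3 : ℝ) ^ r := by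
    have h5 : 3 * C / (24 / 100 * ε) ≤ r := hr₀.trans (by exact_mod_cast hr)
    rw [div_le_iff₀ (by positivity)] at h5
    have h6 : 24 / 100 * ε * (1 + r * (1 / 3)) ≤ 24 / 100 * ε * (4 / 3 : ℝ) ^ r :=
      mul_le_mul_of_nonneg_left h3 (by positivity)
    nlinarith
  have h7 : (2 : ℝ) ^ r = (3 / 2 : ℝ) ^ r * (4 / 3 : ℝ) ^ r := by
    rw [← mul_pow]; norm_num
  rw [h7]
  calc (g : ℝ) * Real.log 2 + (3 / 2 : ℝ) ^ r * Real.log g ≤ (3 / 2 : ℝ) ^ r * C := h1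
    _ ≤ (3 / 2 : ℝ) ^ r * (24 / 100 * ε * (4 / 3 : ℝ) ^ r) :=
        mul_le_mul_of_nonneg_left h4 (by positivity)
    _ = 24 / 100 * ε * ((3 / 2 : ℝ) ^ r * (4 / 3 : ℝ) ^ r) := by ring

lemma NumericG_T {ε E : ℝ} {g r S n : ℕ} (hg : 1 ≤ g)
    (hS : (S : ℝ) ≤ (3 / 2 : ℝ) ^ r)
    (hr : (g : ℝ) * Real.log 2 + (3 / 2 : ℝ) ^ r * Real.log g ≤ 24 / 100 * ε * 2 ^ r)
    (hE : ε * n ≤ E) :
    ((2 : ℝ) ^ g * (g : ℝ) ^ S) ^ n * Real.exp (-(49 / 100) * 2 ^ r * E) ≤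
      Real.exp (-(25 / 100 * ε * 2 ^ r * n)) := by
  have hg' : (1 : ℝ) ≤ g := by exact_mod_cast hg
  have hl : 0 ≤ Real.log g := Real.log_nonneg hg'
  have h1 : (2 : ℝ) ^ g * (g : ℝ) ^ S ≤ Real.exp (24 / 100 * ε * 2 ^ r) := by
    have h2 : (2 : ℝ) ^ g = Real.exp (g * Real.log 2) := by
      rw [Real.exp_nat_mul, Real.exp_log (by norm_num)]
    have h3 : (g : ℝ) ^ S = Real.exp (S * Real.log g) := by
      rw [Real.exp_nat_mul, Real.exp_log (by linarith)]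
    rw [h2, h3, ← Real.exp_add]
    apply Real.exp_le_exp.2
    have := mul_le_mul_of_nonneg_right hS hl
    linarith
  calc ((2 : ℝ) ^ g * (g : ℝ) ^ S) ^ n * Real.exp (-(49 / 100) * 2 ^ r * E)
      ≤ Real.exp (24 / 100 * ε * 2 ^ r) ^ n * Real.exp (-(49 / 100) * 2 ^ r * E) := by
        gcongr
    _ = Real.exp (n * (24 / 100 * ε * 2 ^ r) + (-(49 / 100) * 2 ^ r * E)) := by
        rw [← Real.exp_nat_mul, ← Real.exp_add]
    _ ≤ Real.exp (-(25 / 100 * ε * 2 ^ r * n)) := by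
        apply Real.exp_le_exp.2
        have h4 : (2 : ℝ) ^ r * (ε * n) ≤ 2 ^ r * E :=
          mul_le_mul_of_nonneg_left hE (by positivity)
        nlinarith

lemma NumericG_left {ε E : ℝ} {m K K0 n : ℕ} (hε : 0 < ε) (hE : ε * n ≤ E)
    (hm : 6 / ε ≤ (m : ℝ)) (hK : K ≤ K0) :
    ((K : ℝ) + 1) ^ 2 * (Real.exp (ε * n / 4) * Real.exp (-(49 / 100) * E)) +
      ((K : ℝ) + 1) ^ (m + 1) * ((2 ^ n * ((m : ℝ) * Real.exp (ε * n / 4)) ^ m) *
        Real.exp (-(49 / 100) * (m + 1) * E)) ≤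
    (((K0 : ℝ) + 1) ^ 2 + ((K0 : ℝ) + 1) ^ (m + 1) * (m : ℝ) ^ m) *
      Real.exp (-(24 / 100 * ε * n)) := by
  have hK' : (K : ℝ) ≤ K0 := by exact_mod_cast hK
  have hK0 : (0 : ℝ) ≤ K := Nat.cast_nonneg K
  have hn0 : (0 : ℝ) ≤ n := Nat.cast_nonneg n
  have hm0 : (0 : ℝ) ≤ m := Nat.cast_nonneg m
  have h1 : Real.exp (ε * n / 4) * Real.exp (-(49 / 100) * E) ≤
      Real.exp (-(24 / 100 * ε * n)) := by
    rw [← Real.exp_add]
    apply Real.exp_le_exp.2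
    nlinarith
  have h2 : (2 ^ n * ((m : ℝ) * Real.exp (ε * n / 4)) ^ m) *
        Real.exp (-(49 / 100) * (m + 1) * E) ≤ (m : ℝ) ^ m * Real.exp (-(24 / 100 * ε * n)) := by
    have h3 : (2 : ℝ) ^ n = Real.exp (n * Real.log 2) := by
      rw [Real.exp_nat_mul, Real.exp_log (by norm_num)]
    rw [mul_pow, ← Real.exp_nat_mul, h3]
    have h4 : Real.exp (n * Real.log 2) * ((m : ℝ) ^ m * Real.exp (m * (ε * n / 4))) *
        Real.exp (-(49 / 100) * (m + 1) * E) = (m : ℝ) ^ m *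
        Real.exp (n * Real.log 2 + m * (ε * n / 4) + (-(49 / 100) * (m + 1) * E)) := by
      rw [Real.exp_add, Real.exp_add]; ring
    rw [h4]
    refine mul_le_mul_of_nonneg_left (Real.exp_le_exp.2 ?_) (by positivity)
    have h5 := Real.log_two_lt_d9
    have h6 : 6 ≤ m * ε := by rwa [div_le_iff₀ hε] at hm
    have h7 : (n : ℝ) * 6 ≤ n * (m * ε) := mul_le_mul_of_nonneg_left h6 hn0
    have h8 : ((m : ℝ) + 1) * (ε * n) ≤ (m + 1) * E :=
      mul_le_mul_of_nonneg_left hE (by positivity)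
    have h9 : (n : ℝ) * Real.log 2 ≤ n * 0.6931471808 :=
      mul_le_mul_of_nonneg_left h5.le hn0
    have h10 : 0 ≤ ε * n := by positivity
    nlinarith
  calc ((K : ℝ) + 1) ^ 2 * (Real.exp (ε * n / 4) * Real.exp (-(49 / 100) * E)) +
      ((K : ℝ) + 1) ^ (m + 1) * ((2 ^ n * ((m : ℝ) * Real.exp (ε * n / 4)) ^ m) *
        Real.exp (-(49 / 100) * (m + 1) * E))
      ≤ ((K0 : ℝ) + 1) ^ 2 * Real.exp (-(24 / 100 * ε * n)) +
        ((K0 : ℝ) + 1) ^ (m + 1) * ((m : ℝ) ^ m * Real.exp (-(24 / 100 * ε * n))) := by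
        refine add_le_add ?_ ?_
        · exact mul_le_mul (by gcongr) h1 (by positivity) (by positivity)
        · exact mul_le_mul (by gcongr) h2 (by positivity) (by positivity)
    _ = _ := by ring

lemma NumericG_frac {ε K n : ℝ} (hε : 0 ≤ ε) (hK : 0 ≤ K) (hn : 0 ≤ n) :
    ε / (10 * (K + 1)) * n ≤ ε * n / 10 ∧ K * (ε / (10 * (K + 1)) * n) ≤ ε * n / 10 := by
  have h0 : 0 ≤ ε * n := mul_nonneg hε hn
  have h1 : 0 ≤ ε * n * K := mul_nonneg h0 hK
  constructor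
  · rw [div_mul_eq_mul_div, div_le_div_iff₀ (by positivity) (by norm_num)]
    nlinarith
  · rw [div_mul_eq_mul_div, mul_div_assoc', div_le_div_iff₀ (by positivity) (by norm_num)]
    nlinarith

theorem numericG (ε : ℝ) (hε : 0 < ε) (hε1 : ε ≤ 1) (g : ℕ) (hg : 1 ≤ g) :
    ∃ k₀ : ℕ, ∀ k ≥ k₀,
      (1 ≤ ⌊ε / (16 * Real.log (16 / ε)) * k⌋₊ ∧
        ((2 : ℝ) ^ ⌊ε / (16 * Real.log (16 / ε)) * k⌋₊ - 1) *
          (1 - ε / (16 * Real.log (16 / ε))) ^ k ≤ 1 / 2 ∧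
        16 * Real.log (16 / ε) ^ 2 ≤ ε * k) ∧
      ∃ c' : ℝ, 0 < c' ∧ ∃ n₀ : ℕ, ∀ n ≥ n₀, ∀ (r m K D : ℕ) (E q π : ℝ),
        r = ⌊ε / (16 * Real.log (16 / ε)) * k⌋₊ →
        (D : ℝ) ≤ ε / (16 * Real.log (16 / ε)) / 16 * k → m = ⌈6 / ε⌉₊ →
        K ≤ 2 * (m * (2 * r)) → ε * n ≤ E → Real.exp (-c' * n) < q → q ≤ 1 →
        q ^ (2 ^ r) - ((2 : ℝ) ^ g * (g : ℝ) ^ (∑ d ∈ range (D + 1), r.choose d)) ^ n *
          Real.exp (-(49 / 100) * 2 ^ r * E) ≤ 4 ^ r * π →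
        (K + 1) ^ 2 * (Real.exp (ε * n / 4) * Real.exp (-(49 / 100) * E)) +
          (K + 1) ^ (m + 1) * ((2 ^ n * (m * Real.exp (ε * n / 4)) ^ m) *
            Real.exp (-(49 / 100) * (m + 1) * E)) < π ^ K := by
  have hu := NumericG_u hε hε1
  set u := Real.log (16 / ε) with hudef
  have hu0 : 0 < u := by linarith
  set δ := ε / (16 * u) with hδ
  have hδ0 : 0 < δ := by positivity
  have hδ1 : δ ≤ 1 / 4 := by
    rw [hδ, div_le_div_iff₀ (by positivity) (by norm_num)]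
    nlinarith
  obtain ⟨r₀, hr₀⟩ := NumericG_growth hε hg
  obtain ⟨k₀, hk₀⟩ := exists_nat_ge (max ((r₀ + 3) / δ) (16 * u ^ 2 / ε))
  refine ⟨k₀, fun k hk => ?_⟩
  have hk' : (k₀ : ℝ) ≤ k := by exact_mod_cast hk
  have hka : (r₀ : ℝ) + 3 ≤ δ * k := by
    have := (le_max_left _ _).trans (hk₀.trans hk')
    rw [div_le_iff₀ hδ0] at this
    linarith
  have hkb : 16 * u ^ 2 ≤ ε * k := by
    have := (le_max_right _ _).trans (hk₀.trans hk')
    rw [div_le_iff₀ hε] at this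
    linarith
  have hr0' : (0 : ℝ) ≤ r₀ := Nat.cast_nonneg r₀
  set r := ⌊δ * k⌋₊ with hr
  have hrle : (r : ℝ) ≤ δ * k := Nat.floor_le (by positivity)
  have hrlt : δ * k < r + 1 := Nat.lt_floor_add_one _
  have hrr : r₀ ≤ r := by
    have : (r₀ : ℝ) < r + 1 := by linarith
    have : r₀ < r + 1 := by exact_mod_cast this
    omega
  have hr1 : 1 ≤ r := by
    have : (1 : ℝ) < r + 1 := by linarith
    have : 1 < r + 1 := by exact_mod_cast this
    omega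
  refine ⟨⟨hr1, ?_, hkb⟩, ?_⟩
  · have h1 : (1 - δ) ^ k ≤ Real.exp (-(δ * k)) := by
      have h2 : (1 - δ) ≤ Real.exp (-δ) := by
        have := Real.add_one_le_exp (-δ)
        linarith
      calc (1 - δ) ^ k ≤ Real.exp (-δ) ^ k := pow_le_pow_left₀ (by linarith) h2 k
        _ = Real.exp (k * (-δ)) := (Real.exp_nat_mul _ _).symm
        _ = Real.exp (-(δ * k)) := by congr 1; ring
    have h3 : (2 : ℝ) ^ r = Real.exp (r * Real.log 2) := by
      rw [Real.exp_nat_mul, Real.exp_log (by norm_num)]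
    have h4 : (1 : ℝ) ≤ 2 ^ r := one_le_pow₀ (by norm_num)
    have h5 : 0 ≤ (1 - δ) ^ k := pow_nonneg (by linarith) k
    have h6 := Real.log_two_lt_d9
    have h6' := Real.log_two_gt_d9
    calc ((2 : ℝ) ^ r - 1) * (1 - δ) ^ k ≤ 2 ^ r * (1 - δ) ^ k :=
          mul_le_mul_of_nonneg_right (by linarith) h5
      _ ≤ 2 ^ r * Real.exp (-(δ * k)) := mul_le_mul_of_nonneg_left h1 (by positivity)
      _ = Real.exp (r * Real.log 2 + -(δ * k)) := by rw [h3, Real.exp_add]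
      _ ≤ Real.exp (-Real.log 2) := by
          apply Real.exp_le_exp.2
          have h7 : (r : ℝ) * Real.log 2 ≤ δ * k * Real.log 2 :=
            mul_le_mul_of_nonneg_right hrle (by linarith)
          nlinarith
      _ = 1 / 2 := by rw [Real.exp_neg, Real.exp_log (by norm_num)]; norm_num
  · set m := ⌈6 / ε⌉₊ with hm
    have hm6 : 6 / ε ≤ (m : ℝ) := Nat.le_ceil _
    set K0 := 2 * (m * (2 * r)) with hK0
    have hK00 : (0 : ℝ) ≤ K0 := Nat.cast_nonneg K0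
    have h2r : (1 : ℝ) ≤ 2 ^ r := one_le_pow₀ (by norm_num)
    set c : ℝ := ε / (10 * (K0 + 1) * 2 ^ r) with hc
    have hc0 : 0 < c := by positivity
    set C1 : ℝ := ((K0 : ℝ) + 1) ^ 2 + ((K0 : ℝ) + 1) ^ (m + 1) * (m : ℝ) ^ m with hC1
    have hC10 : 0 < C1 := by positivity
    set C3 : ℝ := (2 * 4 ^ r : ℝ) ^ K0 with hC3
    have hC30 : 0 < C3 := by positivity
    obtain ⟨n₀, hn₀⟩ := exists_nat_ge (max (C1 * C3 / (14 / 100 * ε)) (10 / ε))
    refine ⟨c, hc0, n₀, ?_⟩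
    intro n hn r' m' K D E q π hr' hD hm' hK hE hq hq1 hπ
    subst hr'
    subst hm'
    have hn' : (n₀ : ℝ) ≤ n := by exact_mod_cast hn
    have hn0 : (0 : ℝ) ≤ n := Nat.cast_nonneg n
    have hna : C1 * C3 ≤ 14 / 100 * ε * n := by
      have := (le_max_left _ _).trans (hn₀.trans hn')
      rw [div_le_iff₀ (by positivity)] at this
      linarith
    have hnb : 10 ≤ ε * n := by
      have := (le_max_right _ _).trans (hn₀.trans hn')
      rw [div_le_iff₀ hε] at this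
      linarith
    have hDr : 16 * D ≤ r := by
      have h1 : (16 : ℝ) * D ≤ δ * k := by
        have : δ / 16 * k = δ * k / 16 := by ring
        rw [this] at hD
        linarith
      have h2 : (16 : ℝ) * D < r + 1 := lt_of_le_of_lt h1 hrlt
      have h3 : 16 * D < r + 1 := by exact_mod_cast h2
      omega
    have hS := NumericG_choose hDr
    have hT := NumericG_T (E := E) (n := n) hg hS (hr₀ r hrr) hE
    set T := ((2 : ℝ) ^ g * (g : ℝ) ^ (∑ d ∈ range (D + 1), r.choose d)) ^ n *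
      Real.exp (-(49 / 100) * 2 ^ r * E) with hTdef
    have hleft := NumericG_left (E := E) hε hE hm6 hK
    set b : ℝ := Real.exp (-(ε / (10 * (K0 + 1)) * n)) / (2 * 4 ^ r) with hb
    have hb0 : 0 < b := by positivity
    have h4r : (1 : ℝ) ≤ 4 ^ r := one_le_pow₀ (by norm_num)
    have hb1 : b ≤ 1 := by
      rw [hb, div_le_one (by positivity)]
      have h1 : 0 ≤ ε / (10 * (K0 + 1)) * n := by positivity
      have h2 : Real.exp (-(ε / (10 * (K0 + 1)) * n)) ≤ 1 :=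
        Real.exp_le_one_iff.2 (neg_nonpos.2 h1)
      linarith
    have hqp : Real.exp (-(ε / (10 * (K0 + 1)) * n)) ≤ q ^ (2 ^ r) := by
      have h1 : Real.exp (-c * n) ^ (2 ^ r) ≤ q ^ (2 ^ r) :=
        pow_le_pow_left₀ (Real.exp_pos _).le hq.le _
      refine le_trans (le_of_eq ?_) h1
      rw [← Real.exp_nat_mul]
      congr 1
      rw [hc]
      push_cast
      field_simp
    have hTb : T ≤ Real.exp (-(ε / (10 * (K0 + 1)) * n)) / 2 := by
      refine hT.trans ?_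
      have h1 : Real.exp (-(ε / (10 * (K0 + 1)) * n)) / 2 =
          Real.exp (-(ε / (10 * (K0 + 1)) * n) + -Real.log 2) := by
        rw [Real.exp_add, Real.exp_neg (Real.log 2), Real.exp_log (by norm_num)]
        ring
      rw [h1]
      apply Real.exp_le_exp.2
      have h2 : ε / (10 * (K0 + 1)) * n ≤ ε * n / 10 := (NumericG_frac hε.le hK00 hn0).1
      have h3 : ε * n ≤ ε * 2 ^ r * n := by
        have : ε * n * 1 ≤ ε * n * 2 ^ r := mul_le_mul_of_nonneg_left h2r (by positivity)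
        linarith
      have h4 := Real.log_two_lt_d9
      linarith
    have hπb : b ≤ π := by
      have h1 : Real.exp (-(ε / (10 * (K0 + 1)) * n)) / 2 ≤ 4 ^ r * π := by linarith
      rw [hb, div_le_iff₀ (by positivity)]
      linarith
    have hpow : b ^ K0 ≤ π ^ K :=
      (pow_le_pow_of_le_one hb0.le hb1 hK).trans (pow_le_pow_left₀ hb0.le hπb K)
    have hbpow : Real.exp (-(ε * n / 10)) / C3 ≤ b ^ K0 := by
      rw [hb, div_pow, hC3, ← Real.exp_nat_mul]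
      refine div_le_div_of_nonneg_right (Real.exp_le_exp.2 ?_) (by positivity)
      have := (NumericG_frac hε.le hK00 hn0).2
      linarith
    refine lt_of_le_of_lt hleft (lt_of_lt_of_le ?_ (hbpow.trans hpow))
    rw [lt_div_iff₀ hC30]
    have h1 : C1 * C3 < Real.exp (14 / 100 * ε * n) := by
      have := Real.add_one_le_exp (14 / 100 * ε * n)
      linarith
    have h2 : Real.exp (-(ε * n / 10)) =
        Real.exp (14 / 100 * ε * n) * Real.exp (-(24 / 100 * ε * n)) := by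
      rw [← Real.exp_add]; congr 1; ring
    rw [h2]
    have h3 := mul_lt_mul_of_pos_right h1 (Real.exp_pos (-(24 / 100 * ε * n)))
    linarith

end Pool.Agent.KS
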