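import Pool.Agent.Lib.MP_f017c9_lc.Main
import Pool.Agent.Lib.MP_f017c9_lc.Moment
import Pool.Agent.Lib.MP_f017c9_lc.ChainJ
import Pool.Agent.Lib.MP_f017c9_lc.ChaosJ
import Pool.Agent.Lib.MP_f017c9_lc.Family
import Pool.Agent.Lib.MP_f017c9_lc.Extract
import Pool.Agent.Lib.MP_f017c9_lc.NumericG

/-!
# Random k-SAT: functions of group sums have exponentially small success probability (assembly)
-/

namespace Pool.Agent.KS

open Finset

/-! ### the walk with general labels -/

theorem moveJ_run {n k M r K : ℕ} (J₀ : Finset (Fin r)) (F : Formula n k M)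
    (w : Fin K → Fin M → Fin r × Pat k) (t : ℕ) (j : Fin M) :
    run (moveJ J₀) F w t j = ((F j).1, run (moveJ1 J₀) (F j).2 (fun u => w u j) t) := by
  induction t with
  | zero => rfl
  | succ t ih =>
    unfold run
    split_ifs with h
    · simp only [moveJ]
      rw [ih]
    · exact ih

/-- the reverse letters -/
def revJR {n k M r : ℕ} {R : Type} (J₀ : Finset (Fin r)) (x : R × Formula n k M)
    (a : Fin M → Fin r × Pat k) : Fin M → Fin r × Pat k :=
  fun j => ((a j).1, if (a j).1 ∈ J₀ then (x.2 j).2 else (a j).2)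

theorem moveJR_revJR {n k M r : ℕ} {R : Type} (J₀ : Finset (Fin r)) (x : R × Formula n k M)
    (a : Fin M → Fin r × Pat k) : moveJR J₀ (moveJR J₀ x a) (revJR J₀ x a) = x := by
  refine Prod.ext rfl ?_
  funext j
  refine Prod.ext rfl ?_
  simp only [moveJR, moveJ, moveJ1, revJR]
  split_ifs <;> rfl

theorem revJR_revJR {n k M r : ℕ} {R : Type} (J₀ : Finset (Fin r)) (x : R × Formula n k M)
    (a : Fin M → Fin r × Pat k) : revJR J₀ (moveJR J₀ x a) (revJR J₀ x a) = a := by
  funext j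
  simp only [moveJR, moveJ, moveJ1, revJR]
  refine Prod.ext rfl ?_
  dsimp only
  split_ifs <;> rfl

theorem run_moveJR {n k M r K : ℕ} {R : Type} (J₀ : Finset (Fin r)) (x : R × Formula n k M)
    (w : Fin K → Fin M → Fin r × Pat k) (t : ℕ) :
    run (moveJR J₀) x w t = (x.1, run (moveJ J₀) x.2 w t) := by
  induction t with
  | zero => rfl
  | succ t ih =>
    unfold run
    split_ifs with h
    · rw [ih]; rfl
    · exact ih

theorem tuple_momentJ {n k M r K m : ℕ} (hk : k ≤ n) (hr : 1 ≤ r) (J₀ : Finset (Fin r)) (δ : ℝ)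
    (hδ0 : 0 ≤ δ) (hδ : δ ≤ 1 / 2)
    (hm : (m : ℝ) * (1 - δ) ^ k ≤ 1 / 2) (τ : Fin (m + 1) → ℕ) (hτ : ∀ l, τ l ≤ K)
    (σ : Fin (m + 1) → Asg n)
    (hσ : ∀ l l', l ≠ l' → δ * n < (hammingDist (σ l) (σ l') : ℝ)) :
    (#{z : Formula n k M × (Fin K → Fin M → Fin r × Pat k) |
        ∀ l, (numViolated (σ l) (run (moveJ J₀) z.1 z.2 (τ l)) : ℝ) ≤ M / 2 ^ k / 20} : ℝ) ≤
      Fintype.card (Formula n k M × (Fin K → Fin M → Fin r × Pat k)) *
        Real.exp (-(49 / 100) * (m + 1) * (M / 2 ^ k)) := by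
  classical
  have : Nonempty (Fin r) := ⟨⟨0, hr⟩⟩
  have hc : (0 : ℝ) ≤ 1 - (J₀.card : ℝ) / r ∧ 1 - (J₀.card : ℝ) / r ≤ 1 := by
    have h0 : J₀.card ≤ r := by
      have := card_le_univ J₀
      rwa [Fintype.card_fin] at this
    have h1 : (J₀.card : ℝ) ≤ r := by exact_mod_cast h0
    have h2 : (0 : ℝ) < r := by exact_mod_cast hr
    constructor
    · rw [sub_nonneg, div_le_one h2]; exact h1
    · have : (0 : ℝ) ≤ (J₀.card : ℝ) / r := by positivity
      linarith
  set c : ℝ := 1 - (J₀.card : ℝ) / r with hcdef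
  let W := Pat k × (Fin K → Fin r × Pat k)
  let pat : Fin (m + 1) → W → Pat k := fun l w => run (moveJ1 J₀) w.1 w.2 (τ l)
  have key := moment (M := M) hk (W := W) (Λ := Fin (m + 1)) pat
    (by
      intro l a
      have := chain_pairJ k r K (τ l) (τ l) hr J₀ le_rfl (hτ l) a a
      simp only [and_self, Nat.sub_self, pow_zero, if_true, mul_one, sub_self, zero_mul,
        add_zero] at this
      exact this)
    (fun l l' => c ^ (max (τ l) (τ l') - min (τ l) (τ l')))
    (fun l l' => ⟨pow_nonneg hc.1 _, pow_le_one₀ hc.1 hc.2⟩)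
    (by
      intro l l' _ a b
      apply le_of_eq
      rcases le_total (τ l) (τ l') with h | h
      · have := chain_pairJ k r K (τ l) (τ l') hr J₀ h (hτ l') a b
        rw [max_eq_right h, min_eq_left h]
        exact this
      · have := chain_pairJ k r K (τ l') (τ l) hr J₀ h (hτ l) b a
        rw [max_eq_left h, min_eq_right h]
        have e1 : (univ.filter fun w : W => pat l w = a ∧ pat l' w = b) =
            univ.filter fun w : W => pat l' w = b ∧ pat l w = a := by
          ext w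
          simp only [mem_filter, mem_univ, true_and]
          exact and_comm
        have e2 : (if a = b then (1 : ℝ) else 0) = if b = a then 1 else 0 := by
          simp only [eq_comm]
        rw [e1, e2]
        exact this)
    δ hδ0 hδ (by
      rw [Fintype.card_fin]
      push_cast
      have : ((m : ℝ) + 1 - 1) = m := by ring
      rw [this]
      exact hm) σ hσ
  let eqv : Formula n k M × (Fin K → Fin M → Fin r × Pat k) ≃
      (Fin M → (Fin k ↪ Fin n) × W) :=
    { toFun := fun z j => ((z.1 j).1, ((z.1 j).2, fun t => z.2 t j))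
      invFun := fun y => (fun j => ((y j).1, (y j).2.1), fun t j => (y j).2.2 t)
      left_inv := fun z => rfl
      right_inv := fun y => rfl }
  rw [Fintype.card_fin] at key
  have hcard : Fintype.card (Formula n k M × (Fin K → Fin M → Fin r × Pat k)) =
      Fintype.card (Fin M → (Fin k ↪ Fin n) × W) := Fintype.card_congr eqv
  rw [hcard]
  have hfil : (#{z : Formula n k M × (Fin K → Fin M → Fin r × Pat k) |
        ∀ l, (numViolated (σ l) (run (moveJ J₀) z.1 z.2 (τ l)) : ℝ) ≤ M / 2 ^ k / 20}) =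
      #{z : Fin M → (Fin k ↪ Fin n) × W |
        ∀ l, (#{j : Fin M | Violated (σ l) ((z j).1, pat l (z j).2)} : ℝ) ≤ M / 2 ^ k / 20} := by
    apply card_equiv eqv
    intro z
    simp only [mem_filter, mem_univ, true_and]
    have : ∀ l, numViolated (σ l) (run (moveJ J₀) z.1 z.2 (τ l)) =
        #{j : Fin M | Violated (σ l) ((eqv z j).1, pat l (eqv z j).2)} := by
      intro l
      unfold numViolated
      congr 1
      ext j
      simp only [mem_filter, mem_univ, true_and]
      rw [moveJ_run]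
      exact Iff.rfl
    constructor
    · intro h l
      rw [← this l]; exact h l
    · intro h l
      rw [this l]; exact h l
  rw [hfil]
  push_cast at key
  convert key

/-- the probability of a good walk is small -/
theorem walk_boundJ {n k M r K K' m : ℕ} (hk : k ≤ n) (hr : 1 ≤ r) (J₀ : Finset (Fin r))
    (hJ : J₀.Nonempty) {R : Type} [Fintype R] [Nonempty R]
    (A : R → Formula n k M → Asg n) (δ B : ℝ) (hδ0 : 0 ≤ δ) (hδ : δ ≤ 1 / 2)
    (hmδ : (m : ℝ) * (1 - δ) ^ k ≤ 1 / 2) (hK : 1 ≤ K) (hK' : K' = 2 * r) (hm : m * K' ≤ K)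
    (hB : ∀ σ : Asg n, (#{σ' : Asg n | (hammingDist σ σ' : ℝ) ≤ 2 * (δ * n)} : ℝ) ≤ B) :
    (#{z : (R × Formula n k M) × (Fin K → Fin M → Fin r × Pat k) |
        ∀ t < K, ((numViolated (A (run (moveJR J₀) z.1 z.2 t).1 (run (moveJR J₀) z.1 z.2 t).2)
            (run (moveJR J₀) z.1 z.2 t).2 : ℝ) ≤ M / 2 ^ k / 20 ∧
          (numViolated (A (run (moveJR J₀) z.1 z.2 (t + 1)).1 (run (moveJR J₀) z.1 z.2 (t + 1)).2)
            (run (moveJR J₀) z.1 z.2 (t + 1)).2 : ℝ) ≤ M / 2 ^ k / 20 ∧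
          (hammingDist (A (run (moveJR J₀) z.1 z.2 t).1 (run (moveJR J₀) z.1 z.2 t).2)
            (A (run (moveJR J₀) z.1 z.2 (t + 1)).1 (run (moveJR J₀) z.1 z.2 (t + 1)).2) : ℝ) ≤ δ * n)} : ℝ) ≤
      Fintype.card ((R × Formula n k M) × (Fin K → Fin M → Fin r × Pat k)) *
        ((K + 1) ^ 2 * (B * Real.exp (-(49 / 100) * (M / 2 ^ k))) +
          (K + 1) ^ (m + 1) * ((2 ^ n * (m * B) ^ m) *
            Real.exp (-(49 / 100) * (m + 1) * (M / 2 ^ k)))) := by
  classical
  set Z := (R × Formula n k M) × (Fin K → Fin M → Fin r × Pat k) with hZ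
  set N : ℝ := ((Fintype.card Z : ℕ) : ℝ) with hN
  -- the chaos events
  let C : ℕ × ℕ → Finset Z := fun p => univ.filter fun z : Z => ∃ σ' : Asg n,
        (hammingDist (A (run (moveJR J₀) z.1 z.2 p.1).1 (run (moveJR J₀) z.1 z.2 p.1).2) σ' : ℝ) ≤ δ * n ∧
          (numViolated σ' (run (moveJR J₀) z.1 z.2 p.2).2 : ℝ) ≤ M / 2 ^ k / 20
  -- the tuple events
  let T : (Fin (m + 1) → Fin (K + 1)) × (Fin (m + 1) → Asg n) → Finset Z :=
    fun p => univ.filter fun z : Z =>
      ∀ l, (numViolated (p.2 l) (run (moveJ J₀) z.1.2 z.2 (p.1 l)) : ℝ) ≤ M / 2 ^ k / 20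
  let P : Finset (ℕ × ℕ) := (range (K + 1) ×ˢ range (K + 1)).filter fun p => p.1 + K' ≤ p.2
  let Q : Finset ((Fin (m + 1) → Fin (K + 1)) × (Fin (m + 1) → Asg n)) :=
    univ ×ˢ (univ.filter fun σ : Fin (m + 1) → Asg n =>
      (∀ l, l ≠ 0 → ∃ i < l, (hammingDist (σ i) (σ l) : ℝ) ≤ 2 * (δ * n)) ∧
        ∀ l l', l ≠ l' → δ * n < (hammingDist (σ l) (σ l') : ℝ))
  set G : Finset Z := univ.filter fun z : Z =>
        ∀ t < K, ((numViolated (A (run (moveJR J₀) z.1 z.2 t).1 (run (moveJR J₀) z.1 z.2 t).2)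
            (run (moveJR J₀) z.1 z.2 t).2 : ℝ) ≤ M / 2 ^ k / 20 ∧
          (numViolated (A (run (moveJR J₀) z.1 z.2 (t + 1)).1 (run (moveJR J₀) z.1 z.2 (t + 1)).2)
            (run (moveJR J₀) z.1 z.2 (t + 1)).2 : ℝ) ≤ M / 2 ^ k / 20 ∧
          (hammingDist (A (run (moveJR J₀) z.1 z.2 t).1 (run (moveJR J₀) z.1 z.2 t).2)
            (A (run (moveJR J₀) z.1 z.2 (t + 1)).1 (run (moveJR J₀) z.1 z.2 (t + 1)).2) : ℝ) ≤ δ * n) with hG
  have hsub : G ⊆ P.biUnion C ∪ Q.biUnion T := by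
    intro z hz
    rw [hG, mem_filter] at hz
    have hz := hz.2
    have hgood : ∀ t ≤ K, (numViolated (A (run (moveJR J₀) z.1 z.2 t).1 (run (moveJR J₀) z.1 z.2 t).2)
            (run (moveJR J₀) z.1 z.2 t).2 : ℝ) ≤ M / 2 ^ k / 20 := by
      intro t ht
      rcases Nat.lt_or_ge t K with h | h
      · exact (hz t h).1
      · have : t = K := le_antisymm ht h
        subst this
        have h2 := (hz (t - 1) (by omega)).2.1
        rwa [Nat.sub_add_cancel hK] at h2
    by_cases hc : ∃ p ∈ P, z ∈ C p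
    · rw [mem_union, mem_biUnion]; exact Or.inl hc
    · rw [mem_union, mem_biUnion, mem_biUnion]
      right
      have h2 : ∀ i t, i + K' ≤ t → t ≤ K → δ * n <
          (hammingDist ((fun t => A (run (moveJR J₀) z.1 z.2 t).1 (run (moveJR J₀) z.1 z.2 t).2) i)
            ((fun t => A (run (moveJR J₀) z.1 z.2 t).1 (run (moveJR J₀) z.1 z.2 t).2) t) : ℝ) := by
        intro i t hit ht
        by_contra hcon
        push Not at hcon
        apply hc
        refine ⟨(i, t), ?_, ?_⟩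
        · simp only [P, mem_filter, mem_product, mem_range]
          omega
        · simp only [C, mem_filter, mem_univ, true_and]
          exact ⟨A (run (moveJR J₀) z.1 z.2 t).1 (run (moveJR J₀) z.1 z.2 t).2, hcon, hgood t ht⟩
      obtain ⟨τ, -, hτK, hfar, hclose⟩ := select
        (fun t => A (run (moveJR J₀) z.1 z.2 t).1 (run (moveJR J₀) z.1 z.2 t).2) (δ * n)
        (by positivity) K K' m (by omega) hm (fun t ht => (hz t ht).2.2) h2
      refine ⟨(fun l => ⟨τ l, Nat.lt_succ_of_le (hτK l)⟩,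
        fun l => A (run (moveJR J₀) z.1 z.2 (τ l)).1 (run (moveJR J₀) z.1 z.2 (τ l)).2), ?_, ?_⟩
      · simp only [Q, mem_product, mem_univ, true_and, mem_filter]
        exact ⟨hclose, hfar⟩
      · simp only [T, mem_filter, mem_univ, true_and]
        intro l
        have := hgood (τ l) (hτK l)
        rw [run_moveJR] at this ⊢
        exact this
  have hδn : δ * n ≤ 2 * (δ * n) := by
    have : 0 ≤ δ * n := by positivity
    linarith
  have hB' : ∀ σ : Asg n, (#{σ' : Asg n | (hammingDist σ σ' : ℝ) ≤ δ * n} : ℝ) ≤ B := by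
    intro σ
    refine le_trans ?_ (hB σ)
    have : (univ.filter fun σ' : Asg n => (hammingDist σ σ' : ℝ) ≤ δ * n) ⊆
        univ.filter fun σ' : Asg n => (hammingDist σ σ' : ℝ) ≤ 2 * (δ * n) := by
      intro σ'
      simp only [mem_filter, mem_univ, true_and]
      intro h
      linarith
    exact_mod_cast card_le_card this
  have hB0 : 0 ≤ B := le_trans (Nat.cast_nonneg _) (hB fun _ => true)
  have hN0 : 0 ≤ N := Nat.cast_nonneg _
  -- chaos sum
  have hP : (∑ p ∈ P, ((C p).card : ℝ)) ≤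
      N * ((K + 1) ^ 2 * (B * Real.exp (-(49 / 100) * (M / 2 ^ k)))) := by
    have h1 : ∀ p ∈ P, ((C p).card : ℝ) ≤ N * (B * Real.exp (-(49 / 100) * (M / 2 ^ k))) := by
      intro p hp
      simp only [P, mem_filter, mem_product, mem_range] at hp
      exact chaosJ hk J₀ hJ A p.1 p.2 (by omega) (by omega) (δ * n) B hB'
    have h2 : (P.card : ℝ) ≤ (K + 1) ^ 2 := by
      have : P.card ≤ (K + 1) * (K + 1) := by
        refine (card_filter_le _ _).trans ?_
        rw [card_product, card_range]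
      have h3 : (P.card : ℝ) ≤ ((K + 1) * (K + 1) : ℕ) := by exact_mod_cast this
      push_cast at h3
      nlinarith
    calc (∑ p ∈ P, ((C p).card : ℝ)) ≤
        ∑ p ∈ P, N * (B * Real.exp (-(49 / 100) * (M / 2 ^ k))) := sum_le_sum h1
      _ = P.card * (N * (B * Real.exp (-(49 / 100) * (M / 2 ^ k)))) := by
        rw [sum_const, nsmul_eq_mul]
      _ ≤ (K + 1) ^ 2 * (N * (B * Real.exp (-(49 / 100) * (M / 2 ^ k)))) := by
        apply mul_le_mul_of_nonneg_right h2
        positivity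
      _ = _ := by ring
  -- tuple sum
  have hQ : (∑ p ∈ Q, ((T p).card : ℝ)) ≤
      N * ((K + 1) ^ (m + 1) * ((2 ^ n * (m * B) ^ m) *
            Real.exp (-(49 / 100) * (m + 1) * (M / 2 ^ k)))) := by
    have h1 : ∀ p ∈ Q, ((T p).card : ℝ) ≤
        N * Real.exp (-(49 / 100) * (m + 1) * (M / 2 ^ k)) := by
      intro p hp
      simp only [Q, mem_product, mem_univ, true_and, mem_filter] at hp
      have h3 := tuple_momentJ (K := K) (M := M) hk hr J₀ δ hδ0 hδ hmδ (fun l => (p.1 l : ℕ))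
        (fun l => Nat.lt_succ_iff.mp (p.1 l).2) p.2 hp.2
      have h4 : (T p).card = Fintype.card R *
          #{z : Formula n k M × (Fin K → Fin M → Fin r × Pat k) |
            ∀ l, (numViolated (p.2 l) (run (moveJ J₀) z.1 z.2 (p.1 l : ℕ)) : ℝ) ≤ M / 2 ^ k / 20} := by
        rw [← card_univ (α := R), ← card_product]
        refine card_bij (fun z _ => (z.1.1, (z.1.2, z.2))) ?_ ?_ ?_
        · intro z hz
          simp only [T, mem_filter, mem_univ, true_and] at hz
          simp only [mem_product, mem_univ, true_and, mem_filter]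
          exact hz
        · rintro ⟨⟨a, b⟩, c⟩ _ ⟨⟨a', b'⟩, c'⟩ _ h
          have e1 : a = a' := congrArg Prod.fst h
          have e2 : b = b' := congrArg (fun x => x.2.1) h
          have e3 : c = c' := congrArg (fun x => x.2.2) h
          rw [e1, e2, e3]
        · rintro ⟨a, b, c⟩ hz
          refine ⟨((a, b), c), ?_, rfl⟩
          simp only [mem_product, mem_univ, true_and, mem_filter] at hz
          simp only [T, mem_filter, mem_univ, true_and]
          exact hz
      have h5 : N = Fintype.card R *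
          (Fintype.card (Formula n k M × (Fin K → Fin M → Fin r × Pat k)) : ℝ) := by
        change ((Fintype.card ((R × Formula n k M) × (Fin K → Fin M → Fin r × Pat k)) : ℕ) :
          ℝ) = _
        simp only [Fintype.card_prod]
        push_cast
        ring
      rw [h4, h5]
      push_cast
      rw [mul_assoc]
      apply mul_le_mul_of_nonneg_left _ (Nat.cast_nonneg _)
      exact_mod_cast h3
    have h2 : (Q.card : ℝ) ≤ (K + 1) ^ (m + 1) * (2 ^ n * (m * B) ^ m) := by
      have e1 : Q.card ≤ (K + 1) ^ (m + 1) * #{σ : Fin (m + 1) → Asg n |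
        ∀ l, l ≠ 0 → ∃ i < l, (hammingDist (σ i) (σ l) : ℝ) ≤ 2 * (δ * n)} := by
        simp only [Q]
        rw [card_product, card_univ, Fintype.card_fun, Fintype.card_fin, Fintype.card_fin]
        apply Nat.mul_le_mul_left
        apply card_le_card
        intro σ
        simp only [mem_filter, mem_univ, true_and]
        exact fun h => h.1
      have e2 := tuple_count m (2 * (δ * n)) B hB
      have e3 : (Q.card : ℝ) ≤ ((K + 1) ^ (m + 1) * #{σ : Fin (m + 1) → Asg n |
        ∀ l, l ≠ 0 → ∃ i < l, (hammingDist (σ i) (σ l) : ℝ) ≤ 2 * (δ * n)} : ℕ) := by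
        exact_mod_cast e1
      refine e3.trans ?_
      push_cast
      apply mul_le_mul_of_nonneg_left e2
      positivity
    calc (∑ p ∈ Q, ((T p).card : ℝ)) ≤
        ∑ p ∈ Q, N * Real.exp (-(49 / 100) * (m + 1) * (M / 2 ^ k)) := sum_le_sum h1
      _ = Q.card * (N * Real.exp (-(49 / 100) * (m + 1) * (M / 2 ^ k))) := by
        rw [sum_const, nsmul_eq_mul]
      _ ≤ ((K + 1) ^ (m + 1) * (2 ^ n * (m * B) ^ m)) *
          (N * Real.exp (-(49 / 100) * (m + 1) * (M / 2 ^ k))) := by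
        apply mul_le_mul_of_nonneg_right h2
        positivity
      _ = _ := by ring
  have hGc : (G.card : ℝ) ≤ (∑ p ∈ P, ((C p).card : ℝ)) + ∑ p ∈ Q, ((T p).card : ℝ) := by
    have h1 : G.card ≤ (∑ p ∈ P, (C p).card) + ∑ p ∈ Q, (T p).card :=
      (card_le_card hsub).trans ((card_union_le _ _).trans
        (Nat.add_le_add card_biUnion_le card_biUnion_le))
    exact_mod_cast h1
  refine hGc.trans ?_
  rw [mul_add]
  exact add_le_add hP hQ


theorem mainG (ε : ℝ) (hε : 0 < ε) (hε1 : ε ≤ 1) :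
    ∃ c : ℝ, 0 < c ∧ ∀ g : ℕ, ∃ k₀ : ℕ, ∀ k ≥ k₀, ∃ c' : ℝ, 0 < c' ∧ ∃ n₀ : ℕ, ∀ n ≥ n₀,
      ∀ M : ℕ, ε * 2 ^ k * n ≤ M → ∀ (R G : Type) [Fintype R] [Nonempty R] [AddCommGroup G]
        [Fintype G], Fintype.card G ≤ g → ∀ D : ℕ, (D : ℝ) ≤ c * k →
        ∀ A : R → Formula n k M → Asg n, GroupSum G D A →
          successProb A ≤ Real.exp (-c' * n) := by
  classical
  obtain ⟨hδ0, hδ4, hδB⟩ := delta_facts ε hε hε1
  refine ⟨ε / (16 * Real.log (16 / ε)) / 16, by positivity, fun g => ?_⟩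
  obtain ⟨k₀, hk₀⟩ := numericG ε hε hε1 (g + 1) (by omega)
  refine ⟨k₀, fun k hk => ?_⟩
  obtain ⟨⟨hr, hsep, hkε⟩, c', hc', n₀, hn₀⟩ := hk₀ k hk
  refine ⟨c', hc', max n₀ (max k 1), fun n hn M hM R G _ _ _ _ hG D hD A hA => ?_⟩
  have hn0 : n₀ ≤ n := (le_max_left _ _).trans hn
  have hkn : k ≤ n := (le_max_left _ _).trans ((le_max_right _ _).trans hn)
  have hn1 : 1 ≤ n := (le_max_right _ _).trans ((le_max_right _ _).trans hn)
  by_contra hcon
  push Not at hcon
  set δ : ℝ := ε / (16 * Real.log (16 / ε)) with hδ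
  obtain ⟨r, hrdef⟩ : ∃ r : ℕ, r = ⌊δ * k⌋₊ := ⟨_, rfl⟩
  rw [← hrdef] at hr hsep
  obtain ⟨m, hmdef⟩ : ∃ m : ℕ, m = ⌈6 / ε⌉₊ := ⟨_, rfl⟩
  have hm1 : 6 / ε ≤ m := by rw [hmdef]; exact Nat.le_ceil _
  have hm2 : (m : ℝ) ≤ 7 / ε := by
    have h1 := Nat.ceil_lt_add_one (a := 6 / ε) (by positivity)
    rw [← hmdef] at h1
    have h2 : 7 / ε = 6 / ε + 1 / ε := by ring
    have h3 : 1 ≤ 1 / ε := by
      rw [le_div_iff₀ hε]; linarith
    linarith
  have hm0 : 1 ≤ m := by
    have : (0 : ℝ) < m := lt_of_lt_of_le (by positivity) hm1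
    exact_mod_cast this
  obtain ⟨a, ha1, ha2⟩ := exists_two_pow (m * (2 * r)) (Nat.mul_pos hm0 (by omega))
  have hE : ε * n ≤ M / 2 ^ k := by
    rw [le_div_iff₀ (by positivity)]
    linarith
  obtain ⟨𝒢, h𝒢c, h𝒢⟩ := family (G := G) r D
  have hfam : ∀ (u : R) (e : Fin M → (Fin k ↪ Fin n)) (i : Fin M → Fin r)
      (s s' : Fin M → Pat k) (v : Fin n), (fun T => A u (cubeF e i s s' T) v) ∈ 𝒢 := by
    intro u e i s s' v
    obtain ⟨φ, h, hloc, hval⟩ := hA u e v
    have := h𝒢 M (Pat k) φ h hloc i s s'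
    convert this using 1
    funext T
    exact hval _
  obtain ⟨J₀, hJ, hgood⟩ := extract (M := M) hkn hr A 𝒢 hfam δ hδ0.le (by linarith) hsep
  set π : ℝ := (#{z : (R × Formula n k M) × (Fin M → Fin r × Pat k) |
          (numViolated (A z.1.1 z.1.2) z.1.2 : ℝ) ≤ M / 2 ^ k / 20 ∧
          (numViolated (A (moveJR J₀ z.1 z.2).1 (moveJR J₀ z.1 z.2).2)
            (moveJR J₀ z.1 z.2).2 : ℝ) ≤ M / 2 ^ k / 20 ∧
          (hammingDist (A z.1.1 z.1.2) (A (moveJR J₀ z.1 z.2).1 (moveJR J₀ z.1 z.2).2) : ℝ) ≤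
            δ * n} : ℝ) /
        (Fintype.card (R × Formula n k M) * Fintype.card (Fin M → Fin r × Pat k)) with hπ
  have hπ0 : 0 ≤ π := by positivity
  -- the count of the family
  have hcardG : (𝒢.card : ℝ) ≤ (2 : ℝ) ^ (g + 1) *
      ((g + 1 : ℕ) : ℝ) ^ (∑ d ∈ range (D + 1), r.choose d) := by
    refine h𝒢c.trans ?_
    apply mul_le_mul
    · exact pow_le_pow_right₀ (by norm_num) (by omega)
    · apply pow_le_pow_left₀ (Nat.cast_nonneg _)
      exact_mod_cast (by omega : Fintype.card G ≤ g + 1)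
    · positivity
    · positivity
  have hgood2 : successProb A ^ (2 ^ r) -
      ((2 : ℝ) ^ (g + 1) * ((g + 1 : ℕ) : ℝ) ^ (∑ d ∈ range (D + 1), r.choose d)) ^ n *
        Real.exp (-(49 / 100) * 2 ^ r * (M / 2 ^ k)) ≤ 4 ^ r * π := by
    refine le_trans ?_ hgood
    apply sub_le_sub_left
    apply mul_le_mul_of_nonneg_right _ (Real.exp_pos _).le
    exact pow_le_pow_left₀ (Nat.cast_nonneg _) hcardG n
  have hq1 : successProb A ≤ 1 := by
    unfold successProb
    refine div_le_one_of_le₀ ?_ (Nat.cast_nonneg _)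
    exact_mod_cast card_le_univ _
  have hnum := hn₀ n hn0 r m (2 ^ a) D (M / 2 ^ k) (successProb A) π hrdef hD hmdef ha2 hE
    hcon hq1 hgood2
  -- the walk
  let gg : R × Formula n k M → R × Formula n k M → Prop := fun x x' =>
    (numViolated (A x.1 x.2) x.2 : ℝ) ≤ M / 2 ^ k / 20 ∧
      (numViolated (A x'.1 x'.2) x'.2 : ℝ) ≤ M / 2 ^ k / 20 ∧
        (hammingDist (A x.1 x.2) (A x'.1 x'.2) : ℝ) ≤ δ * n
  have hgs : ∀ x x', gg x x' → gg x' x := by
    intro x x' h
    refine ⟨h.2.1, h.1, ?_⟩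
    rw [hammingDist_comm]
    exact h.2.2
  have : Nonempty (Fin k ↪ Fin n) := ⟨Fin.castLEEmb hkn⟩
  have : Nonempty (Formula n k M) := inferInstance
  have : Nonempty (Fin r) := ⟨⟨0, hr⟩⟩
  have hX0 : (0 : ℝ) < Fintype.card (R × Formula n k M) := by
    exact_mod_cast Fintype.card_pos
  have hY0 : (0 : ℝ) < Fintype.card (Fin M → Fin r × Pat k) := by
    exact_mod_cast Fintype.card_pos
  have hpath := path_pow (X := R × Formula n k M) (Y := Fin M → Fin r × Pat k)
    (moveJR J₀) (revJR J₀) (moveJR_revJR J₀) (revJR_revJR J₀) gg hgs a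
  have hupper := walk_boundJ (K := 2 ^ a) (K' := 2 * r) (m := m) (M := M) hkn hr J₀ hJ A δ
    (Real.exp (ε * n / 4)) hδ0.le (by linarith) (delta_pow ε hε hε1 k m hm2 hkε)
    (Nat.one_le_two_pow) rfl ha1 (by
      intro σ
      refine (ball_bound σ (2 * (δ * n)) (2 * δ) (by positivity) (by positivity)
        (by linarith)).trans ?_
      apply Real.exp_le_exp.mpr
      exact hδB n)
  have hcard : (Fintype.card ((R × Formula n k M) × (Fin (2 ^ a) → Fin M → Fin r × Pat k)) :
      ℝ) = Fintype.card (R × Formula n k M) *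
        (Fintype.card (Fin M → Fin r × Pat k) : ℝ) ^ (2 ^ a) := by
    rw [Fintype.card_prod, Fintype.card_fun (α := Fin (2 ^ a)), Fintype.card_fin]
    push_cast
    rfl
  rw [hcard] at hupper
  have h1 : π ^ (2 ^ a) ≤ _ := hpath
  have hden : (0 : ℝ) < Fintype.card (R × Formula n k M) *
        (Fintype.card (Fin M → Fin r × Pat k) : ℝ) ^ (2 ^ a) := by positivity
  rw [le_div_iff₀ hden] at h1
  have h2 := h1.trans hupper
  rw [mul_comm] at h2
  have h3 := le_of_mul_le_mul_left h2 hden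
  push_cast at hnum h3
  linarith

end Pool.Agent.KS
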