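import Pool.Agent.Lib.MP_f017c9_lc.Run

/-!
MP_f017c9_lc, project KSAT, module SA (helper81): positivity of walks (Cauchy-Schwarz doubling).
-/

namespace Pool.Agent.KS

open Finset

set_option linter.unusedSectionVars false

section PathPow

variable {X Y : Type} [Fintype X] [Fintype Y]

/-- The averaging operator of the walk restricted to the pairs in `g`. -/
def pathPowW (f : X → Y → X) (g : X → X → Prop) [DecidableRel g] (v : X → ℝ) (x : X) : ℝ :=
  ∑ y : Y, if g x (f x y) then v (f x y) else 0

/-- The iterates of the averaging operator at the constant function one. -/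
def pathPowV (f : X → Y → X) (g : X → X → Prop) [DecidableRel g] : ℕ → X → ℝ
  | 0 => fun _ => 1
  | i + 1 => pathPowW f g (pathPowV f g i)

theorem pathPow_adj (f : X → Y → X) (rev : X → Y → Y) (h1 : ∀ x y, f (f x y) (rev x y) = x)
    (h2 : ∀ x y, rev (f x y) (rev x y) = y)
    (g : X → X → Prop) [DecidableRel g] (hg : ∀ x x', g x x' → g x' x) (u v : X → ℝ) :
    ∑ x, u x * pathPowW f g v x = ∑ x, pathPowW f g u x * v x := by
  have hL : ∑ x, u x * pathPowW f g v x =
      ∑ z : X × Y, if g z.1 (f z.1 z.2) then u z.1 * v (f z.1 z.2) else 0 := by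
    rw [Fintype.sum_prod_type]
    refine Finset.sum_congr rfl fun x _ => ?_
    rw [pathPowW, Finset.mul_sum]
    refine Finset.sum_congr rfl fun y _ => ?_
    split_ifs <;> simp
  have hR : ∑ x, pathPowW f g u x * v x =
      ∑ z : X × Y, if g z.1 (f z.1 z.2) then u (f z.1 z.2) * v z.1 else 0 := by
    rw [Fintype.sum_prod_type]
    refine Finset.sum_congr rfl fun x _ => ?_
    rw [pathPowW, Finset.sum_mul]
    refine Finset.sum_congr rfl fun y _ => ?_
    split_ifs <;> simp
  let e : X × Y ≃ X × Y :=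
    { toFun := fun z => (f z.1 z.2, rev z.1 z.2)
      invFun := fun z => (f z.1 z.2, rev z.1 z.2)
      left_inv := fun z => by simp [h1, h2]
      right_inv := fun z => by simp [h1, h2] }
  rw [hL, hR, ← Equiv.sum_comp e]
  refine Finset.sum_congr rfl fun z _ => ?_
  have he1 : (e z).1 = f z.1 z.2 := rfl
  have he2 : (e z).2 = rev z.1 z.2 := rfl
  rw [he1, he2, h1]
  by_cases h : g z.1 (f z.1 z.2)
  · rw [if_pos h, if_pos (hg _ _ h)]
  · rw [if_neg h, if_neg (fun h' => h (hg _ _ h'))]

theorem pathPow_mul (f : X → Y → X) (rev : X → Y → Y) (h1 : ∀ x y, f (f x y) (rev x y) = x)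
    (h2 : ∀ x y, rev (f x y) (rev x y) = y)
    (g : X → X → Prop) [DecidableRel g] (hg : ∀ x x', g x x' → g x' x) (i j : ℕ) :
    ∑ x, pathPowV f g i x * pathPowV f g j x = ∑ x, pathPowV f g (i + j) x := by
  induction i generalizing j with
  | zero => simp [pathPowV]
  | succ i ih =>
    have h : ∑ x, pathPowV f g (i + 1) x * pathPowV f g j x =
        ∑ x, pathPowV f g i x * pathPowV f g (j + 1) x := by
      rw [pathPowV, pathPowV]
      exact (pathPow_adj f rev h1 h2 g hg _ _).symm
    rw [h, ih (j + 1)]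
    rw [show i + (j + 1) = i + 1 + j by omega]

theorem pathPow_nonneg (f : X → Y → X) (g : X → X → Prop) [DecidableRel g] (i : ℕ) (x : X) :
    0 ≤ pathPowV f g i x := by
  induction i generalizing x with
  | zero => simp [pathPowV]
  | succ i ih =>
    rw [pathPowV, pathPowW]
    refine Finset.sum_nonneg fun y _ => ?_
    split_ifs
    · exact ih _
    · exact le_rfl

theorem pathPow_run (f : X → Y → X) {K : ℕ} (x : X) (y : Y) (w : Fin K → Y) (t : ℕ) :
    run f x (Fin.cons y w : Fin (K + 1) → Y) (t + 1) = run f (f x y) w t := by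
  induction t with
  | zero => simp [run]
  | succ t ih =>
    rw [run, ih]
    by_cases h : t < K
    · have h' : t + 1 < K + 1 := by omega
      rw [dif_pos h']
      have hc : (Fin.cons y w : Fin (K + 1) → Y) ⟨t + 1, h'⟩ = w ⟨t, h⟩ := by
        have : (⟨t + 1, h'⟩ : Fin (K + 1)) = Fin.succ ⟨t, h⟩ := rfl
        rw [this, Fin.cons_succ]
      rw [hc]
      conv_rhs => rw [run, dif_pos h]
    · have h' : ¬ (t + 1 < K + 1) := by omega
      rw [dif_neg h']
      conv_rhs => rw [run, dif_neg h]

theorem pathPow_count (f : X → Y → X) (g : X → X → Prop) [DecidableRel g] (K : ℕ) (x : X) :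
    pathPowV f g K x =
      ∑ w : Fin K → Y, if (∀ t < K, g (run f x w t) (run f x w (t + 1))) then (1 : ℝ) else 0 := by
  induction K generalizing x with
  | zero => simp [pathPowV]
  | succ K ih =>
    rw [pathPowV, pathPowW, ← Equiv.sum_comp (Fin.consEquiv (fun _ : Fin (K + 1) => Y)),
      Fintype.sum_prod_type]
    refine Finset.sum_congr rfl fun y _ => ?_
    have hiff : ∀ w : Fin K → Y,
        (∀ t < K + 1, g (run f x (Fin.consEquiv (fun _ : Fin (K + 1) => Y) (y, w)) t)
          (run f x (Fin.consEquiv (fun _ : Fin (K + 1) => Y) (y, w)) (t + 1))) ↔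
        (g x (f x y) ∧ ∀ t < K, g (run f (f x y) w t) (run f (f x y) w (t + 1))) := by
      intro w
      have hcons : (Fin.consEquiv (fun _ : Fin (K + 1) => Y) (y, w)) =
        (Fin.cons y w : Fin (K + 1) → Y) := rfl
      rw [hcons]
      constructor
      · intro h
        refine ⟨?_, fun t ht => ?_⟩
        · have := h 0 (by omega)
          rw [pathPow_run] at this
          simpa [run] using this
        · have := h (t + 1) (by omega)
          rw [pathPow_run, pathPow_run] at this
          exact this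
      · rintro ⟨h0, h⟩ t ht
        rcases t with _ | t
        · rw [pathPow_run]
          simpa [run] using h0
        · rw [pathPow_run, pathPow_run]
          exact h t (by omega)
    by_cases h : g x (f x y)
    · rw [if_pos h, ih (f x y)]
      refine Finset.sum_congr rfl fun w _ => ?_
      by_cases h' : ∀ t < K, g (run f (f x y) w t) (run f (f x y) w (t + 1))
      · rw [if_pos h', if_pos ((hiff w).2 ⟨h, h'⟩)]
      · rw [if_neg h', if_neg (fun h'' => h' ((hiff w).1 h'').2)]
    · rw [if_neg h]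
      symm
      refine Finset.sum_eq_zero fun w _ => ?_
      rw [if_neg (fun h'' => h ((hiff w).1 h'').1)]

theorem path_pow {X Y : Type} [Fintype X] [Fintype Y] [Nonempty X] [Nonempty Y]
    (f : X → Y → X) (rev : X → Y → Y) (h1 : ∀ x y, f (f x y) (rev x y) = x)
    (h2 : ∀ x y, rev (f x y) (rev x y) = y)
    (g : X → X → Prop) [DecidableRel g] (hg : ∀ x x', g x x' → g x' x) (a : ℕ) :
    ((#{z : X × Y | g z.1 (f z.1 z.2)} : ℝ) / (Fintype.card X * Fintype.card Y)) ^ (2 ^ a) ≤
      (#{z : X × (Fin (2 ^ a) → Y) |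
          ∀ t < 2 ^ a, g (run f z.1 z.2 t) (run f z.1 z.2 (t + 1))} : ℝ) /
        (Fintype.card X * (Fintype.card Y : ℝ) ^ (2 ^ a)) := by
  have hX : (0 : ℝ) < Fintype.card X := by exact_mod_cast Fintype.card_pos
  have hY : (0 : ℝ) < Fintype.card Y := by exact_mod_cast Fintype.card_pos
  set Z : ℕ → ℝ := fun i => ∑ x, pathPowV f g i x with hZ
  have hZ0 : ∀ i, 0 ≤ Z i := fun i => Finset.sum_nonneg fun x _ => pathPow_nonneg f g i x
  have hdouble : ∀ i, (Z i) ^ 2 ≤ Fintype.card X * Z (i + i) := by
    intro i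
    have h := sq_sum_le_card_mul_sum_sq (s := (Finset.univ : Finset X)) (f := pathPowV f g i)
    rw [Finset.card_univ] at h
    have h' : ∑ x, pathPowV f g i x ^ 2 = Z (i + i) := by
      rw [hZ]
      simp only
      rw [← pathPow_mul f rev h1 h2 g hg i i]
      refine Finset.sum_congr rfl fun x _ => ?_
      ring
    rw [h'] at h
    exact h
  have hmain : ∀ a : ℕ, (Z 1 / (Fintype.card X * Fintype.card Y)) ^ (2 ^ a) ≤
      Z (2 ^ a) / (Fintype.card X * (Fintype.card Y : ℝ) ^ (2 ^ a)) := by
    intro a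
    induction a with
    | zero => simp
    | succ a ih =>
      have hz : 0 ≤ (Z 1 / (Fintype.card X * Fintype.card Y)) ^ (2 ^ a) := by
        apply pow_nonneg
        exact div_nonneg (hZ0 1) (by positivity)
      calc (Z 1 / (Fintype.card X * Fintype.card Y)) ^ (2 ^ (a + 1))
          = ((Z 1 / (Fintype.card X * Fintype.card Y)) ^ (2 ^ a)) ^ 2 := by
            rw [← pow_mul, pow_succ]
        _ ≤ (Z (2 ^ a) / (Fintype.card X * (Fintype.card Y : ℝ) ^ (2 ^ a))) ^ 2 :=
            pow_le_pow_left₀ hz ih 2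
        _ = (Z (2 ^ a)) ^ 2 /
              ((Fintype.card X : ℝ) ^ 2 * (Fintype.card Y : ℝ) ^ (2 ^ a + 2 ^ a)) := by
            rw [div_pow, mul_pow, ← pow_mul, ← two_mul, mul_comm (2 ^ a) 2]
        _ ≤ (Fintype.card X * Z (2 ^ a + 2 ^ a)) /
              ((Fintype.card X : ℝ) ^ 2 * (Fintype.card Y : ℝ) ^ (2 ^ a + 2 ^ a)) := by
            apply div_le_div_of_nonneg_right (hdouble _)
            positivity
        _ = Z (2 ^ (a + 1)) / (Fintype.card X * (Fintype.card Y : ℝ) ^ (2 ^ (a + 1))) := by
            rw [show 2 ^ (a + 1) = 2 ^ a + 2 ^ a by ring]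
            field_simp
  have e1 : (#{z : X × Y | g z.1 (f z.1 z.2)} : ℝ) = Z 1 := by
    rw [Finset.card_filter, Nat.cast_sum, Fintype.sum_prod_type, hZ]
    refine Finset.sum_congr rfl fun x _ => ?_
    rw [pathPowV, pathPowW]
    refine Finset.sum_congr rfl fun y _ => ?_
    split_ifs <;> simp [pathPowV]
  have e2 : (#{z : X × (Fin (2 ^ a) → Y) |
          ∀ t < 2 ^ a, g (run f z.1 z.2 t) (run f z.1 z.2 (t + 1))} : ℝ) = Z (2 ^ a) := by
    rw [Finset.card_filter, Nat.cast_sum, Fintype.sum_prod_type, hZ]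
    refine Finset.sum_congr rfl fun x _ => ?_
    rw [pathPow_count]
    refine Finset.sum_congr rfl fun w _ => ?_
    simp only
    split_ifs <;> simp
  rw [e1, e2]
  exact hmain a

end PathPow

end Pool.Agent.KS
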