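import Pool.Agent.Lib.MP_f017c9_lc.Defs

namespace Pool.Agent.KS

open Finset

/-- the walk `x, f x w_0, f (f x w_0) w_1, ...` (constant after time `K`) -/
def run {X Y : Type*} (f : X → Y → X) {K : ℕ} (x : X) (w : Fin K → Y) : ℕ → X
  | 0 => x
  | t + 1 => if h : t < K then f (run f x w t) (w ⟨t, h⟩) else run f x w t

variable {n k M L : ℕ}

/-- one step for the signs of one clause: label `0` means that new signs are drawn -/
def move1 (s : Pat k) (a : Fin (L + 1) × Pat k) : Pat k := if a.1 = 0 then a.2 else s

/-- one step for a formula: all clauses with label `0` get new signs -/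
def move (F : Formula n k M) (a : Fin M → Fin (L + 1) × Pat k) : Formula n k M :=
  fun j => ((F j).1, move1 (F j).2 (a j))

/-- one step for a pair (seed, formula) -/
def moveR {R : Type} (x : R × Formula n k M) (a : Fin M → Fin (L + 1) × Pat k) :
    R × Formula n k M := (x.1, move x.2 a)

end Pool.Agent.KS
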